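import Mathlib
import Pool.Agent.H713R2.AR.PR
import Pool.Agent.W677.MB4

set_option autoImplicit false

/-! # The functions `V_n`, `Y_n` and `q` -/

namespace Pool.Agent.TH653.MB

open Complex Set Topology Filter Metric MeasureTheory N62a1eb23 Pool.Agent.H712R2 Pool.Agent.H713R2

/-- dividing out a zero of order `K` at the origin -/
theorem divide_order {F : ℂ → ℂ} {K : ℕ} {M C : ℝ} (hF : DifferentiableOn ℂ F (ball 0 1))
    (hM : ∀ x ∈ ball (0 : ℂ) 1, ‖F x‖ ≤ M)
    (hC : ∀ x ∈ ball (0 : ℂ) (1 / 2), ‖F x‖ ≤ C * ‖x‖ ^ K) :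
    ∃ Q : ℂ → ℂ, DifferentiableOn ℂ Q (ball 0 1) ∧ (∀ x ∈ ball (0 : ℂ) 1, ‖Q x‖ ≤ M) ∧
      ∀ x ∈ ball (0 : ℂ) 1, F x = x ^ K * Q x := by
  have hC0 : 0 ≤ C ∨ C < 0 := le_or_gt 0 C
  have hM0 : 0 ≤ M := (norm_nonneg _).trans (hM 0 (mem_ball_self one_pos))
  obtain ⟨Q, hQd, hQe⟩ := removable (r := 1) one_pos (q := fun x => F x / x ^ K)
    ((hF.mono diff_subset).div (by fun_prop) (fun x hx => pow_ne_zero _ (by
      rintro rfl
      exact hx.2 rfl))) (C := max C (M * 2 ^ K)) (by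
    intro x hx hx0
    have hxn : 0 < ‖x‖ := norm_pos_iff.2 hx0
    rw [norm_div, norm_pow]
    by_cases h : ‖x‖ < 1 / 2
    · refine le_trans ?_ (le_max_left _ _)
      rw [div_le_iff₀ (by positivity)]
      exact hC x (by rwa [mem_ball_zero_iff])
    · refine le_trans ?_ (le_max_right _ _)
      rw [div_le_iff₀ (by positivity)]
      push Not at h
      have h1 : 1 ≤ 2 ^ K * ‖x‖ ^ K := by
        rw [← mul_pow]
        exact one_le_pow₀ (by linarith)
      calc ‖F x‖ ≤ M * 1 := by rw [mul_one]; exact hM x hx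
        _ ≤ M * (2 ^ K * ‖x‖ ^ K) := mul_le_mul_of_nonneg_left h1 hM0
        _ = M * 2 ^ K * ‖x‖ ^ K := by ring)
  have hQF : ∀ x ∈ ball (0 : ℂ) 1, x ≠ 0 → F x = x ^ K * Q x := by
    intro x _ hx0
    rw [hQe x hx0]
    field_simp
  have hQc : ContinuousOn Q (ball 0 1) := hQd.continuousOn
  refine ⟨Q, hQd, ?_, ?_⟩
  · intro x hx
    rw [mem_ball_zero_iff] at hx
    -- maximum principle on `ball 0 r`
    have key : ∀ r : ℝ, ‖x‖ < r → r < 1 → 0 < r → ‖Q x‖ * r ^ K ≤ M := by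
      intro r hr1 hr2 hr0
      have h1 : ∀ z ∈ frontier (ball (0 : ℂ) r), ‖Q z‖ ≤ M / r ^ K := by
        intro z hz
        rw [frontier_ball (0 : ℂ) hr0.ne', mem_sphere_zero_iff_norm] at hz
        have hz0 : z ≠ 0 := by
          rintro rfl
          rw [norm_zero] at hz
          linarith
        rw [hQe z hz0, norm_div, norm_pow, hz]
        apply div_le_div_of_nonneg_right _ (by positivity)
        exact hM z (by rw [mem_ball_zero_iff, hz]; exact hr2)
      have h2 := Complex.norm_le_of_forall_mem_frontier_norm_le (f := Q) (U := ball (0 : ℂ) r)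
        isBounded_ball ((hQd.mono (by
          rw [closure_ball (0 : ℂ) hr0.ne']
          exact closedBall_subset_ball hr2)).diffContOnCl) h1 (z := x) (by
          rw [closure_ball (0 : ℂ) hr0.ne', mem_closedBall_zero_iff]
          exact hr1.le)
      rwa [le_div_iff₀ (by positivity)] at h2
    have h3 : Tendsto (fun r : ℝ => ‖Q x‖ * r ^ K) (𝓝[<] 1) (𝓝 (‖Q x‖ * 1 ^ K)) := by
      apply Tendsto.mono_left _ nhdsWithin_le_nhds
      exact (continuous_const.mul (continuous_pow K)).tendsto 1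
    rw [one_pow, mul_one] at h3
    refine le_of_tendsto h3 ?_
    have h4 : max 0 ‖x‖ < 1 := max_lt one_pos hx
    filter_upwards [Ioo_mem_nhdsLT h4] with r hr
    exact key r (lt_of_le_of_lt (le_max_right _ _) hr.1) hr.2 (lt_of_le_of_lt (le_max_left _ _) hr.1)
  · intro x hx
    by_cases hx0 : x = 0
    · subst hx0
      apply eq_at_zero (r := 1) one_pos (F := F) (G := fun x => x ^ K * Q x)
      · exact (hF.differentiableAt (isOpen_ball.mem_nhds hx)).continuousAt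
      · exact ((differentiableAt_id.pow K).mul
          (hQd.differentiableAt (isOpen_ball.mem_nhds hx))).continuousAt
      · exact hQF
    · exact hQF x hx hx0

variable {d : ℕ} {β : ℂ → ℂ}

/-- `V_n - 1 = x ^ (d ^ (n + 1) - 1) Q` with `|Q| ≤ 3` -/
theorem BB_div (hd : 2 ≤ d) (hβ : IsBeta d β) (n : ℕ) :
    ∃ Q : ℂ → ℂ, DifferentiableOn ℂ Q (ball 0 1) ∧ (∀ x ∈ ball (0 : ℂ) 1, ‖Q x‖ ≤ 3) ∧
      ∀ x ∈ ball (0 : ℂ) 1, BB d β n x - 1 = x ^ (d ^ (n + 1) - 1) * Q x := by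
  obtain ⟨C, hC⟩ := hβ.order n
  refine divide_order (F := fun x => BB d β n x - 1) ((BB_diff hβ.diff n).sub_const _) ?_ hC
  intro x hx
  have h1 := AR.BB_le_two hd hβ n hx
  have h2 := norm_sub_le (BB d β n x) 1
  rw [norm_one] at h2
  linarith

theorem BB_sub_one_le (hd : 2 ≤ d) (hβ : IsBeta d β) (n : ℕ) {x : ℂ} (hx : x ∈ ball (0 : ℂ) 1) :
    ‖BB d β n x - 1‖ ≤ 3 * ‖x‖ ^ (d ^ (n + 1) - 1) := by
  obtain ⟨Q, -, hQ2, hQ3⟩ := BB_div hd hβ n
  rw [hQ3 x hx, norm_mul, norm_pow, mul_comm]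
  exact mul_le_mul_of_nonneg_right (hQ2 x hx) (by positivity)

theorem BB_zero_val (hd : 2 ≤ d) (hβ : IsBeta d β) (n : ℕ) : BB d β n 0 = 1 := by
  rw [BB_at_zero hd, hβ.zero, one_pow]

/-- the derivative of the exterior map in the coordinate `x = 1 / z` -/
noncomputable def qq (β : ℂ → ℂ) : ℂ → ℂ := fun x => β x - x * deriv β x

theorem qq_diff (hβ : IsBeta d β) : DifferentiableOn ℂ (qq β) (ball 0 1) :=
  hβ.diff.sub (differentiableOn_id.mul (hβ.diff.deriv isOpen_ball))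

theorem qq_zero (hβ : IsBeta d β) : qq β 0 = 1 := by simp [qq, hβ.zero]

/-- the derivatives of the critical orbit, in the coordinate `x = 1 / z` -/
noncomputable def YY (d : ℕ) (β : ℂ → ℂ) : ℕ → ℂ → ℂ
  | 0 => fun _ => 1
  | k + 1 => fun x => (BB d β k x) ^ (d - 1) * YY d β k x + x ^ (d ^ (k + 1) - 1) / (d : ℂ) ^ (k + 1)

theorem YY_succ (d : ℕ) (β : ℂ → ℂ) (k : ℕ) (x : ℂ) : YY d β (k + 1) x =
    (BB d β k x) ^ (d - 1) * YY d β k x + x ^ (d ^ (k + 1) - 1) / (d : ℂ) ^ (k + 1) := rfl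

theorem YY_diff (hβ : IsBeta d β) (k : ℕ) : DifferentiableOn ℂ (YY d β k) (ball 0 1) := by
  induction k with
  | zero => exact differentiableOn_const _
  | succ k ih =>
    have h1 := BB_diff (d := d) hβ.diff k
    have h2 : YY d β (k + 1) = fun x => (BB d β k x) ^ (d - 1) * YY d β k x +
      x ^ (d ^ (k + 1) - 1) / (d : ℂ) ^ (k + 1) := rfl
    rw [h2]
    exact ((h1.pow _).mul ih).add (by fun_prop)

theorem YY_zero_val (hd : 2 ≤ d) (hβ : IsBeta d β) (k : ℕ) : YY d β k 0 = 1 := by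
  induction k with
  | zero => rfl
  | succ k ih =>
    rw [YY_succ, BB_zero_val hd hβ, ih, one_pow]
    have h1 : d ^ (k + 1) - 1 ≠ 0 := by
      have : 1 < d ^ (k + 1) := Nat.one_lt_pow (by omega) (by omega)
      omega
    rw [zero_pow h1]
    ring

/-- the chain rule -/
theorem YY_mul_qq (hd : 2 ≤ d) (hβ : IsBeta d β) (k : ℕ) {x : ℂ} (hx : x ∈ ball (0 : ℂ) 1) :
    BB d β k x - x * deriv (BB d β k) x / (d : ℂ) ^ k = YY d β k x * qq β x := by
  induction k with
  | zero =>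
    rw [pow_zero, div_one]
    change β x - x * deriv β x = 1 * qq β x
    rw [one_mul]
    rfl
  | succ k ih =>
    have hdC : (d : ℂ) ≠ 0 := by
      have : d ≠ 0 := by omega
      exact_mod_cast this
    obtain ⟨D, hD⟩ : ∃ D, D = d ^ (k + 1) := ⟨_, rfl⟩
    have hD2 : 2 ≤ D := by
      rw [hD]
      have : 1 < d ^ (k + 1) := Nat.one_lt_pow (by omega) (by omega)
      omega
    have hV : HasDerivAt (BB d β k) (deriv (BB d β k) x) x :=
      ((BB_diff hβ.diff k).differentiableAt (isOpen_ball.mem_nhds hx)).hasDerivAt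
    have hB : HasDerivAt β (deriv β x) x :=
      (hβ.diff.differentiableAt (isOpen_ball.mem_nhds hx)).hasDerivAt
    have h1 : HasDerivAt (BB d β (k + 1)) ((d : ℂ) * (BB d β k x) ^ (d - 1) * deriv (BB d β k) x +
        (((D - 1 : ℕ) : ℂ) * x ^ (D - 1 - 1) * β x + x ^ (D - 1) * deriv β x)) x := by
      have h2 := (hV.pow d).add ((hasDerivAt_pow (D - 1) x).mul hB)
      rw [hD] at h2 ⊢
      exact h2
    rw [h1.deriv, YY_succ, BB_succ, ← hD]
    obtain ⟨e, he⟩ : ∃ e, D = e + 2 := Nat.exists_eq_add_of_le' hD2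
    obtain ⟨f, hf⟩ : ∃ f, d = f + 1 := Nat.exists_eq_add_of_le' (by omega : 1 ≤ d)
    have hDC : (D : ℂ) = (d : ℂ) ^ (k + 1) := by rw [hD]; push_cast; rfl
    have hDe : (D : ℂ) = e + 2 := by rw [he]; push_cast; rfl
    have hne : (e : ℂ) + 2 ≠ 0 := by
      rw [← hDe, hDC]
      exact pow_ne_zero _ hdC
    have hk : (d : ℂ) ^ k ≠ 0 := pow_ne_zero _ hdC
    rw [← hDC, he]
    simp only [show e + 2 - 1 = e + 1 by omega, show e + 1 - 1 = e by omega]
    have hfd : d - 1 = f := by omega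
    have hp : BB d β k x ^ d = BB d β k x ^ f * BB d β k x := by
      conv_lhs => rw [hf]
      rw [pow_succ]
      congr 2 <;> rw [← hf]
    rw [hfd, hp, add_mul, mul_assoc (BB d β k x ^ f), ← ih]
    unfold qq
    have hDk : (e : ℂ) + 2 = d ^ k * d := by rw [← hDe, hDC, pow_succ]
    push_cast
    rw [pow_succ x e]
    have e1 : x * ((d : ℂ) * BB d β k x ^ f * deriv (BB d β k) x +
        (((e : ℂ) + 1) * x ^ e * β x + x ^ e * x * deriv β x)) / ((e : ℂ) + 2) =
        BB d β k x ^ f * (x * deriv (BB d β k) x / (d : ℂ) ^ k) +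
        x ^ e * x * (((e : ℂ) + 1) * β x + x * deriv β x) / ((e : ℂ) + 2) := by
      rw [hDk]
      field_simp
    rw [e1]
    field_simp
    ring

end Pool.Agent.TH653.MB
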