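import Mathlib
import Pool.Agent.TH653.MB.A1

set_option autoImplicit false

/-! # Logarithmic derivatives and their Taylor coefficients -/

namespace Pool.Agent.TH653.MB

open Complex Set Topology Filter Metric MeasureTheory N62a1eb23 Pool.Agent.H712R2 Pool.Agent.H713R2

theorem tc_congr {F G : ℂ → ℂ} (h : F =ᶠ[𝓝 0] G) (k : ℕ) : tc F k = tc G k := by
  unfold tc
  rw [h.iteratedDeriv_eq k]

theorem tc_add_at {F G : ℂ → ℂ} (hF : AnalyticAt ℂ F 0) (hG : AnalyticAt ℂ G 0) (k : ℕ) :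
    tc (fun x => F x + G x) k = tc F k + tc G k := by
  unfold tc
  rw [iteratedDeriv_fun_add hF.contDiffAt hG.contDiffAt, mul_add]

theorem analyticAt_logDeriv {f : ℂ → ℂ} {x : ℂ} (hf : AnalyticAt ℂ f x) (h0 : f x ≠ 0) :
    AnalyticAt ℂ (logDeriv f) x := by
  unfold logDeriv
  exact hf.deriv.div hf h0

theorem tc_logDeriv_mul {f g : ℂ → ℂ} (hf : AnalyticAt ℂ f 0) (hg : AnalyticAt ℂ g 0)
    (hf0 : f 0 ≠ 0) (hg0 : g 0 ≠ 0) (k : ℕ) :
    tc (logDeriv (fun x => f x * g x)) k = tc (logDeriv f) k + tc (logDeriv g) k := by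
  rw [← tc_add_at (analyticAt_logDeriv hf hf0) (analyticAt_logDeriv hg hg0)]
  apply tc_congr
  filter_upwards [hf.eventually_analyticAt, hg.eventually_analyticAt,
    hf.continuousAt.eventually_ne hf0, hg.continuousAt.eventually_ne hg0] with x h1 h2 h3 h4
  exact logDeriv_mul x h3 h4 h1.differentiableAt h2.differentiableAt

theorem tc_zero_fun (k : ℕ) : tc (fun _ => (0 : ℂ)) k = 0 := by
  unfold tc
  cases k with
  | zero => simp
  | succ k => simp

theorem tc_logDeriv_const (c : ℂ) (k : ℕ) : tc (logDeriv (fun _ : ℂ => c)) k = 0 := by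
  rw [logDeriv_const]
  exact tc_zero_fun k

theorem tc_logDeriv_prod {ι : Type*} (S : Multiset ι) {f : ι → ℂ → ℂ}
    (hf : ∀ i ∈ S, AnalyticAt ℂ (f i) 0) (h0 : ∀ i ∈ S, f i 0 ≠ 0) (k : ℕ) :
    AnalyticAt ℂ (fun x => (S.map (fun i => f i x)).prod) 0 ∧
    (fun x => (S.map (fun i => f i x)).prod) 0 ≠ 0 ∧
    tc (logDeriv (fun x => (S.map (fun i => f i x)).prod)) k =
      (S.map (fun i => tc (logDeriv (f i)) k)).sum := by
  induction S using Multiset.induction with
  | empty =>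
    refine ⟨by simpa using analyticAt_const, by simp, ?_⟩
    simp only [Multiset.map_zero, Multiset.prod_zero, Multiset.sum_zero]
    exact tc_logDeriv_const 1 k
  | cons a S ih =>
    obtain ⟨h1, h2, h3⟩ := ih (fun i hi => hf i (Multiset.mem_cons_of_mem hi))
      (fun i hi => h0 i (Multiset.mem_cons_of_mem hi))
    have ha := hf a (Multiset.mem_cons_self a S)
    have ha0 := h0 a (Multiset.mem_cons_self a S)
    simp only [Multiset.map_cons, Multiset.prod_cons, Multiset.sum_cons]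
    refine ⟨ha.mul h1, mul_ne_zero ha0 h2, ?_⟩
    rw [tc_logDeriv_mul ha h1 ha0 h2, h3]

theorem tc_logDeriv_pow {f : ℂ → ℂ} (hf : AnalyticAt ℂ f 0) (hf0 : f 0 ≠ 0) (e k : ℕ) :
    tc (logDeriv (fun x => f x ^ e)) k = e * tc (logDeriv f) k := by
  induction e with
  | zero =>
    simp only [pow_zero, Nat.cast_zero, zero_mul]
    exact tc_logDeriv_const 1 k
  | succ e ih =>
    simp only [pow_succ]
    rw [tc_logDeriv_mul (f := fun x => f x ^ e) (by fun_prop) hf (pow_ne_zero _ hf0) hf0, ih]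
    push_cast
    ring

theorem tc_logDeriv_finset_prod {ι : Type*} (s : Finset ι) {f : ι → ℂ → ℂ}
    (hf : ∀ i ∈ s, AnalyticAt ℂ (f i) 0) (h0 : ∀ i ∈ s, f i 0 ≠ 0) (k : ℕ) :
    tc (logDeriv (fun x => ∏ i ∈ s, f i x)) k = ∑ i ∈ s, tc (logDeriv (f i)) k :=
  (tc_logDeriv_prod s.val hf h0 k).2.2

/-- If `f = 1 + x ^ K ψ` then the first coefficients of `f' / f` vanish. -/
theorem tc_logDeriv_order {f Ψ : ℂ → ℂ} {r : ℝ} {K k : ℕ} (hr : 0 < r)
    (hΨ : DifferentiableOn ℂ Ψ (ball 0 r)) (hf : ∀ x ∈ ball (0 : ℂ) r, f x = 1 + x ^ K * Ψ x)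
    (hk : k + 1 < K) : tc (logDeriv f) k = 0 := by
  have h0 : (0 : ℂ) ∈ ball (0 : ℂ) r := mem_ball_self hr
  have hnb : ball (0 : ℂ) r ∈ 𝓝 (0 : ℂ) := isOpen_ball.mem_nhds h0
  have hf1 : f =ᶠ[𝓝 0] fun x => 1 + x ^ K * Ψ x := by
    filter_upwards [hnb] with x hx using hf x hx
  have hΨa : AnalyticAt ℂ Ψ 0 := hΨ.analyticAt hnb
  have hga : AnalyticAt ℂ (fun x => 1 + x ^ K * Ψ x) 0 := by fun_prop
  have hg0 : (fun x => 1 + x ^ K * Ψ x) 0 ≠ 0 := by
    simp [zero_pow (show K ≠ 0 by omega)]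
  -- the numerator
  obtain ⟨L, hL⟩ := Nat.exists_eq_add_of_le' (show 1 ≤ K by omega)
  set N : ℂ → ℂ := fun x => (K : ℂ) * Ψ x + x * deriv Ψ x with hN
  have hNa : AnalyticAt ℂ N 0 := by
    have := hΨa.deriv
    simp only [hN]
    fun_prop
  have hq : logDeriv f =ᶠ[𝓝 0] fun x => x ^ L * (N x / (1 + x ^ K * Ψ x)) := by
    have h1 : ∀ᶠ x in 𝓝 (0 : ℂ), AnalyticAt ℂ Ψ x := hΨa.eventually_analyticAt
    filter_upwards [hf1.eventuallyEq_nhds, h1] with x hx1 hx2
    rw [logDeriv_apply, hx1.eq_of_nhds, hx1.deriv_eq]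
    have h2 : HasDerivAt (fun x => 1 + x ^ K * Ψ x)
        (((K : ℂ) * x ^ (K - 1)) * Ψ x + x ^ K * deriv Ψ x) x :=
      ((hasDerivAt_pow K x).mul hx2.differentiableAt.hasDerivAt).const_add 1
    rw [h2.deriv, hN]
    have h3 : K - 1 = L := by omega
    have hxK : x ^ K = x ^ L * x := by rw [hL, pow_succ]
    rw [h3, mul_div_assoc']
    congr 1
    rw [hxK]
    ring
  rw [tc_congr hq]
  have hMa : AnalyticAt ℂ (fun x => N x / (1 + x ^ K * Ψ x)) 0 := hNa.div hga hg0
  obtain ⟨s, hs, hsd⟩ : ∃ s, 0 < s ∧ DifferentiableOn ℂ (fun x => N x / (1 + x ^ K * Ψ x)) (ball 0 s) := by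
    obtain ⟨s, hs, hsub⟩ := Metric.mem_nhds_iff.1 hMa.eventually_analyticAt
    exact ⟨s, hs, fun x hx => (hsub hx).differentiableAt.differentiableWithinAt⟩
  obtain ⟨C, hC⟩ : ∃ C, ∀ x ∈ closedBall (0 : ℂ) (s / 2), ‖N x / (1 + x ^ K * Ψ x)‖ ≤ C :=
    (isCompact_closedBall (0 : ℂ) (s / 2)).exists_bound_of_continuousOn
      (hsd.continuousOn.mono (closedBall_subset_ball (by linarith)))
  apply tc_eq_zero_of_order (r := s / 2) (C := C) (K := L) (by positivity) (by omega)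
  · exact ((differentiable_id.pow L).differentiableOn).mul (hsd.mono (ball_subset_ball (by linarith)))
  · intro x hx
    rw [norm_mul, norm_pow, mul_comm]
    exact mul_le_mul_of_nonneg_right (hC x (ball_subset_closedBall hx)) (by positivity)

variable {d : ℕ} {β : ℂ → ℂ}

theorem LL_eq (β : ℂ → ℂ) (t : ℂ) : LL β t = logDeriv (hh β t) := by
  funext x
  rw [logDeriv_apply, div_eq_mul_inv]
  rfl

theorem hh_zero (hβ : IsBeta d β) (t : ℂ) : hh β t 0 = 1 := by
  simp [hh, hβ.zero]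

theorem hh_analyticAt (hβ : IsBeta d β) (t : ℂ) : AnalyticAt ℂ (hh β t) 0 :=
  (hh_diff hβ t).analyticAt (isOpen_ball.mem_nhds (mem_ball_self one_pos))

/-- the coefficient identity, for every `t` -/
theorem coef_all (hβ : IsBeta d β) (t : ℂ) {G : Polynomial ℂ} {m : ℕ} (hm : 1 ≤ m) {H : ℂ → ℂ}
    (hHd : DifferentiableOn ℂ H (ball 0 1))
    (hHe : ∀ x ∈ ball (0 : ℂ) 1, x ≠ 0 → H x = x ^ m * G.eval (x⁻¹ * β x)) {C : ℝ}
    (hord : ∀ x ∈ ball (0 : ℂ) 1, ‖H x - 1‖ ≤ C * ‖x‖ ^ (m + 1)) :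
    tc (LL β t) (m - 1) = - G.eval t := by
  obtain ⟨R, hR0, hR1, hhne⟩ : ∃ R : ℝ, 0 < R ∧ R ≤ 1 ∧ ∀ x ∈ ball (0 : ℂ) R, hh β t x ≠ 0 := by
    have h1 : ∀ᶠ x in 𝓝 (0 : ℂ), hh β t x ≠ 0 :=
      (hh_analyticAt hβ t).continuousAt.eventually_ne (by rw [hh_zero hβ]; exact one_ne_zero)
    obtain ⟨s, hs, hsub⟩ := Metric.mem_nhds_iff.1 h1
    exact ⟨min s 1, lt_min hs one_pos, min_le_right _ _, fun x hx =>
      hsub (ball_subset_ball (min_le_left _ _) hx)⟩
  have hRsub : ball (0 : ℂ) R ⊆ ball 0 1 := ball_subset_ball hR1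
  have hL : DifferentiableOn ℂ (LL β t) (ball 0 R) := by
    unfold LL
    exact (((hh_diff hβ t).deriv isOpen_ball).mono hRsub).mul
      (((hh_diff hβ t).mono hRsub).inv hhne)
  set W : ℂ → ℂ := fun x => x * LL β t x - 1 with hW
  have hxL : DifferentiableOn ℂ (fun x => x * LL β t x) (ball 0 R) := differentiableOn_id.mul hL
  have hWd : DifferentiableOn ℂ W (ball 0 R) := hxL.sub (differentiableOn_const _)
  set pt : Polynomial ℂ := G - Polynomial.C (G.eval t) with hpt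
  have hroot : pt.IsRoot t := by simp [hpt, Polynomial.IsRoot.def]
  obtain ⟨Q, hQ⟩ := Polynomial.dvd_iff_isRoot.mpr hroot
  obtain ⟨R', hR'⟩ := exists_antideriv Q
  have hQe : ∀ c, G.eval c - G.eval t = (c - t) * Q.eval c := by
    intro c
    have := congrArg (Polynomial.eval c) hQ
    simpa [hpt] using this
  obtain ⟨s, hs⟩ : ∃ s, s = R / 2 := ⟨_, rfl⟩
  have hs0 : 0 < s := by rw [hs]; linarith
  have hsR : s < R := by rw [hs]; linarith
  have hcurve : ∮ z in C(0, s), Q.eval (z⁻¹ * β z) * ((z⁻¹ * β z - t) * (W z / z)) = 0 := by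
    apply circleIntegral.integral_eq_zero_of_hasDerivWithinAt (f := fun z => R'.eval (z⁻¹ * β z))
      hs0.le
    intro z hz
    have hzn : ‖z‖ = s := mem_sphere_zero_iff_norm.mp hz
    have hz0 : z ≠ 0 := by
      rintro rfl
      rw [norm_zero] at hzn
      linarith
    have hzR : z ∈ ball (0 : ℂ) R := by rw [mem_ball_zero_iff, hzn]; exact hsR
    have hzb : z ∈ ball (0 : ℂ) 1 := hRsub hzR
    have hβz : HasDerivAt β (deriv β z) z :=
      (hβ.diff.differentiableAt (isOpen_ball.mem_nhds hzb)).hasDerivAt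
    have h1 : HasDerivAt (fun z => z⁻¹ * β z) (-(z ^ 2)⁻¹ * β z + z⁻¹ * deriv β z) z :=
      (hasDerivAt_inv hz0).mul hβz
    have h2 : HasDerivAt (fun c => R'.eval c) (R'.derivative.eval (z⁻¹ * β z)) (z⁻¹ * β z) :=
      R'.hasDerivAt _
    have h3 := h2.comp z h1
    rw [hR'] at h3
    refine HasDerivAt.hasDerivWithinAt ?_
    suffices hval : (z⁻¹ * β z - t) * (W z / z) = -(z ^ 2)⁻¹ * β z + z⁻¹ * deriv β z by
      rw [hval]
      exact h3
    have hne := hhne z hzR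
    have hdh : deriv (hh β t) z = deriv β z - t := by
      have : HasDerivAt (hh β t) (deriv β z - t * 1) z := hβz.sub ((hasDerivAt_id z).const_mul t)
      rw [this.deriv, mul_one]
    have hWz : W z = z * ((deriv β z - t) * (hh β t z)⁻¹) - 1 := by
      simp only [hW]
      unfold LL
      rw [hdh]
    rw [hWz]
    have h4 : z⁻¹ * β z - t = z⁻¹ * hh β t z := by
      unfold hh
      field_simp
    rw [h4]
    have h5 : z⁻¹ * hh β t z * ((z * ((deriv β z - t) * (hh β t z)⁻¹) - 1) / z) =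
        z⁻¹ * ((deriv β z - t) - hh β t z / z) := by
      field_simp
    rw [h5]
    unfold hh
    field_simp
    ring
  have hcongr : ∮ z in C(0, s), Q.eval (z⁻¹ * β z) * ((z⁻¹ * β z - t) * (W z / z)) =
      ∮ z in C(0, s), ((fun x => (H x - 1) * W x + W x) z / z ^ (m + 1)
        - G.eval t * (W z / z ^ (0 + 1))) := by
    apply circleIntegral.integral_congr hs0.le
    intro z hz
    have hzn : ‖z‖ = s := mem_sphere_zero_iff_norm.mp hz
    have hz0 : z ≠ 0 := by
      rintro rfl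
      rw [norm_zero] at hzn
      linarith
    beta_reduce
    rw [hHe z (hRsub (by rw [mem_ball_zero_iff, hzn]; exact hsR)) hz0, zero_add, pow_one]
    have h1 := hQe (z⁻¹ * β z)
    have h2 : Q.eval (z⁻¹ * β z) * ((z⁻¹ * β z - t) * (W z / z)) =
        (G.eval (z⁻¹ * β z) - G.eval t) * (W z / z) := by
      rw [h1]; ring
    rw [h2, pow_succ]
    have hzm : z ^ m ≠ 0 := pow_ne_zero _ hz0
    field_simp
    ring
  have hF1d : DifferentiableOn ℂ (fun x => (H x - 1) * W x) (ball 0 R) :=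
    ((hHd.mono hRsub).sub (differentiableOn_const _)).mul hWd
  have hF2d : DifferentiableOn ℂ (fun x => (H x - 1) * W x + W x) (ball 0 R) := hF1d.add hWd
  have hsph : sphere (0 : ℂ) s ⊆ ball 0 R := by
    intro z hz
    rw [mem_sphere_zero_iff_norm] at hz
    rw [mem_ball_zero_iff, hz]; exact hsR
  have hsph0 : ∀ z ∈ sphere (0 : ℂ) s, z ≠ 0 := by
    rintro z hz rfl
    rw [mem_sphere_zero_iff_norm, norm_zero] at hz
    linarith
  have hI1 : CircleIntegrable (fun z => (fun x => (H x - 1) * W x + W x) z / z ^ (m + 1)) 0 s := by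
    apply ContinuousOn.circleIntegrable hs0.le
    apply ContinuousOn.div (hF2d.continuousOn.mono hsph) (by fun_prop)
    intro z hz
    exact pow_ne_zero _ (hsph0 z hz)
  have hI2 : CircleIntegrable (fun z => G.eval t * (W z / z ^ (0 + 1))) 0 s := by
    apply ContinuousOn.circleIntegrable hs0.le
    apply ContinuousOn.mul continuousOn_const
    apply ContinuousOn.div (hWd.continuousOn.mono hsph) (by fun_prop)
    intro z hz
    exact pow_ne_zero _ (hsph0 z hz)
  rw [hcongr, circleIntegral.integral_sub hI1 hI2, circleIntegral.integral_const_mul,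
    circleIntegral_tc hs0 hsR hF2d m, circleIntegral_tc hs0 hsR hWd 0] at hcurve
  have hW0 : tc W 0 = -1 := by rw [tc_zero]; simp [hW]
  have hWm : tc W m = tc (LL β t) (m - 1) := by
    obtain ⟨k, hk⟩ := Nat.exists_eq_add_of_le' (show 1 ≤ m by omega)
    rw [hk, Nat.add_sub_cancel]
    have := tc_sub hR0 hxL (differentiableOn_const (c := (1 : ℂ))) (k + 1)
    rw [tc_const_succ, sub_zero, tc_id_mul hR0 hL] at this
    exact this
  have hF1m : tc (fun x => (H x - 1) * W x) m = 0 := by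
    obtain ⟨CW, hCW⟩ : ∃ CW, ∀ x ∈ closedBall (0 : ℂ) s, ‖W x‖ ≤ CW :=
      (isCompact_closedBall (0 : ℂ) s).exists_bound_of_continuousOn
        (hWd.continuousOn.mono (closedBall_subset_ball hsR))
    apply tc_eq_zero_of_order (r := s) (C := C * CW) (K := m + 1) hs0
      (by omega) (hF1d.mono (ball_subset_ball hsR.le))
    intro x hx
    rw [norm_mul]
    have h1 := hord x (hRsub (ball_subset_ball hsR.le hx))
    have h2 := hCW x (ball_subset_closedBall hx)
    calc ‖H x - 1‖ * ‖W x‖ ≤ (C * ‖x‖ ^ (m + 1)) * CW :=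
          mul_le_mul h1 h2 (norm_nonneg _) ((norm_nonneg _).trans h1)
      _ = C * CW * ‖x‖ ^ (m + 1) := by ring
  have hF2m : tc (fun x => (H x - 1) * W x + W x) m = tc (LL β t) (m - 1) := by
    rw [tc_add hR0 hF1d hWd, hF1m, zero_add, hWm]
  rw [hF2m, hW0] at hcurve
  have h4 : (2 * Real.pi * I : ℂ) ≠ 0 := Complex.two_pi_I_ne_zero
  have h5 : (2 * Real.pi * I : ℂ) * (tc (LL β t) (m - 1) + G.eval t) = 0 := by
    linear_combination hcurve
  rcases mul_eq_zero.mp h5 with h6 | h6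
  · exact absurd h6 h4
  · linear_combination h6

end Pool.Agent.TH653.MB
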