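import Mathlib
import Pool.Agent.TH653.MB.A2

set_option autoImplicit false

/-! # Circle averages -/

namespace Pool.Agent.TH653.MB

open Complex Set Topology Filter Metric MeasureTheory N62a1eb23 Pool.Agent.H712R2 Pool.Agent.H713R2
open Real (circleAverage)

theorem ci_of_diff {E : Type*} [NormedAddCommGroup E] {F : ℂ → E} {ρ σ : ℝ} (hρ : 0 < ρ) (hσ : ρ < σ)
    (hF : ContinuousOn F (ball (0 : ℂ) σ)) : CircleIntegrable F 0 ρ := by
  apply ContinuousOn.circleIntegrable'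
  apply hF.mono
  intro x hx
  rw [mem_sphere_zero_iff_norm, abs_of_pos hρ] at hx
  rw [mem_ball_zero_iff, hx]
  exact hσ

theorem av_analytic {g : ℂ → ℂ} {ρ σ : ℝ} (hρ : 0 < ρ) (hσ : ρ < σ)
    (hg : DifferentiableOn ℂ g (ball (0 : ℂ) σ)) : circleAverage g 0 ρ = g 0 := by
  apply DiffContOnCl.circleAverage
  rw [abs_of_pos hρ]
  apply DifferentiableOn.diffContOnCl
  rw [closure_ball (0 : ℂ) hρ.ne']
  exact hg.mono (closedBall_subset_ball hσ)

theorem av_re {g : ℂ → ℂ} {ρ σ : ℝ} (hρ : 0 < ρ) (hσ : ρ < σ)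
    (hg : DifferentiableOn ℂ g (ball (0 : ℂ) σ)) :
    circleAverage (fun x => (g x).re) 0 ρ = (g 0).re := by
  have h := Complex.reCLM.circleAverage_comp_comm (f := g) (c := 0) (R := ρ)
    (ci_of_diff hρ hσ hg.continuousOn)
  rw [av_analytic hρ hσ hg] at h
  exact h

theorem norm_av_le {f : ℂ → ℂ} {ρ : ℝ} :
    ‖circleAverage f 0 ρ‖ ≤ circleAverage (fun x => ‖f x‖) 0 ρ := by
  unfold circleAverage
  rw [norm_smul, smul_eq_mul, Real.norm_of_nonneg (by positivity)]
  apply mul_le_mul_of_nonneg_left _ (by positivity)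
  exact intervalIntegral.norm_integral_le_integral_norm (by positivity)

/-- Cauchy's formula as a circle average -/
theorem av_div_pow {F : ℂ → ℂ} {ρ σ : ℝ} (hρ : 0 < ρ) (hσ : ρ < σ)
    (hF : DifferentiableOn ℂ F (ball (0 : ℂ) σ)) (m : ℕ) :
    circleAverage (fun x => F x / x ^ m) 0 ρ = tc F m := by
  rw [Real.circleAverage_eq_circleIntegral hρ.ne']
  have h1 : (∮ z in C(0, ρ), (z - 0)⁻¹ • (F z / z ^ m)) = ∮ z in C(0, ρ), F z / z ^ (m + 1) := by
    apply circleIntegral.integral_congr hρ.le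
    intro z _
    simp only [sub_zero, smul_eq_mul, pow_succ]
    rw [div_eq_mul_inv, div_eq_mul_inv, mul_inv]
    ring
  rw [h1, circleIntegral_tc hρ hσ hF m, smul_eq_mul]
  have h2 : (2 * Real.pi * I : ℂ) ≠ 0 := Complex.two_pi_I_ne_zero
  field_simp

theorem av_mul_pow {F : ℂ → ℂ} {ρ σ : ℝ} (hρ : 0 < ρ) (hσ : ρ < σ)
    (hF : DifferentiableOn ℂ F (ball (0 : ℂ) σ)) {m : ℕ} (hm : 1 ≤ m) :
    circleAverage (fun x => x ^ m * F x) 0 ρ = 0 := by
  have h1 : DifferentiableOn ℂ (fun x : ℂ => x ^ m * F x) (ball (0 : ℂ) σ) :=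
    (Differentiable.differentiableOn (by fun_prop)).mul hF
  rw [av_analytic hρ hσ h1]
  simp [zero_pow (show m ≠ 0 by omega)]

/-- Taylor coefficients from the real part -/
theorem tc_re_bound {g : ℂ → ℂ} {ρ σ : ℝ} (hρ : 0 < ρ) (hσ : ρ < σ)
    (hg : DifferentiableOn ℂ g (ball (0 : ℂ) σ)) {m : ℕ} (hm : 1 ≤ m) :
    ‖tc g m‖ * ρ ^ m ≤ 2 * circleAverage (fun x => |(g x).re|) 0 ρ := by
  have hgc := hg.continuousOn
  have h1 := av_div_pow hρ hσ hg m
  have h2 := av_mul_pow hρ hσ hg hm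
  have hnz : ∀ x ∈ sphere (0 : ℂ) |ρ|, x ≠ 0 ∧ ‖x‖ = ρ := by
    intro x hx
    rw [mem_sphere_zero_iff_norm, abs_of_pos hρ] at hx
    refine ⟨?_, hx⟩
    rintro rfl
    rw [norm_zero] at hx
    linarith
  have hsub : sphere (0 : ℂ) |ρ| ⊆ ball 0 σ := by
    intro x hx
    rw [mem_ball_zero_iff, (hnz x hx).2]
    exact hσ
  -- the conjugate
  have h3 : circleAverage (fun x => (starRingEnd ℂ) (g x) / x ^ m) 0 ρ = 0 := by
    have h4 := (Complex.conjCLE : ℂ →L[ℝ] ℂ).circleAverage_comp_comm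
      (f := fun x => x ^ m * g x) (c := 0) (R := ρ)
      (ci_of_diff hρ hσ ((continuous_pow m).continuousOn.mul hgc))
    rw [h2, map_zero] at h4
    have h5 : circleAverage (fun x => (starRingEnd ℂ) (g x) / x ^ m) 0 ρ =
        circleAverage (fun x => ((ρ : ℂ) ^ (2 * m))⁻¹ •
          ((Complex.conjCLE : ℂ →L[ℝ] ℂ) ∘ fun x => x ^ m * g x) x) 0 ρ := by
      apply Real.circleAverage_congr_sphere
      intro x hx
      obtain ⟨hx0, hxn⟩ := hnz x hx
      have hρC : (ρ : ℂ) ≠ 0 := by exact_mod_cast hρ.ne'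
      have h6 : (starRingEnd ℂ) x * x = (ρ : ℂ) ^ 2 := by
        rw [mul_comm, Complex.mul_conj, Complex.normSq_eq_norm_sq, hxn]
        push_cast
        rfl
      have h7 : ((starRingEnd ℂ) x) ^ m * x ^ m = (ρ : ℂ) ^ (2 * m) := by
        rw [← mul_pow, h6, ← pow_mul]
      have hxm : x ^ m ≠ 0 := pow_ne_zero _ hx0
      have hρm : (ρ : ℂ) ^ (2 * m) ≠ 0 := pow_ne_zero _ hρC
      simp only [Function.comp_apply, ContinuousLinearEquiv.coe_coe, Complex.conjCLE_apply, map_mul,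
        map_pow, smul_eq_mul]
      rw [← h7]
      have hcm : ((starRingEnd ℂ) x) ^ m ≠ 0 := by
        intro h
        rw [h, zero_mul] at h7
        exact hρm h7.symm
      field_simp
    rw [h5, Real.circleAverage_fun_smul, h4, smul_zero]
  have hci1 : CircleIntegrable (fun x => g x / x ^ m) 0 ρ := by
    apply ContinuousOn.circleIntegrable'
    exact (hgc.mono hsub).div (by fun_prop) (fun x hx => pow_ne_zero _ (hnz x hx).1)
  have hci2 : CircleIntegrable (fun x => (starRingEnd ℂ) (g x) / x ^ m) 0 ρ := by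
    apply ContinuousOn.circleIntegrable'
    exact (Complex.continuous_conj.comp_continuousOn (hgc.mono hsub)).div (by fun_prop)
      (fun x hx => pow_ne_zero _ (hnz x hx).1)
  have h8 := Real.circleAverage_fun_add hci1 hci2
  rw [h1, h3, add_zero] at h8
  rw [← h8]
  have h9 : circleAverage (fun x => ‖g x / x ^ m + (starRingEnd ℂ) (g x) / x ^ m‖) 0 ρ =
      (2 * (ρ ^ m)⁻¹) • circleAverage (fun x => |(g x).re|) 0 ρ := by
    rw [← Real.circleAverage_fun_smul]
    apply Real.circleAverage_congr_sphere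
    intro x hx
    obtain ⟨hx0, hxn⟩ := hnz x hx
    simp only [smul_eq_mul]
    rw [← add_div, Complex.add_conj, norm_div, norm_pow, hxn, Complex.norm_real, Real.norm_eq_abs,
      abs_mul, abs_two]
    field_simp
  have h10 := norm_av_le (f := fun x => g x / x ^ m + (starRingEnd ℂ) (g x) / x ^ m) (ρ := ρ)
  rw [h9, smul_eq_mul] at h10
  have hρm : 0 < ρ ^ m := pow_pos hρ m
  calc _ ≤ (2 * (ρ ^ m)⁻¹ * circleAverage (fun x => |(g x).re|) 0 ρ) * ρ ^ m :=
        mul_le_mul_of_nonneg_right h10 hρm.le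
    _ = _ := by field_simp

/-- logarithms of zero-free functions on a disc -/
theorem exists_log_ball {f : ℂ → ℂ} {σ : ℝ} (hσ : 0 < σ) (hf : DifferentiableOn ℂ f (ball 0 σ))
    (h0 : ∀ x ∈ ball (0 : ℂ) σ, f x ≠ 0) :
    ∃ g : ℂ → ℂ, DifferentiableOn ℂ g (ball 0 σ) ∧ (∀ x ∈ ball (0 : ℂ) σ, exp (g x) = f x) ∧
      ∀ x ∈ ball (0 : ℂ) σ, deriv g x = logDeriv f x := by
  have hd : DifferentiableOn ℂ (fun z => deriv f z / f z) (ball 0 σ) :=
    (hf.deriv isOpen_ball).div hf h0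
  obtain ⟨F, hF0, hF⟩ := hd.isExactOn_ball.with_val_at 0 (Complex.log (f 0))
  have hFd : DifferentiableOn ℂ F (ball 0 σ) :=
    fun z hz => (hF z hz).differentiableAt.differentiableWithinAt
  refine ⟨F, hFd, fun z hz => ?_, fun z hz => (hF z hz).deriv⟩
  have hz0 : (0:ℂ) ∈ ball (0:ℂ) σ := mem_ball_self hσ
  have hc : f z * exp (-F z) = f 0 * exp (-F 0) := by
    refine isOpen_ball.is_const_of_deriv_eq_zero (convex_ball (0:ℂ) σ).isPreconnected
      (f := fun z => f z * exp (-F z)) (hf.mul hFd.neg.cexp) ?_ hz hz0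
    intro x hx
    have h1 : HasDerivAt f (deriv f x) x :=
      (hf.differentiableAt (isOpen_ball.mem_nhds hx)).hasDerivAt
    have h2 := h1.mul (hF x hx).neg.cexp
    simp only [Pi.zero_apply]
    refine Eq.trans h2.deriv ?_
    have := h0 x hx
    field_simp
    ring
  rw [hF0, exp_neg, exp_neg, exp_log (h0 0 hz0), mul_inv_cancel₀ (h0 0 hz0)] at hc
  have := mul_inv_eq_one₀ (exp_ne_zero (F z)) |>.1 hc
  exact this.symm

theorem log_norm_of_exp {f g : ℂ → ℂ} {x : ℂ} (h : exp (g x) = f x) :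
    Real.log ‖f x‖ = (g x).re := by
  rw [← h, Complex.norm_exp, Real.log_exp]

/-- a zero-free function whose modulus is not much below `1` on a circle has small coefficients -/
theorem tc_logDeriv_bound {f : ℂ → ℂ} {ρ σ : ℝ} (hρ : 0 < ρ) (hσ : ρ < σ)
    (hf : DifferentiableOn ℂ f (ball 0 σ)) (h0 : ∀ x ∈ ball (0 : ℂ) σ, f x ≠ 0)
    (hf0 : ‖f 0‖ ≤ 1) {e : ℂ → ℝ} (he : CircleIntegrable e 0 ρ)
    (he0 : ∀ x ∈ sphere (0 : ℂ) ρ, 0 ≤ e x)
    (hfe : ∀ x ∈ sphere (0 : ℂ) ρ, - e x ≤ Real.log ‖f x‖) {m : ℕ} (hm : 1 ≤ m) :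
    ‖tc (logDeriv f) (m - 1)‖ * ρ ^ m ≤ 4 * m * circleAverage e 0 ρ := by
  have hσ0 : 0 < σ := hρ.trans hσ
  obtain ⟨g, hg, hge, hgd⟩ := exists_log_ball hσ0 hf h0
  have h1 : tc (logDeriv f) (m - 1) = m * tc g m := by
    obtain ⟨k, rfl⟩ := Nat.exists_eq_add_of_le' hm
    rw [Nat.add_sub_cancel, Nat.cast_add, Nat.cast_one, ← tc_deriv]
    apply tc_congr
    filter_upwards [isOpen_ball.mem_nhds (mem_ball_self hσ0)] with x hx
    exact (hgd x hx).symm
  have h2 := tc_re_bound hρ hσ hg hm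
  have hmean := av_re hρ hσ hg
  have hg0 : (g 0).re ≤ 0 := by
    have : Real.log ‖f 0‖ = (g 0).re := log_norm_of_exp (hge 0 (mem_ball_self hσ0))
    rw [← this]
    exact Real.log_nonpos (norm_nonneg _) hf0
  have hgre : ContinuousOn (fun x => (g x).re) (ball 0 σ) :=
    Complex.continuous_re.comp_continuousOn hg.continuousOn
  have hci : CircleIntegrable (fun x => (g x).re) 0 ρ := ci_of_diff hρ hσ hgre
  have h3 : circleAverage (fun x => |(g x).re|) 0 ρ ≤
      circleAverage (fun x => 2 * e x + (g x).re) 0 ρ := by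
    apply Real.circleAverage_mono (ci_of_diff hρ hσ hgre.abs) ((he.const_smul (a := (2 : ℝ))).add hci)
    intro x hx
    rw [abs_of_pos hρ] at hx
    have h4 := hfe x hx
    have h5 := he0 x hx
    have hxb : x ∈ ball (0 : ℂ) σ := by
      rw [mem_sphere_zero_iff_norm] at hx
      rw [mem_ball_zero_iff, hx]
      exact hσ
    rw [log_norm_of_exp (hge x hxb)] at h4
    change |(g x).re| ≤ 2 * e x + (g x).re
    rcases abs_cases (g x).re with ⟨h6, _⟩ | ⟨h6, _⟩ <;> rw [h6] <;> linarith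
  have h4 : circleAverage (fun x => 2 * e x + (g x).re) 0 ρ =
      2 * circleAverage e 0 ρ + (g 0).re := by
    rw [Real.circleAverage_fun_add (f₁ := fun x => 2 * e x) (he.const_smul (a := (2 : ℝ))) hci, hmean]
    congr 1
    exact Real.circleAverage_fun_smul (a := (2 : ℝ))
  rw [h1, norm_mul, Complex.norm_natCast]
  have h5 : (0 : ℝ) ≤ m := Nat.cast_nonneg m
  have h6 : (m : ℝ) * (‖tc g m‖ * ρ ^ m) ≤ m * (4 * circleAverage e 0 ρ) :=
    mul_le_mul_of_nonneg_left (by linarith) h5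
  linarith

/-- Parseval's identity on a circle -/
theorem hasSum_sq_tc {F : ℂ → ℂ} {ρ σ : ℝ} (hρ : 0 < ρ) (hσ : ρ < σ)
    (hF : DifferentiableOn ℂ F (ball 0 σ)) :
    HasSum (fun k : ℕ => ‖tc F k‖ ^ 2 * ρ ^ (2 * k)) (circleAverage (fun x => ‖F x‖ ^ 2) 0 ρ) := by
  have hab : (0 : ℝ) < 2 * Real.pi := by positivity
  have hpi := Real.pi_pos
  have hρC : (ρ : ℂ) ≠ 0 := by exact_mod_cast hρ.ne'
  set f : ℝ → ℂ := fun θ => F (circleMap 0 ρ θ) with hf
  have hfc : Continuous f := by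
    apply hF.continuousOn.comp_continuous (continuous_circleMap 0 ρ)
    intro θ
    rw [mem_ball_zero_iff, norm_circleMap_zero, abs_of_pos hρ]
    exact hσ
  have hL2 : MemLp f 2 (volume.restrict (Ioc 0 (2 * Real.pi))) := by
    obtain ⟨C, hC⟩ := (isCompact_Icc (a := (0 : ℝ)) (b := 2 * Real.pi)).exists_bound_of_continuousOn
      hfc.continuousOn
    refine MemLp.of_bound hfc.aestronglyMeasurable C ?_
    rw [ae_restrict_iff' measurableSet_Ioc]
    exact Filter.Eventually.of_forall fun x hx => hC x (Ioc_subset_Icc_self hx)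
  have hsum := hasSum_sq_fourierCoeffOn hab hL2
  have hgen : ∀ n : ℤ, fourierCoeffOn hab f n =
      circleAverage (fun x => (x / ρ) ^ (-n) * F x) 0 ρ := by
    intro n
    rw [fourierCoeffOn_eq_integral]
    unfold circleAverage
    rw [sub_zero, one_div]
    congr 1
    apply intervalIntegral.integral_congr
    intro θ _
    simp only
    rw [fourier_coe_apply, smul_eq_mul]
    congr 1
    have h6 : circleMap 0 ρ θ = ρ * Complex.exp (θ * I) := by simp [circleMap]
    rw [h6, mul_div_cancel_left₀ _ hρC, ← Complex.exp_int_mul]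
    congr 1
    have : (Real.pi : ℂ) ≠ 0 := by exact_mod_cast hpi.ne'
    push_cast
    field_simp
  have hpos : ∀ k : ℕ, fourierCoeffOn hab f (k : ℤ) = tc F k * ρ ^ k := by
    intro k
    rw [hgen, ← av_div_pow hρ hσ hF k]
    have h1 : (circleAverage (fun x => F x / x ^ k) 0 ρ) * (ρ : ℂ) ^ k =
        circleAverage (fun x => (ρ : ℂ) ^ k • (F x / x ^ k)) 0 ρ := by
      rw [Real.circleAverage_fun_smul, smul_eq_mul, mul_comm]
    rw [h1]
    congr 1
    funext x
    rw [zpow_neg, zpow_natCast, div_pow, smul_eq_mul, inv_div]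
    ring
  have hneg : ∀ n : ℤ, n ∉ Set.range (Nat.cast : ℕ → ℤ) → ‖fourierCoeffOn hab f n‖ ^ 2 = 0 := by
    intro n hn
    have hn0 : n < 0 := by
      by_contra h
      push Not at h
      exact hn ⟨n.toNat, Int.toNat_of_nonneg h⟩
    obtain ⟨j, hj⟩ : ∃ j : ℕ, n = -((j : ℤ) + 1) := ⟨(-n - 1).toNat, by omega⟩
    rw [hgen, hj, neg_neg]
    have h1 : circleAverage (fun x => (x / ρ) ^ ((j : ℤ) + 1) * F x) 0 ρ =
        circleAverage (fun x => ((ρ : ℂ) ^ (j + 1))⁻¹ • (x ^ (j + 1) * F x)) 0 ρ := by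
      congr 1
      funext x
      have : ((j : ℤ) + 1) = ((j + 1 : ℕ) : ℤ) := by push_cast; rfl
      rw [this, zpow_natCast, div_pow, smul_eq_mul]
      ring
    rw [h1, Real.circleAverage_fun_smul, av_mul_pow hρ hσ hF (by omega), smul_zero, norm_zero]
    norm_num
  have h2 := (Function.Injective.hasSum_iff (f := fun i : ℤ => ‖fourierCoeffOn hab f i‖ ^ 2)
    (g := (Nat.cast : ℕ → ℤ)) Nat.cast_injective hneg).2 hsum
  have h3 : ((fun i : ℤ => ‖fourierCoeffOn hab f i‖ ^ 2) ∘ (Nat.cast : ℕ → ℤ)) =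
      fun k : ℕ => ‖tc F k‖ ^ 2 * ρ ^ (2 * k) := by
    funext k
    simp only [Function.comp_apply]
    rw [hpos, norm_mul, norm_pow, Complex.norm_real, Real.norm_eq_abs, abs_of_pos hρ, mul_pow,
      ← pow_mul, mul_comm k 2]
  rw [h3, sub_zero] at h2
  exact h2

end Pool.Agent.TH653.MB
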