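import Mathlib
import Pool.Agent.TH653.MB.A4
import Pool.Agent.H713R2.Main1

set_option autoImplicit false

/-! # Bloch functions with large lacunary coefficients -/

namespace Pool.Agent.TH653.MB

open Complex Set Topology Filter Metric MeasureTheory N62a1eb23 Pool.Agent.H712R2 Pool.Agent.H713R2
open Real (circleAverage)

theorem one_sub_ge_exp {x : ℝ} (h0 : 0 ≤ x) (h1 : x ≤ 1 / 2) : Real.exp (-(2 * x)) ≤ 1 - x := by
  have h2 : 0 < 1 - x := by linarith
  have h3 : (1 - x)⁻¹ ≤ Real.exp (2 * x) := by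
    have h4 : (1 - x)⁻¹ = 1 + x / (1 - x) := by field_simp; ring
    rw [h4]
    have h5 : x / (1 - x) ≤ 2 * x := by
      rw [div_le_iff₀ h2]
      nlinarith
    have h6 := Real.add_one_le_exp (2 * x)
    linarith
  rw [Real.exp_neg]
  rw [inv_le_comm₀ (Real.exp_pos _) h2]
  exact h3

/-- the dyadic block bound -/
theorem block_bound {F : ℂ → ℂ} (hF : DifferentiableOn ℂ F (ball 0 1)) {D : ℝ} (k : ℕ)
    (hD : circleAverage (fun x => ‖x * deriv F x‖ ^ 2) 0 (1 - (1 / 2) ^ (k + 1)) ≤ D * 4 ^ (k + 1)) :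
    ∑ l ∈ Finset.Ico (2 ^ k) (2 ^ (k + 1)), ‖tc F l‖ ^ 2 ≤ 4 * Real.exp 4 * D := by
  obtain ⟨s, hs⟩ : ∃ s : ℝ, s = 1 - (1 / 2) ^ (k + 1) := ⟨_, rfl⟩
  obtain ⟨y, hy⟩ : ∃ y : ℝ, y = (1 / 2) ^ (k + 1) := ⟨_, rfl⟩
  have hy0 : 0 < y := by rw [hy]; positivity
  have hy1 : y ≤ 1 / 2 := by
    rw [hy, pow_succ]
    have : ((1 : ℝ) / 2) ^ k ≤ 1 := pow_le_one₀ (by norm_num) (by norm_num)
    linarith
  rw [← hs] at hD
  rw [← hy] at hs
  have hs0 : 0 < s := by linarith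
  have hs1 : s < 1 := by linarith
  have hxd : DifferentiableOn ℂ (fun x => x * deriv F x) (ball 0 1) :=
    differentiableOn_id.mul (hF.deriv isOpen_ball)
  have hsum := hasSum_sq_tc hs0 hs1 hxd
  have h1 : ∑ l ∈ Finset.Ico (2 ^ k) (2 ^ (k + 1)), ‖tc (fun x => x * deriv F x) l‖ ^ 2 * s ^ (2 * l) ≤
      D * 4 ^ (k + 1) :=
    (sum_le_hasSum _ (fun i _ => by positivity) hsum).trans hD
  have h2 : ∀ l ∈ Finset.Ico (2 ^ k) (2 ^ (k + 1)), ‖tc F l‖ ^ 2 * (4 ^ k * Real.exp (-4)) ≤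
      ‖tc (fun x => x * deriv F x) l‖ ^ 2 * s ^ (2 * l) := by
    intro l hl
    rw [Finset.mem_Ico] at hl
    rw [tc_id_mul_deriv hF, norm_mul, Complex.norm_natCast, mul_pow]
    have h3 : (2 : ℝ) ^ k ≤ l := by exact_mod_cast hl.1
    have h4 : (4 : ℝ) ^ k ≤ (l : ℝ) ^ 2 := by
      have : (4 : ℝ) ^ k = (2 ^ k) ^ 2 := by
        rw [← pow_mul, mul_comm, pow_mul]
        norm_num
      rw [this]
      exact pow_le_pow_left₀ (by positivity) h3 2
    have h5 : Real.exp (-4) ≤ s ^ (2 * l) := by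
      have h6 : Real.exp (-(2 * y)) ≤ s := by rw [hs]; exact one_sub_ge_exp hy0.le hy1
      have h7 : Real.exp (-(2 * y)) ^ (2 * l) ≤ s ^ (2 * l) :=
        pow_le_pow_left₀ (Real.exp_pos _).le h6 _
      refine le_trans ?_ h7
      rw [← Real.exp_nat_mul]
      apply Real.exp_le_exp.2
      have h8 : (l : ℝ) * y ≤ 1 := by
        have h9 : (l : ℝ) ≤ 2 ^ (k + 1) := by exact_mod_cast hl.2.le
        calc (l : ℝ) * y ≤ 2 ^ (k + 1) * y := mul_le_mul_of_nonneg_right h9 hy0.le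
          _ = 1 := by rw [hy, ← mul_pow]; norm_num
      push_cast
      nlinarith
    have h6 : (0 : ℝ) ≤ ‖tc F l‖ ^ 2 := by positivity
    calc ‖tc F l‖ ^ 2 * (4 ^ k * Real.exp (-4)) ≤ ‖tc F l‖ ^ 2 * ((l : ℝ) ^ 2 * s ^ (2 * l)) := by
          apply mul_le_mul_of_nonneg_left _ h6
          exact mul_le_mul h4 h5 (Real.exp_pos _).le (by positivity)
      _ = _ := by ring
  have h3 := (Finset.sum_le_sum h2).trans h1
  rw [← Finset.sum_mul] at h3
  have h4 : (0 : ℝ) < 4 ^ k := by positivity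
  have h5 : Real.exp (-4) = (Real.exp 4)⁻¹ := Real.exp_neg 4
  rw [h5] at h3
  have h6 := Real.exp_pos 4
  rw [← mul_assoc, ← div_eq_mul_inv, div_le_iff₀ h6] at h3
  have h7 : D * 4 ^ (k + 1) * Real.exp 4 = (4 * Real.exp 4 * D) * 4 ^ k := by ring
  rw [h7] at h3
  exact le_of_mul_le_mul_right h3 h4

/-- summing dyadic blocks -/
theorem dyadic_sum {g : ℕ → ℝ} (hg : ∀ l, 0 ≤ g l) (hg0 : g 0 = 0) {D : ℕ → ℝ}
    (hD : ∀ k, ∑ l ∈ Finset.Ico (2 ^ k) (2 ^ (k + 1)), g l ≤ D k) {r : ℝ} (hr : 0 ≤ r) (hr1 : r ≤ 1)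
    {A : ℝ} (h : HasSum (fun l => g l * r ^ (2 * l)) A) {C : ℝ}
    (hC : ∀ K, ∑ k ∈ Finset.range K, D k * r ^ (2 ^ (k + 1)) ≤ C) : A ≤ C := by
  have hbl : ∀ K, ∑ l ∈ Finset.range (2 ^ K), g l * r ^ (2 * l) ≤
      ∑ k ∈ Finset.range K, D k * r ^ (2 ^ (k + 1)) := by
    intro K
    induction K with
    | zero => simp [hg0]
    | succ K ih =>
      rw [Finset.sum_range_succ _ K]
      have h1 : (2 : ℕ) ^ K ≤ 2 ^ (K + 1) := Nat.pow_le_pow_right (by norm_num) (by omega)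
      rw [← Finset.sum_range_add_sum_Ico _ h1]
      have h2 : ∑ l ∈ Finset.Ico (2 ^ K) (2 ^ (K + 1)), g l * r ^ (2 * l) ≤
          ∑ l ∈ Finset.Ico (2 ^ K) (2 ^ (K + 1)), g l * r ^ (2 ^ (K + 1)) := by
        apply Finset.sum_le_sum
        intro l hl
        rw [Finset.mem_Ico] at hl
        apply mul_le_mul_of_nonneg_left _ (hg l)
        apply pow_le_pow_of_le_one hr hr1
        rw [pow_succ]
        omega
      rw [← Finset.sum_mul] at h2
      have h3 := mul_le_mul_of_nonneg_right (hD K) (pow_nonneg hr (2 ^ (K + 1)))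
      linarith
  have h1 : Tendsto (fun K : ℕ => ∑ l ∈ Finset.range (2 ^ K), g l * r ^ (2 * l)) atTop (𝓝 A) :=
    h.tendsto_sum_nat.comp (tendsto_pow_atTop_atTop_of_one_lt (by norm_num : 1 < 2))
  exact le_of_tendsto' h1 fun K => (hbl K).trans (hC K)

theorem exp_neg_pow_le (i : ℕ) : Real.exp (-(2 : ℝ) ^ i) ≤ (1 / 2) ^ i := by
  rw [Real.exp_neg, one_div, inv_pow]
  apply inv_anti₀ (by positivity)
  have := Real.add_one_le_exp ((2 : ℝ) ^ i)
  linarith

/-- the sums over `k` -/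
theorem geo_sum {N : ℕ} {r : ℝ} (hr : 0 ≤ r) (hr1 : r ≤ 1 - (1 / 2) ^ N) (K : ℕ) :
    ∑ k ∈ Finset.range K, ((k : ℝ) + 2) * r ^ (2 ^ (k + 1)) ≤ ((N : ℝ) + 2) * N + 2 * N + 6 := by
  have hrle : r ≤ 1 := by
    have : (0 : ℝ) ≤ (1 / 2) ^ N := by positivity
    linarith
  have hterm : ∀ k : ℕ, r ^ (2 ^ (k + 1)) ≤ if k < N then 1 else (1 / 2) ^ (k + 1 - N) := by
    intro k
    by_cases hk : k < N
    · rw [if_pos hk]
      exact pow_le_one₀ hr hrle
    · rw [if_neg hk]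
      push Not at hk
      have h1 : r ≤ Real.exp (-(1 / 2) ^ N) := by
        have := Real.add_one_le_exp (-((1 : ℝ) / 2) ^ N)
        linarith
      calc r ^ (2 ^ (k + 1)) ≤ Real.exp (-(1 / 2) ^ N) ^ (2 ^ (k + 1)) := pow_le_pow_left₀ hr h1 _
        _ = Real.exp (-(2 : ℝ) ^ (k + 1 - N)) := by
            rw [← Real.exp_nat_mul]
            congr 1
            push_cast
            have : (2 : ℝ) ^ (k + 1) = 2 ^ (k + 1 - N) * 2 ^ N := by
              rw [← pow_add]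
              congr 1
              omega
            rw [this, mul_neg, mul_assoc, ← mul_pow]
            norm_num
        _ ≤ (1 / 2) ^ (k + 1 - N) := exp_neg_pow_le _
  have h1 : ∑ k ∈ Finset.range K, ((k : ℝ) + 2) * r ^ (2 ^ (k + 1)) ≤
      ∑ k ∈ Finset.range (N + K), ((k : ℝ) + 2) * (if k < N then 1 else (1 / 2) ^ (k + 1 - N)) := by
    have h2 : ∑ k ∈ Finset.range K, ((k : ℝ) + 2) * r ^ (2 ^ (k + 1)) ≤
        ∑ k ∈ Finset.range K, ((k : ℝ) + 2) * (if k < N then 1 else (1 / 2) ^ (k + 1 - N)) :=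
      Finset.sum_le_sum fun k _ => mul_le_mul_of_nonneg_left (hterm k) (by positivity)
    refine h2.trans ?_
    apply Finset.sum_le_sum_of_subset_of_nonneg
    · intro k hk
      rw [Finset.mem_range] at hk ⊢
      omega
    · intro k _ _
      split_ifs <;> positivity
  refine h1.trans ?_
  rw [Finset.sum_range_add]
  have h2 : ∑ k ∈ Finset.range N, ((k : ℝ) + 2) * (if k < N then 1 else (1 / 2) ^ (k + 1 - N)) ≤
      ((N : ℝ) + 2) * N := by
    have : ∀ k ∈ Finset.range N, ((k : ℝ) + 2) * (if k < N then 1 else (1 / 2) ^ (k + 1 - N)) ≤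
        (N : ℝ) + 2 := by
      intro k hk
      rw [Finset.mem_range] at hk
      rw [if_pos hk, mul_one]
      have : (k : ℝ) ≤ N := by exact_mod_cast hk.le
      linarith
    have h3 := Finset.sum_le_card_nsmul _ _ _ this
    rw [Finset.card_range, nsmul_eq_mul] at h3
    linarith
  have h3 : ∀ K : ℕ, ∑ x ∈ Finset.range K, (((N + x : ℕ) : ℝ) + 2) *
      (if N + x < N then 1 else (1 / 2) ^ (N + x + 1 - N)) ≤
      2 * N + 6 - (2 * N + 6 + 2 * K) * (1 / 2) ^ K := by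
    intro K
    induction K with
    | zero => simp
    | succ K ih =>
      rw [Finset.sum_range_succ, if_neg (by omega), show N + K + 1 - N = K + 1 by omega, pow_succ]
      have h4 : (0 : ℝ) < (1 / 2) ^ K := by positivity
      have h5 := mul_nonneg (Nat.cast_nonneg (α := ℝ) N) h4.le
      have h6 := mul_nonneg (Nat.cast_nonneg (α := ℝ) K) h4.le
      push_cast at ih ⊢
      generalize ((1 : ℝ) / 2) ^ K = y at *
      nlinarith
  have h4 := h3 K
  have h5 : (0 : ℝ) ≤ (2 * N + 6 + 2 * K) * (1 / 2) ^ K := by positivity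
  linarith

end Pool.Agent.TH653.MB
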