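import Mathlib
import Pool.Agent.TH653.MB.A9

set_option autoImplicit false

/-! # Growth of the integral means of `exp B` for a Bloch function `B` with large lacunary coefficients -/

namespace Pool.Agent.TH653.MB

open Complex Set Topology Filter Metric MeasureTheory N62a1eb23 Pool.Agent.H712R2 Pool.Agent.H713R2
open Real (circleAverage)

theorem geo_sum0 {N : ℕ} {r : ℝ} (hr : 0 ≤ r) (hr1 : r ≤ 1 - (1 / 2) ^ N) (K : ℕ) :
    ∑ k ∈ Finset.range K, r ^ (2 ^ (k + 1)) ≤ (N : ℝ) + 1 := by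
  have hrle : r ≤ 1 := by
    have : (0 : ℝ) ≤ (1 / 2) ^ N := by positivity
    linarith
  have hterm : ∀ k : ℕ, r ^ (2 ^ (k + 1)) ≤ if k < N then 1 else (1 / 2) ^ (k + 1 - N) := by
    intro k
    by_cases hk : k < N
    · rw [if_pos hk]
      exact pow_le_one₀ hr hrle
    · rw [if_neg hk]
      push Not at hk
      have h1 : r ≤ Real.exp (-(1 / 2) ^ N) := by
        have := Real.add_one_le_exp (-((1 : ℝ) / 2) ^ N)
        linarith
      calc r ^ (2 ^ (k + 1)) ≤ Real.exp (-(1 / 2) ^ N) ^ (2 ^ (k + 1)) := pow_le_pow_left₀ hr h1 _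
        _ = Real.exp (-(2 : ℝ) ^ (k + 1 - N)) := by
            rw [← Real.exp_nat_mul]
            congr 1
            push_cast
            have : (2 : ℝ) ^ (k + 1) = 2 ^ (k + 1 - N) * 2 ^ N := by
              rw [← pow_add]
              congr 1
              omega
            rw [this, mul_neg, mul_assoc, ← mul_pow]
            norm_num
        _ ≤ (1 / 2) ^ (k + 1 - N) := exp_neg_pow_le _
  have h1 : ∑ k ∈ Finset.range K, r ^ (2 ^ (k + 1)) ≤
      ∑ k ∈ Finset.range (N + K), (if k < N then (1 : ℝ) else (1 / 2) ^ (k + 1 - N)) := by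
    refine (Finset.sum_le_sum fun k _ => hterm k).trans ?_
    apply Finset.sum_le_sum_of_subset_of_nonneg
    · intro k hk
      rw [Finset.mem_range] at hk ⊢
      omega
    · intro k _ _
      split_ifs <;> positivity
  refine h1.trans ?_
  rw [Finset.sum_range_add]
  have h2 : ∑ k ∈ Finset.range N, (if k < N then (1 : ℝ) else (1 / 2) ^ (k + 1 - N)) = N := by
    rw [Finset.sum_congr rfl (fun k hk => if_pos (Finset.mem_range.1 hk))]
    simp
  have h3 : ∀ K : ℕ, ∑ x ∈ Finset.range K, (if N + x < N then (1 : ℝ) else (1 / 2) ^ (N + x + 1 - N)) =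
      1 - (1 / 2) ^ K := by
    intro K
    induction K with
    | zero => simp
    | succ K ih =>
      rw [Finset.sum_range_succ, ih, if_neg (by omega), show N + K + 1 - N = K + 1 by omega, pow_succ]
      ring
  rw [h2, h3 K]
  have : (0 : ℝ) ≤ (1 / 2) ^ K := by positivity
  linarith

section bloch

variable {B : ℂ → ℂ} {M : ℝ}

/-- the constant for the second moment -/
noncomputable def D2 (M : ℝ) : ℝ := 4 * Real.exp 4 * M ^ 2

/-- the constant for the fourth moment -/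
noncomputable def D4 (M : ℝ) : ℝ := 16 * Real.exp 4 * M ^ 2 * D2 M

theorem D2_nonneg (M : ℝ) : 0 ≤ D2 M := by unfold D2; positivity

theorem D4_nonneg (M : ℝ) : 0 ≤ D4 M := by
  have := D2_nonneg M
  unfold D4; positivity

theorem bloch_sq (hBl : ∀ x ∈ ball (0 : ℂ) 1, ‖x * deriv B x‖ ≤ M / (1 - ‖x‖)) (k : ℕ) {x : ℂ}
    (hx : x ∈ sphere (0 : ℂ) |1 - (1 / 2) ^ (k + 1)|) : ‖x * deriv B x‖ ^ 2 ≤ M ^ 2 * 4 ^ (k + 1) := by
  have hy0 : (0 : ℝ) < (1 / 2) ^ (k + 1) := by positivity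
  have hy1 : ((1 : ℝ) / 2) ^ (k + 1) ≤ 1 := pow_le_one₀ (by norm_num) (by norm_num)
  rw [mem_sphere_zero_iff_norm, abs_of_nonneg (by linarith)] at hx
  have h1 := hBl x (by rw [mem_ball_zero_iff, hx]; linarith)
  rw [hx] at h1
  have h2 : M / (1 - (1 - (1 / 2) ^ (k + 1))) = M * 2 ^ (k + 1) := by
    rw [sub_sub_cancel, div_pow, one_pow]
    field_simp
  rw [h2] at h1
  calc ‖x * deriv B x‖ ^ 2 ≤ (M * 2 ^ (k + 1)) ^ 2 := pow_le_pow_left₀ (norm_nonneg _) h1 2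
    _ = M ^ 2 * 4 ^ (k + 1) := by
        rw [mul_pow, ← pow_mul, mul_comm (k + 1) 2, pow_mul]
        norm_num

theorem radius_mem (k : ℕ) : (0 : ℝ) < 1 - (1 / 2) ^ (k + 1) ∧ (1 : ℝ) - (1 / 2) ^ (k + 1) < 1 := by
  have hy0 : (0 : ℝ) < (1 / 2) ^ (k + 1) := by positivity
  have hy1 : ((1 : ℝ) / 2) ^ (k + 1) < 1 := pow_lt_one₀ (by norm_num) (by norm_num) (by omega)
  constructor <;> linarith

theorem block2 (hB : DifferentiableOn ℂ B (ball 0 1))
    (hBl : ∀ x ∈ ball (0 : ℂ) 1, ‖x * deriv B x‖ ≤ M / (1 - ‖x‖)) (k : ℕ) :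
    ∑ l ∈ Finset.Ico (2 ^ k) (2 ^ (k + 1)), ‖tc B l‖ ^ 2 ≤ D2 M := by
  obtain ⟨h0, h1⟩ := radius_mem k
  have hxd : ContinuousOn (fun x => ‖x * deriv B x‖ ^ 2) (ball 0 1) :=
    ((continuousOn_id.mul (hB.deriv isOpen_ball).continuousOn).norm).pow 2
  exact block_bound hB k (Real.circleAverage_mono_on_of_le_circle (ci_of_diff h0 h1 hxd)
    (fun x hx => bloch_sq hBl k hx))

theorem M2_le (hB : DifferentiableOn ℂ B (ball 0 1)) (hB0 : B 0 = 0)
    (hBl : ∀ x ∈ ball (0 : ℂ) 1, ‖x * deriv B x‖ ≤ M / (1 - ‖x‖)) {N : ℕ} {r : ℝ} (hr : 0 < r)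
    (hr1 : r ≤ 1 - (1 / 2) ^ N) :
    circleAverage (fun x => ‖B x‖ ^ 2) 0 r ≤ D2 M * (N + 1) := by
  have hy0 : (0 : ℝ) < (1 / 2) ^ N := by positivity
  have hrlt : r < 1 := by linarith
  refine dyadic_sum (g := fun l => ‖tc B l‖ ^ 2) (fun l => by positivity) ?_
    (D := fun _ => D2 M) (block2 hB hBl) hr.le hrlt.le (hasSum_sq_tc hr hrlt hB) ?_
  · rw [tc_zero, hB0]
    simp
  · intro K
    rw [← Finset.mul_sum]
    exact mul_le_mul_of_nonneg_left (geo_sum0 hr.le hr1 K) (D2_nonneg M)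

theorem block4 (hB : DifferentiableOn ℂ B (ball 0 1)) (hB0 : B 0 = 0)
    (hBl : ∀ x ∈ ball (0 : ℂ) 1, ‖x * deriv B x‖ ≤ M / (1 - ‖x‖)) (k : ℕ) :
    ∑ l ∈ Finset.Ico (2 ^ k) (2 ^ (k + 1)), ‖tc (fun x => B x ^ 2) l‖ ^ 2 ≤ D4 M * (k + 2) := by
  obtain ⟨h0, h1⟩ := radius_mem k
  have hB2 : DifferentiableOn ℂ (fun x => B x ^ 2) (ball 0 1) := hB.fun_pow 2
  have h2 := M2_le hB hB0 hBl (N := k + 1) h0 le_rfl
  have hc1 : ContinuousOn (fun x => ‖x * deriv (fun x => B x ^ 2) x‖ ^ 2) (ball 0 1) :=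
    ((continuousOn_id.mul (hB2.deriv isOpen_ball).continuousOn).norm).pow 2
  have hc2 : ContinuousOn (fun x => ‖B x‖ ^ 2) (ball 0 1) := (hB.continuousOn.norm).pow 2
  have h3 : circleAverage (fun x => ‖x * deriv (fun x => B x ^ 2) x‖ ^ 2) 0 (1 - (1 / 2) ^ (k + 1)) ≤
      (4 * M ^ 2 * (D2 M * (k + 2))) * 4 ^ (k + 1) := by
    have h4 : circleAverage (fun x => ‖x * deriv (fun x => B x ^ 2) x‖ ^ 2) 0 (1 - (1 / 2) ^ (k + 1)) ≤
        circleAverage (fun x => (4 * (M ^ 2 * 4 ^ (k + 1))) * ‖B x‖ ^ 2) 0 (1 - (1 / 2) ^ (k + 1)) := by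
      apply Real.circleAverage_mono (ci_of_diff h0 h1 hc1)
        ((ci_of_diff h0 h1 hc2).const_smul (a := 4 * (M ^ 2 * 4 ^ (k + 1))))
      intro x hx
      have h5 := bloch_sq hBl k hx
      have hxb : x ∈ ball (0 : ℂ) 1 := by
        rw [mem_sphere_zero_iff_norm, abs_of_pos h0] at hx
        rw [mem_ball_zero_iff, hx]
        exact h1
      have h6 : deriv (fun x => B x ^ 2) x = 2 * B x * deriv B x := by
        have := ((hB.differentiableAt (isOpen_ball.mem_nhds hxb)).hasDerivAt).fun_pow 2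
        rw [this.deriv]
        norm_num
      change ‖x * deriv (fun x => B x ^ 2) x‖ ^ 2 ≤ (4 * (M ^ 2 * 4 ^ (k + 1))) * ‖B x‖ ^ 2
      rw [h6]
      have h7 : x * (2 * B x * deriv B x) = 2 * (B x * (x * deriv B x)) := by ring
      rw [h7, norm_mul, norm_mul, mul_pow, mul_pow]
      have h8 : ‖(2 : ℂ)‖ ^ 2 = 4 := by norm_num
      rw [h8]
      have h9 : (0 : ℝ) ≤ ‖B x‖ ^ 2 := by positivity
      nlinarith [mul_le_mul_of_nonneg_left h5 h9]
    refine h4.trans ?_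
    have h5 : circleAverage (fun x => (4 * (M ^ 2 * 4 ^ (k + 1))) * ‖B x‖ ^ 2) 0 (1 - (1 / 2) ^ (k + 1)) =
        (4 * (M ^ 2 * 4 ^ (k + 1))) * circleAverage (fun x => ‖B x‖ ^ 2) 0 (1 - (1 / 2) ^ (k + 1)) :=
      Real.circleAverage_fun_smul (a := 4 * (M ^ 2 * 4 ^ (k + 1))) (f := fun x => ‖B x‖ ^ 2)
    rw [h5]
    have h6 := mul_le_mul_of_nonneg_left h2 (show (0 : ℝ) ≤ 4 * (M ^ 2 * 4 ^ (k + 1)) by positivity)
    refine h6.trans (le_of_eq ?_)
    push_cast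
    ring
  refine (block_bound hB2 k h3).trans (le_of_eq ?_)
  unfold D4
  ring

theorem M4_le (hB : DifferentiableOn ℂ B (ball 0 1)) (hB0 : B 0 = 0)
    (hBl : ∀ x ∈ ball (0 : ℂ) 1, ‖x * deriv B x‖ ≤ M / (1 - ‖x‖)) {N : ℕ} {r : ℝ} (hr : 0 < r)
    (hr1 : r ≤ 1 - (1 / 2) ^ N) :
    circleAverage (fun x => ‖B x‖ ^ 4) 0 r ≤ D4 M * (((N : ℝ) + 2) * N + 2 * N + 6) := by
  have hy0 : (0 : ℝ) < (1 / 2) ^ N := by positivity
  have hrlt : r < 1 := by linarith
  have hB2 : DifferentiableOn ℂ (fun x => B x ^ 2) (ball 0 1) := hB.fun_pow 2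
  have h1 : (fun x => ‖B x‖ ^ 4) = fun x => ‖B x ^ 2‖ ^ 2 := by
    funext x
    rw [norm_pow, ← pow_mul]
  rw [h1]
  refine dyadic_sum (g := fun l => ‖tc (fun x => B x ^ 2) l‖ ^ 2) (fun l => by positivity) ?_
    (D := fun k => D4 M * (k + 2)) (block4 hB hB0 hBl) hr.le hrlt.le (hasSum_sq_tc hr hrlt hB2) ?_
  · rw [tc_zero, hB0]
    simp
  · intro K
    have h2 := mul_le_mul_of_nonneg_left (geo_sum hr.le hr1 K) (D4_nonneg M)
    refine le_trans (le_of_eq ?_) h2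
    rw [Finset.mul_sum]
    apply Finset.sum_congr rfl
    intro k _
    ring

/-- the lower bound of the second moment -/
theorem M2_ge (hB : DifferentiableOn ℂ B (ball 0 1)) {d : ℕ} (hd : 2 ≤ d) {m : ℕ → ℕ}
    (hmi : Function.Injective m) (hmd : ∀ n, m n ≤ d ^ (n + 1)) {c0 : ℝ} (hc0 : 0 < c0) {n0 : ℕ}
    (hc : ∀ n, n0 ≤ n → c0 ≤ ‖tc B (m n)‖) {r : ℝ} (hr : 1 / 2 ≤ r) (hr1 : r < 1)
    (hlam : 2 * (1 + n0) * Real.log d ≤ Real.log (1 / (1 - r))) :
    c0 ^ 2 * Real.exp (-4) / (2 * Real.log d) * Real.log (1 / (1 - r)) ≤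
      circleAverage (fun x => ‖B x‖ ^ 2) 0 r := by
  have hr0 : 0 < r := by linarith
  have hs := hasSum_sq_tc hr0 hr1 hB
  have hld : 0 < Real.log d := Real.log_pos (by exact_mod_cast (show 1 < d by omega))
  have hd0 : (0 : ℝ) < d := by exact_mod_cast (show 0 < d by omega)
  obtain ⟨lam, hl⟩ : ∃ lam, lam = Real.log (1 / (1 - r)) := ⟨_, rfl⟩
  have h1r : 0 < 1 - r := by linarith
  rw [← hl] at hlam ⊢
  have hlam0 : 0 ≤ lam := le_trans (by positivity) hlam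
  obtain ⟨N, hN⟩ : ∃ N, N = ⌊lam / Real.log d⌋₊ := ⟨_, rfl⟩
  have hN1 : (N : ℝ) ≤ lam / Real.log d := by rw [hN]; exact Nat.floor_le (by positivity)
  have hN2 : lam / Real.log d < N + 1 := by rw [hN]; exact Nat.lt_floor_add_one _
  have hdN : (d : ℝ) ^ N * (1 - r) ≤ 1 := by
    have h1 : (N : ℝ) * Real.log d ≤ lam := by rwa [le_div_iff₀ hld] at hN1
    have h2 : (d : ℝ) ^ N ≤ 1 / (1 - r) := by
      rw [← Real.log_le_log_iff (by positivity) (by positivity), Real.log_pow, ← hl]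
      exact h1
    rwa [le_div_iff₀ h1r] at h2
  have hterm : ∀ n ∈ Finset.Ico n0 N, c0 ^ 2 * Real.exp (-4) ≤ ‖tc B (m n)‖ ^ 2 * r ^ (2 * m n) := by
    intro n hn
    rw [Finset.mem_Ico] at hn
    have h1 : c0 ^ 2 ≤ ‖tc B (m n)‖ ^ 2 := pow_le_pow_left₀ hc0.le (hc n hn.1) 2
    have h2 : Real.exp (-4) ≤ r ^ (2 * m n) := by
      have h3 := one_sub_ge_exp (x := 1 - r) (by linarith) (by linarith)
      rw [sub_sub_cancel] at h3
      have h4 := pow_le_pow_left₀ (Real.exp_pos _).le h3 (2 * m n)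
      refine le_trans ?_ h4
      rw [← Real.exp_nat_mul]
      apply Real.exp_le_exp.2
      have h5 : (m n : ℝ) ≤ (d : ℝ) ^ N := by
        have h6 : m n ≤ d ^ N := (hmd n).trans (Nat.pow_le_pow_right (by omega) (by omega))
        exact_mod_cast h6
      have h7 : (m n : ℝ) * (1 - r) ≤ 1 := (mul_le_mul_of_nonneg_right h5 h1r.le).trans hdN
      push_cast
      nlinarith
    exact mul_le_mul h1 h2 (Real.exp_pos _).le (by positivity)
  have h1 : ((N : ℝ) - n0) * (c0 ^ 2 * Real.exp (-4)) ≤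
      ∑ n ∈ Finset.Ico n0 N, ‖tc B (m n)‖ ^ 2 * r ^ (2 * m n) := by
    have h2 := Finset.card_nsmul_le_sum _ _ _ hterm
    rw [Nat.card_Ico, nsmul_eq_mul] at h2
    refine le_trans ?_ h2
    apply mul_le_mul_of_nonneg_right _ (by positivity)
    have : (N : ℝ) ≤ ((N - n0 : ℕ) : ℝ) + n0 := by
      have : N ≤ N - n0 + n0 := by omega
      exact_mod_cast this
    linarith
  have h2 : ∑ n ∈ Finset.Ico n0 N, ‖tc B (m n)‖ ^ 2 * r ^ (2 * m n) ≤
      circleAverage (fun x => ‖B x‖ ^ 2) 0 r := by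
    have h3 := sum_le_hasSum ((Finset.Ico n0 N).map ⟨m, hmi⟩) (fun i _ => by positivity) hs
    rw [Finset.sum_map] at h3
    exact h3
  refine le_trans ?_ (h1.trans h2)
  have h3 : lam / (2 * Real.log d) ≤ (N : ℝ) - n0 := by
    have h4 : lam / Real.log d - 1 - n0 ≤ (N : ℝ) - n0 := by linarith
    have h5 : lam / (2 * Real.log d) ≤ lam / Real.log d - 1 - n0 := by
      have h6 : lam / (2 * Real.log d) = (lam / Real.log d) / 2 := by field_simp
      have h7 : 2 * (1 + (n0 : ℝ)) ≤ lam / Real.log d := by rwa [le_div_iff₀ hld]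
      rw [h6]
      linarith
    linarith
  calc c0 ^ 2 * Real.exp (-4) / (2 * Real.log d) * lam =
      lam / (2 * Real.log d) * (c0 ^ 2 * Real.exp (-4)) := by ring
    _ ≤ _ := mul_le_mul_of_nonneg_right h3 (by positivity)

end bloch

end Pool.Agent.TH653.MB
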