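import Mathlib
import Pool.Agent.TH653.MB.A10

set_option autoImplicit false

/-! # Exponential means -/

namespace Pool.Agent.TH653.MB

open Complex Set Topology Filter Metric MeasureTheory N62a1eb23 Pool.Agent.H712R2 Pool.Agent.H713R2
open Real (circleAverage)

theorem av_smul (a : ℝ) (f : ℂ → ℝ) (r : ℝ) :
    circleAverage (fun x => a * f x) 0 r = a * circleAverage f 0 r :=
  Real.circleAverage_fun_smul (a := a) (f := f)

/-- lower bound of the first moment by the second and the fourth -/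
theorem first_moment {f : ℂ → ℝ} {r lam c1 C2 : ℝ} (hf : ContinuousOn f (sphere (0 : ℂ) |r|))
    (hc1 : 0 < c1) (hC2 : 0 < C2) (hlam : 0 < lam)
    (h2 : c1 * lam ≤ circleAverage (fun x => f x ^ 2) 0 r)
    (h4 : circleAverage (fun x => f x ^ 4) 0 r ≤ C2 * lam ^ 2) :
    c1 / (2 * Real.sqrt (2 * C2 / c1)) * Real.sqrt lam ≤ circleAverage (fun x => |f x|) 0 r := by
  obtain ⟨K, hK⟩ : ∃ K, K = Real.sqrt (2 * C2 / c1) := ⟨_, rfl⟩
  have hK0 : 0 < K := by rw [hK]; exact Real.sqrt_pos.2 (by positivity)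
  have hK2 : K ^ 2 = 2 * C2 / c1 := by rw [hK]; exact Real.sq_sqrt (by positivity)
  obtain ⟨s, hs⟩ : ∃ s, s = Real.sqrt lam := ⟨_, rfl⟩
  have hs0 : 0 < s := by rw [hs]; exact Real.sqrt_pos.2 hlam
  have hs2 : s ^ 2 = lam := by rw [hs]; exact Real.sq_sqrt hlam.le
  rw [← hK, ← hs]
  obtain ⟨T, hT⟩ : ∃ T, T = K * s := ⟨_, rfl⟩
  have hT0 : 0 < T := by rw [hT]; positivity
  have hT2 : T ^ 2 = 2 * C2 / c1 * lam := by rw [hT, mul_pow, hK2, hs2]
  have i1 : CircleIntegrable (fun x => T⁻¹ * f x ^ 2) 0 r :=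
    ContinuousOn.circleIntegrable' (continuousOn_const.mul (hf.pow 2))
  have i2 : CircleIntegrable (fun x => (T ^ 3)⁻¹ * f x ^ 4) 0 r :=
    ContinuousOn.circleIntegrable' (continuousOn_const.mul (hf.pow 4))
  have h5 : circleAverage (fun x => T⁻¹ * f x ^ 2 - (T ^ 3)⁻¹ * f x ^ 4) 0 r ≤
      circleAverage (fun x => |f x|) 0 r := by
    apply Real.circleAverage_mono (i1.sub i2) (ContinuousOn.circleIntegrable' hf.abs)
    intro x _
    change T⁻¹ * f x ^ 2 - (T ^ 3)⁻¹ * f x ^ 4 ≤ |f x|
    obtain ⟨y, hy⟩ : ∃ y, y = |f x| := ⟨_, rfl⟩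
    have hy0 : 0 ≤ y := by rw [hy]; exact abs_nonneg _
    have hy2 : f x ^ 2 = y ^ 2 := by rw [hy, sq_abs]
    have hy4 : f x ^ 4 = y ^ 4 := by
      calc f x ^ 4 = (f x ^ 2) ^ 2 := by ring
        _ = y ^ 4 := by rw [hy2]; ring
    rw [hy2, hy4, ← hy]
    have e : T⁻¹ * y ^ 2 - (T ^ 3)⁻¹ * y ^ 4 = (T ^ 3)⁻¹ * (y ^ 2 * (T ^ 2 - y ^ 2)) := by
      field_simp
    rw [e]
    rcases le_or_gt y T with h | h
    · have h6 : y ^ 2 * (T ^ 2 - y ^ 2) ≤ y * T ^ 3 := by
        have : 0 ≤ y * (T ^ 3 - y * (T ^ 2 - y ^ 2)) := by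
          apply mul_nonneg hy0
          have h7 : y * (T ^ 2 - y ^ 2) ≤ T * T ^ 2 := by
            apply mul_le_mul h _ _ hT0.le
            · nlinarith
            · nlinarith
          nlinarith
        nlinarith
      rw [inv_mul_le_iff₀ (by positivity)]
      linarith
    · have h6 : y ^ 2 * (T ^ 2 - y ^ 2) ≤ 0 := by
        apply mul_nonpos_of_nonneg_of_nonpos (by positivity)
        nlinarith
      have : (T ^ 3)⁻¹ * (y ^ 2 * (T ^ 2 - y ^ 2)) ≤ 0 :=
        mul_nonpos_of_nonneg_of_nonpos (by positivity) h6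
      linarith
  rw [Real.circleAverage_fun_sub i1 i2, av_smul T⁻¹ (fun x => f x ^ 2),
    av_smul (T ^ 3)⁻¹ (fun x => f x ^ 4)] at h5
  refine le_trans ?_ h5
  have h6 := mul_le_mul_of_nonneg_left h2 (show (0 : ℝ) ≤ T⁻¹ by positivity)
  have h7 := mul_le_mul_of_nonneg_left h4 (show (0 : ℝ) ≤ (T ^ 3)⁻¹ by positivity)
  have h8 : (T ^ 3)⁻¹ * (C2 * lam ^ 2) = T⁻¹ * (c1 * lam) / 2 := by
    have : T ^ 3 = T * (2 * C2 / c1 * lam) := by rw [← hT2]; ring
    rw [this]
    field_simp
  have h9 : T⁻¹ * (c1 * lam) / 2 = c1 / (2 * K) * s := by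
    rw [hT, ← hs2]
    field_simp
  linarith

/-- exponential means from the first moment -/
theorem exp_mean {f : ℂ → ℝ} {r : ℝ} (hf : ContinuousOn f (sphere (0 : ℂ) |r|))
    (h0 : circleAverage f 0 r = 0) (p : ℝ) :
    1 / 2 * Real.exp (|p| * circleAverage (fun x => |f x|) 0 r / 2) ≤
      circleAverage (fun x => Real.exp (p * f x)) 0 r := by
  obtain ⟨y, hy⟩ : ∃ y, y = |p| * circleAverage (fun x => |f x|) 0 r / 2 := ⟨_, rfl⟩
  rw [← hy]
  have ci : CircleIntegrable f 0 r := ContinuousOn.circleIntegrable' hf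
  have ce : CircleIntegrable (fun x => Real.exp (p * f x)) 0 r :=
    ContinuousOn.circleIntegrable' (Real.continuous_exp.comp_continuousOn (continuousOn_const.mul hf))
  have ca : CircleIntegrable (fun x => |f x|) 0 r := ContinuousOn.circleIntegrable' hf.abs
  -- the mean is at least one
  have h1 : 1 ≤ circleAverage (fun x => Real.exp (p * f x)) 0 r := by
    have h2 : circleAverage (fun x => 1 + p * f x) 0 r ≤
        circleAverage (fun x => Real.exp (p * f x)) 0 r := by
      apply Real.circleAverage_mono ((circleIntegrable_const _ _ _).add (ci.const_smul (a := p))) ce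
      intro x _
      change 1 + p * f x ≤ Real.exp (p * f x)
      have := Real.add_one_le_exp (p * f x)
      linarith
    rw [Real.circleAverage_fun_add (f₁ := fun _ => (1 : ℝ)) (f₂ := fun x => p * f x)
      (circleIntegrable_const _ _ _) (ci.const_smul (a := p)), Real.circleAverage_const, av_smul, h0] at h2
    linarith
  have h2 : Real.exp y - 1 ≤ circleAverage (fun x => Real.exp (p * f x)) 0 r := by
    have h3 : circleAverage (fun x => (Real.exp y * (1 - y) - 1) +
        ((Real.exp y * |p| / 2) * |f x| + (Real.exp y * p / 2) * f x)) 0 r ≤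
        circleAverage (fun x => Real.exp (p * f x)) 0 r := by
      apply Real.circleAverage_mono _ ce
      · intro x _
        change (Real.exp y * (1 - y) - 1) +
          ((Real.exp y * |p| / 2) * |f x| + (Real.exp y * p / 2) * f x) ≤ Real.exp (p * f x)
        obtain ⟨g, hg⟩ : ∃ g, g = (|p * f x| + p * f x) / 2 := ⟨_, rfl⟩
        have e1 : (Real.exp y * (1 - y) - 1) +
            ((Real.exp y * |p| / 2) * |f x| + (Real.exp y * p / 2) * f x) =
            Real.exp y * (g - y + 1) - 1 := by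
          rw [hg, abs_mul]
          ring
        rw [e1]
        have e2 : Real.exp y * (g - y + 1) ≤ Real.exp g := by
          have e3 := mul_le_mul_of_nonneg_left (Real.add_one_le_exp (g - y)) (Real.exp_pos y).le
          rw [← Real.exp_add] at e3
          have e4 : y + (g - y) = g := by ring
          rwa [e4] at e3
        have e3 : Real.exp g - 1 ≤ Real.exp (p * f x) := by
          rcases le_or_gt 0 (p * f x) with h | h
          · have : g = p * f x := by rw [hg, abs_of_nonneg h]; ring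
            rw [this]
            linarith
          · have : g = 0 := by rw [hg, abs_of_neg h]; ring
            rw [this, Real.exp_zero]
            have := Real.exp_pos (p * f x)
            linarith
        linarith
      · exact (circleIntegrable_const _ _ _).add ((ca.const_smul (a := Real.exp y * |p| / 2)).add
          (ci.const_smul (a := Real.exp y * p / 2)))
    rw [Real.circleAverage_fun_add (f₁ := fun _ => (Real.exp y * (1 - y) - 1))
      (f₂ := fun x => (Real.exp y * |p| / 2) * |f x| + (Real.exp y * p / 2) * f x)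
      (circleIntegrable_const _ _ _) ((ca.const_smul (a := Real.exp y * |p| / 2)).add
          (ci.const_smul (a := Real.exp y * p / 2))), Real.circleAverage_const,
      Real.circleAverage_fun_add (f₁ := fun x => (Real.exp y * |p| / 2) * |f x|)
      (f₂ := fun x => (Real.exp y * p / 2) * f x) (ca.const_smul (a := Real.exp y * |p| / 2))
      (ci.const_smul (a := Real.exp y * p / 2)), av_smul _ (fun x => |f x|), av_smul, h0] at h3
    have h4 : Real.exp y * |p| / 2 * circleAverage (fun x => |f x|) 0 r = Real.exp y * y := by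
      rw [hy]
      ring
    rw [h4] at h3
    linarith
  rcases le_or_gt (Real.exp y) 2 with h | h
  · linarith
  · linarith

theorem bloch_growth (M : ℝ) {d : ℕ} (hd : 2 ≤ d) {m : ℕ → ℕ}
    (hmi : Function.Injective m) (hmd : ∀ n, m n ≤ d ^ (n + 1)) {c0 : ℝ} (hc0 : 0 < c0) (n0 : ℕ) :
    ∃ c r0 : ℝ, 0 < c ∧ 1 / 2 ≤ r0 ∧ r0 < 1 ∧ ∀ B : ℂ → ℂ, DifferentiableOn ℂ B (ball 0 1) →
      B 0 = 0 → (∀ x ∈ ball (0 : ℂ) 1, ‖x * deriv B x‖ ≤ M / (1 - ‖x‖)) →
      (∀ n, n0 ≤ n → c0 ≤ ‖tc B (m n)‖) → ∀ r, r0 < r → r < 1 →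
      c * Real.log (1 / (1 - r)) ≤ circleAverage (fun x => ‖B x‖ ^ 2) 0 r ∧ ∀ p : ℝ,
      1 / 2 * Real.exp (c * |p| * Real.sqrt (Real.log (1 / (1 - r)))) ≤
        circleAverage (fun x => Real.exp (p * (B x).re)) 0 r := by
  have hld : 0 < Real.log d := Real.log_pos (by exact_mod_cast (show 1 < d by omega))
  obtain ⟨c3, hc3⟩ : ∃ c3, c3 = c0 ^ 2 * Real.exp (-4) / (2 * Real.log d) := ⟨_, rfl⟩
  have hc30 : 0 < c3 := by rw [hc3]; positivity
  obtain ⟨C2, hC2⟩ : ∃ C2, C2 = 27 * D4 M + 1 := ⟨_, rfl⟩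
  have hD4 := D4_nonneg M
  have hC20 : 0 < C2 := by rw [hC2]; linarith
  obtain ⟨c5, hc5⟩ : ∃ c5, c5 = c3 / 2 / (2 * Real.sqrt (2 * C2 / (c3 / 2))) := ⟨_, rfl⟩
  have hc50 : 0 < c5 := by
    rw [hc5]
    have : 0 < Real.sqrt (2 * C2 / (c3 / 2)) := Real.sqrt_pos.2 (by positivity)
    positivity
  obtain ⟨L, hL⟩ : ∃ L, L = max 1 (2 * (1 + n0) * Real.log d) := ⟨_, rfl⟩
  refine ⟨min c3 (c5 / 2), 1 - Real.exp (-L) / 2, lt_min hc30 (by positivity), ?_, ?_, ?_⟩
  · have : Real.exp (-L) ≤ 1 := by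
      rw [Real.exp_le_one_iff]
      have : 1 ≤ L := by rw [hL]; exact le_max_left _ _
      linarith
    linarith
  · have := Real.exp_pos (-L)
    linarith
  · intro B hB hB0 hBl hc r hr0 hr1
    have hexp1 : Real.exp (-L) ≤ 1 := by
      rw [Real.exp_le_one_iff]
      have : 1 ≤ L := by rw [hL]; exact le_max_left _ _
      linarith
    have hr12 : 1 / 2 ≤ r := by linarith
    have hrpos : 0 < r := by linarith
    have h1r : 0 < 1 - r := by linarith
    obtain ⟨lam, hl⟩ : ∃ lam, lam = Real.log (1 / (1 - r)) := ⟨_, rfl⟩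
    have hLlam : L ≤ lam := by
      rw [hl, Real.le_log_iff_exp_le (by positivity), le_div_iff₀ h1r]
      have h2 : Real.exp L * (1 - r) ≤ Real.exp L * Real.exp (-L) :=
        mul_le_mul_of_nonneg_left (by have := Real.exp_pos (-L); linarith) (Real.exp_pos L).le
      rwa [← Real.exp_add, add_neg_cancel, Real.exp_zero] at h2
    have hlam1 : 1 ≤ lam := le_trans (by rw [hL]; exact le_max_left _ _) hLlam
    have hlam2 : 2 * (1 + n0) * Real.log d ≤ lam := le_trans (by rw [hL]; exact le_max_right _ _) hLlam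
    have hM2 := M2_ge hB hd hmi hmd hc0 hc hr12 hr1 (by rw [← hl]; exact hlam2)
    rw [← hl, ← hc3] at hM2
    rw [← hl]
    -- the fourth moment
    obtain ⟨N, hN⟩ : ∃ N, N = ⌈lam / Real.log 2⌉₊ := ⟨_, rfl⟩
    have hl2 : 0 < Real.log 2 := Real.log_pos (by norm_num)
    have hN1 : lam / Real.log 2 ≤ N := by rw [hN]; exact Nat.le_ceil _
    have hN2 : (N : ℝ) ≤ 3 * lam := by
      have h2 : (N : ℝ) < lam / Real.log 2 + 1 := by rw [hN]; exact Nat.ceil_lt_add_one (by positivity)
      have h3 : lam / Real.log 2 ≤ 2 * lam := by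
        rw [div_le_iff₀ hl2]
        have := Real.log_two_gt_d9
        nlinarith
      linarith
    have hrN : r ≤ 1 - (1 / 2) ^ N := by
      have h2 : lam ≤ N * Real.log 2 := by rwa [div_le_iff₀ hl2] at hN1
      have h3 : 1 / (1 - r) ≤ 2 ^ N := by
        rw [← Real.log_le_log_iff (by positivity) (by positivity), Real.log_pow, ← hl]
        exact h2
      have h4 : ((1 : ℝ) / 2) ^ N ≤ 1 - r := by
        rw [div_pow, one_pow]
        rwa [one_div_le (by positivity) h1r]
      linarith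
    have hM4 := M4_le hB hB0 hBl hrpos hrN
    have hM4' : circleAverage (fun x => ‖B x‖ ^ 4) 0 r ≤ C2 * lam ^ 2 := by
      refine hM4.trans ?_
      have h2 : ((N : ℝ) + 2) * N + 2 * N + 6 ≤ 27 * lam ^ 2 := by
        have hN0 : (0 : ℝ) ≤ N := Nat.cast_nonneg N
        nlinarith
      have h3 := mul_le_mul_of_nonneg_left h2 hD4
      rw [hC2]
      nlinarith [sq_nonneg lam]
    -- the real part
    have hsub : sphere (0 : ℂ) |r| ⊆ ball 0 1 := by
      intro x hx
      rw [mem_sphere_zero_iff_norm, abs_of_pos hrpos] at hx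
      rw [mem_ball_zero_iff, hx]
      exact hr1
    have hBc : ContinuousOn B (sphere (0 : ℂ) |r|) := hB.continuousOn.mono hsub
    have hfc : ContinuousOn (fun x => (B x).re) (sphere (0 : ℂ) |r|) :=
      Complex.continuous_re.comp_continuousOn hBc
    have hmean : circleAverage (fun x => (B x).re) 0 r = 0 := by
      rw [av_re hrpos hr1 hB, hB0]
      rfl
    have hB2 : DifferentiableOn ℂ (fun x => B x ^ 2) (ball 0 1) := hB.fun_pow 2
    have hmean2 : circleAverage (fun x => (B x ^ 2).re) 0 r = 0 := by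
      rw [av_re hrpos hr1 hB2, hB0]
      simp
    have hsecond : c3 / 2 * lam ≤ circleAverage (fun x => (B x).re ^ 2) 0 r := by
      have h2 : (fun x => (B x).re ^ 2) = fun x => 1 / 2 * ‖B x‖ ^ 2 + 1 / 2 * (B x ^ 2).re := by
        funext x
        rw [Complex.sq_norm, Complex.normSq_apply, sq (B x), Complex.mul_re]
        ring
      have c1 : CircleIntegrable (fun x => 1 / 2 * ‖B x‖ ^ 2) 0 r :=
        ContinuousOn.circleIntegrable' (continuousOn_const.mul (hBc.norm.pow 2))
      have c2 : CircleIntegrable (fun x => 1 / 2 * (B x ^ 2).re) 0 r :=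
        ContinuousOn.circleIntegrable' (continuousOn_const.mul
          (Complex.continuous_re.comp_continuousOn (hBc.pow 2)))
      rw [h2, Real.circleAverage_fun_add c1 c2, av_smul _ (fun x => ‖B x‖ ^ 2),
        av_smul _ (fun x => (B x ^ 2).re), hmean2]
      linarith
    have hfourth : circleAverage (fun x => (B x).re ^ 4) 0 r ≤ C2 * lam ^ 2 := by
      refine le_trans ?_ hM4'
      apply Real.circleAverage_mono (ContinuousOn.circleIntegrable' (hfc.pow 4))
        (ContinuousOn.circleIntegrable' (hBc.norm.pow 4))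
      intro x _
      change (B x).re ^ 4 ≤ ‖B x‖ ^ 4
      have h2 : (B x).re ^ 4 = |(B x).re| ^ 4 := by
        rw [← abs_pow]
        exact (abs_of_nonneg (by positivity)).symm
      rw [h2]
      exact pow_le_pow_left₀ (abs_nonneg _) (Complex.abs_re_le_norm _) 4
    have hfirst := first_moment hfc (by positivity : 0 < c3 / 2) hC20 (by linarith : 0 < lam)
      hsecond hfourth
    rw [← hc5] at hfirst
    refine ⟨?_, fun p => ?_⟩
    · refine le_trans ?_ hM2
      exact mul_le_mul_of_nonneg_right (min_le_left _ _) (by linarith)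
    · refine le_trans ?_ (exp_mean hfc hmean p)
      apply mul_le_mul_of_nonneg_left _ (by norm_num)
      apply Real.exp_le_exp.2
      have hsq : 0 ≤ Real.sqrt lam := Real.sqrt_nonneg _
      have h2 : min c3 (c5 / 2) ≤ c5 / 2 := min_le_right _ _
      calc min c3 (c5 / 2) * |p| * Real.sqrt lam ≤ (c5 / 2) * |p| * Real.sqrt lam := by
            gcongr
        _ = |p| * (c5 * Real.sqrt lam) / 2 := by ring
        _ ≤ |p| * circleAverage (fun x => |(B x).re|) 0 r / 2 := by
            gcongr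

end Pool.Agent.TH653.MB
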