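import Mathlib
import Pool.Agent.TH653.MB.A2

set_option autoImplicit false

/-! # Exact coefficients -/

namespace Pool.Agent.TH653.MB

open Complex Set Topology Filter Metric MeasureTheory N62a1eb23 Pool.Agent.H712R2 Pool.Agent.H713R2

variable {d : ℕ} {β : ℂ → ℂ}

theorem pow_sub_one_le {v : ℂ} (hv : ‖v‖ ≤ 2) (k : ℕ) : ‖v ^ k - 1‖ ≤ k * 2 ^ k * ‖v - 1‖ := by
  induction k with
  | zero => simp
  | succ k ih =>
    have h1 : v ^ (k + 1) - 1 = v * (v ^ k - 1) + (v - 1) := by ring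
    rw [h1]
    have h2 : ‖v * (v ^ k - 1)‖ ≤ 2 * (k * 2 ^ k * ‖v - 1‖) := by
      rw [norm_mul]
      exact mul_le_mul hv ih (norm_nonneg _) (by norm_num)
    have h3 := norm_add_le (v * (v ^ k - 1)) (v - 1)
    have h4 : (1 : ℝ) ≤ 2 ^ (k + 1) := one_le_pow₀ (by norm_num)
    have h5 := mul_le_mul_of_nonneg_right h4 (norm_nonneg (v - 1))
    have h6 : (((k + 1 : ℕ) : ℝ)) * 2 ^ (k + 1) * ‖v - 1‖ =
        2 * (k * 2 ^ k * ‖v - 1‖) + 2 ^ (k + 1) * ‖v - 1‖ := by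
      push_cast
      ring
    rw [h6]
    linarith

theorem coef_top (hd : 2 ≤ d) (hβ : IsBeta d β) (t : ℂ) {n : ℕ} (hn : 1 ≤ n) :
    tc (LL β t) ((d - 1) * d ^ n - 1) = - (P d (n + 1) t) ^ (d - 1) := by
  have hdn : 2 ≤ d ^ n := by
    calc 2 ≤ d := hd
      _ = d ^ 1 := (pow_one d).symm
      _ ≤ d ^ n := Nat.pow_le_pow_right (by omega) hn
  obtain ⟨e, he⟩ : ∃ e, d = e + 2 := Nat.exists_eq_add_of_le' hd
  have hm : 1 ≤ (d - 1) * d ^ n := Nat.mul_pos (by omega) (by omega)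
  have hK : (d - 1) * d ^ n + 1 ≤ d ^ (n + 1) - 1 := by
    have h1 : d ^ (n + 1) = (d - 1) * d ^ n + d ^ n := by
      have : d = (d - 1) + 1 := by omega
      conv_lhs => rw [pow_succ, mul_comm, this, add_mul, one_mul]
      rw [← this]
    omega
  have h := coef_all hβ t (G := (PP d (n + 1)) ^ (d - 1)) hm (H := fun x => (BB d β n x) ^ (d - 1))
    ((BB_diff hβ.diff n).pow _) (by
      intro x _ hx0
      rw [BB_eq hd β n x hx0, mul_pow, ← pow_mul, mul_comm (d ^ n), Polynomial.eval_pow, eval_PP])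
    (C := ((d - 1 : ℕ) : ℝ) * 2 ^ (d - 1) * 3) (by
      intro x hx
      have h1 := pow_sub_one_le (AR.BB_le_two hd hβ n hx) (d - 1)
      have h2 := BB_sub_one_le hd hβ n hx
      have h3 : ‖x‖ ^ (d ^ (n + 1) - 1) ≤ ‖x‖ ^ ((d - 1) * d ^ n + 1) := by
        rw [mem_ball_zero_iff] at hx
        exact pow_le_pow_of_le_one (norm_nonneg _) hx.le hK
      calc ‖(BB d β n x) ^ (d - 1) - 1‖ ≤ ((d - 1 : ℕ) : ℝ) * 2 ^ (d - 1) * ‖BB d β n x - 1‖ := h1
        _ ≤ ((d - 1 : ℕ) : ℝ) * 2 ^ (d - 1) * (3 * ‖x‖ ^ ((d - 1) * d ^ n + 1)) := by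
            apply mul_le_mul_of_nonneg_left _ (by positivity)
            linarith
        _ = _ := by ring)
  rw [h, Polynomial.eval_pow, eval_PP]

theorem pow_taylor (k : ℕ) : ∃ c : ℝ, 0 ≤ c ∧ ∀ γ : ℂ, ‖γ‖ ≤ 3 →
    ‖(1 + γ) ^ k - 1 - k * γ‖ ≤ c * ‖γ‖ ^ 2 := by
  induction k with
  | zero => exact ⟨0, le_rfl, fun γ _ => by simp⟩
  | succ k ih =>
    obtain ⟨c, hc, h⟩ := ih
    refine ⟨4 * c + k, by positivity, fun γ hγ => ?_⟩
    have h1 : (1 + γ) ^ (k + 1) - 1 - ((k + 1 : ℕ) : ℂ) * γ =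
        (1 + γ) * ((1 + γ) ^ k - 1 - k * γ) + k * γ ^ 2 := by
      push_cast
      ring
    rw [h1]
    refine (norm_add_le _ _).trans ?_
    rw [norm_mul, norm_mul, norm_pow, Complex.norm_natCast]
    have h2 : ‖1 + γ‖ ≤ 4 := by
      have := norm_add_le (1 : ℂ) γ
      rw [norm_one] at this
      linarith
    have h3 : ‖1 + γ‖ * ‖(1 + γ) ^ k - 1 - k * γ‖ ≤ 4 * (c * ‖γ‖ ^ 2) :=
      mul_le_mul h2 (h γ hγ) (norm_nonneg _) (by norm_num)
    linarith [h3]

theorem coef_base (hd : 2 ≤ d) (hβ : IsBeta d β) (t : ℂ) :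
    tc (LL β t) (d - 1 - 1) = - (t ^ (d - 1) + ((d - 1 : ℕ) : ℂ) / d) := by
  have hdC : (d : ℂ) ≠ 0 := by
    have : d ≠ 0 := by omega
    exact_mod_cast this
  obtain ⟨c1, hc1, ht1⟩ := pow_taylor d
  obtain ⟨c2, hc2, ht2⟩ := pow_taylor (d - 1)
  have hd1 : ‖((d - 1 : ℕ) : ℂ) / d‖ ≤ 1 := by
    rw [norm_div, Complex.norm_natCast, Complex.norm_natCast,
      div_le_one (by exact_mod_cast (show 0 < d by omega))]
    exact_mod_cast (show d - 1 ≤ d by omega)
  have h := coef_all hβ t (G := Polynomial.X ^ (d - 1) + Polynomial.C (((d - 1 : ℕ) : ℂ) / d))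
    (m := d - 1) (by omega) (H := fun x => β x ^ (d - 1) + ((d - 1 : ℕ) : ℂ) / d * x ^ (d - 1))
    ((hβ.diff.pow _).add (by fun_prop)) (by
      intro x _ hx0
      simp only [Polynomial.eval_add, Polynomial.eval_pow, Polynomial.eval_X, Polynomial.eval_C]
      rw [mul_pow, inv_pow, mul_add]
      have := pow_ne_zero (d - 1) hx0
      field_simp)
    (C := 3 + 3 + 9 * c1 + 9 * c2) (by
      intro x hx
      have hx1 : ‖x‖ ≤ 1 := by rw [mem_ball_zero_iff] at hx; exact hx.le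
      obtain ⟨γ, hγ⟩ : ∃ γ, γ = β x - 1 := ⟨_, rfl⟩
      have hβγ : β x = 1 + γ := by rw [hγ]; ring
      have hγ1 : ‖γ‖ ≤ 3 * ‖x‖ ^ (d - 1) := by
        have := BB_sub_one_le hd hβ 0 hx
        rw [zero_add, pow_one] at this
        rw [hγ]
        exact this
      have hxd : ‖x‖ ^ (d - 1) ≤ 1 := pow_le_one₀ (norm_nonneg _) hx1
      have hγ3 : ‖γ‖ ≤ 3 := by linarith
      have hV := BB_sub_one_le hd hβ 1 hx
      obtain ⟨v, hv⟩ : ∃ v, v = BB d β 1 x - 1 := ⟨_, rfl⟩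
      rw [← hv] at hV
      have hv2 : v = (1 + γ) ^ d + x ^ (d - 1) * (1 + γ) - 1 := by
        rw [hv, BB_succ, BB_zero, hβγ, zero_add, pow_one]
      have e1 := ht1 γ hγ3
      have e2 := ht2 γ hγ3
      obtain ⟨E1, hE1⟩ : ∃ E1, E1 = (1 + γ) ^ d - 1 - d * γ := ⟨_, rfl⟩
      obtain ⟨E2, hE2⟩ : ∃ E2, E2 = (1 + γ) ^ (d - 1) - 1 - ((d - 1 : ℕ) : ℂ) * γ := ⟨_, rfl⟩
      rw [← hE1] at e1
      rw [← hE2] at e2
      have hid : β x ^ (d - 1) + ((d - 1 : ℕ) : ℂ) / d * x ^ (d - 1) - 1 =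
          ((d - 1 : ℕ) : ℂ) / d * (v - x ^ (d - 1) * γ - E1) + E2 := by
        rw [hβγ, hv2, hE1, hE2]
        field_simp
        ring
      rw [hid]
      have hd2 : ‖x‖ ^ (2 * (d - 1)) ≤ ‖x‖ ^ (d - 1 + 1) :=
        pow_le_pow_of_le_one (norm_nonneg _) hx1 (by omega)
      have hd3 : ‖x‖ ^ (d ^ (1 + 1) - 1) ≤ ‖x‖ ^ (d - 1 + 1) := by
        apply pow_le_pow_of_le_one (norm_nonneg _) hx1
        have h : d ^ (1 + 1) = d * d := by ring
        have : d + d ≤ d ^ (1 + 1) := by rw [h]; nlinarith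
        omega
      obtain ⟨X, hX⟩ : ∃ X, X = ‖x‖ ^ (d - 1 + 1) := ⟨_, rfl⟩
      rw [← hX] at hd2 hd3 ⊢
      have hX0 : 0 ≤ X := by rw [hX]; positivity
      have hsq : ‖γ‖ ^ 2 ≤ 9 * X := by
        have : ‖γ‖ ^ 2 ≤ (3 * ‖x‖ ^ (d - 1)) ^ 2 := pow_le_pow_left₀ (norm_nonneg _) hγ1 2
        have h9 : (3 * ‖x‖ ^ (d - 1)) ^ 2 = 9 * ‖x‖ ^ (2 * (d - 1)) := by
          rw [mul_pow, ← pow_mul, mul_comm (d - 1) 2]
          norm_num
        rw [h9] at this
        linarith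
      have f1 : ‖v‖ ≤ 3 * X := hV.trans (by linarith)
      have f2 : ‖x ^ (d - 1) * γ‖ ≤ 3 * X := by
        rw [norm_mul, norm_pow]
        calc ‖x‖ ^ (d - 1) * ‖γ‖ ≤ ‖x‖ ^ (d - 1) * (3 * ‖x‖ ^ (d - 1)) :=
              mul_le_mul_of_nonneg_left hγ1 (by positivity)
          _ = 3 * ‖x‖ ^ (2 * (d - 1)) := by rw [two_mul, pow_add]; ring
          _ ≤ 3 * X := by linarith
      have f3 : ‖E1‖ ≤ 9 * c1 * X := e1.trans (by nlinarith)
      have f4 : ‖E2‖ ≤ 9 * c2 * X := e2.trans (by nlinarith)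
      have f5 : ‖v - x ^ (d - 1) * γ - E1‖ ≤ 3 * X + 3 * X + 9 * c1 * X := by
        have g1 := norm_sub_le (v - x ^ (d - 1) * γ) E1
        have g2 := norm_sub_le v (x ^ (d - 1) * γ)
        linarith
      refine (norm_add_le _ _).trans ?_
      rw [norm_mul]
      have f6 : ‖((d - 1 : ℕ) : ℂ) / d‖ * ‖v - x ^ (d - 1) * γ - E1‖ ≤
          1 * (3 * X + 3 * X + 9 * c1 * X) :=
        mul_le_mul hd1 f5 (norm_nonneg _) (by norm_num)
      linarith)
  rw [h]
  simp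

/-- the critical orbit of a parameter with `P_{i+1}(c) = 0` is periodic -/
theorem P_periodic {i : ℕ} {c : ℂ} (hc : P d (i + 1) c = 0) (l : ℕ) :
    P d (i + 1 + l) c = P d l c := by
  induction l with
  | zero => rw [add_zero, hc, P_zero]
  | succ l ih => rw [← add_assoc, P_succ, ih, P_succ]

theorem monic_PP (hd : 2 ≤ d) (k : ℕ) : (PP d (k + 1)).Monic := by
  induction k with
  | zero =>
    have : PP d 1 = Polynomial.X := by simp [PP, zero_pow (show d ≠ 0 by omega)]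
    rw [zero_add, this]
    exact Polynomial.monic_X
  | succ k ih =>
    have h1 : ((PP d (k + 1)) ^ d).natDegree = d ^ (k + 1) := by
      rw [Polynomial.natDegree_pow, natDegree_PP hd]; ring
    change ((PP d (k + 1)) ^ d + Polynomial.X).Monic
    apply (ih.pow d).add_of_left
    apply Polynomial.degree_lt_degree
    rw [h1, Polynomial.natDegree_X]
    exact Nat.one_lt_pow (by omega) (by omega)

theorem prod_roots (p : Polynomial ℂ) (β : ℂ → ℂ) {x : ℂ} (hx : x ≠ 0) :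
    x ^ p.natDegree * p.eval (x⁻¹ * β x) =
      p.leadingCoeff * (p.roots.map (fun w => hh β w x)).prod := by
  have hs : p.Splits := IsAlgClosed.splits p
  have h1 := hs.eq_prod_roots
  have h2 := hs.natDegree_eq_card_roots
  have h3 : p.eval (x⁻¹ * β x) = p.leadingCoeff *
      (p.roots.map (fun w => x⁻¹ * β x - w)).prod := by
    conv_lhs => rw [h1]
    rw [Polynomial.eval_mul, Polynomial.eval_C, Polynomial.eval_multiset_prod, Multiset.map_map]
    congr 2
    apply Multiset.map_congr rfl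
    intro w _
    simp
  rw [h3, h2, mul_left_comm]
  congr 1
  have h4 : x ^ (Multiset.card p.roots) = (p.roots.map (fun _ => x)).prod := by
    rw [Multiset.map_const', Multiset.prod_replicate]
  rw [h4, ← Multiset.prod_map_mul]
  congr 1
  apply Multiset.map_congr rfl
  intro w _
  unfold hh
  field_simp

theorem prod_hh_zero (hβ : IsBeta d β) (S : Multiset ℂ) :
    (S.map (fun w => hh β w 0)).prod = 1 := by
  have : S.map (fun w => hh β w 0) = S.map (fun _ => (1 : ℂ)) := by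
    apply Multiset.map_congr rfl
    intro w _
    exact hh_zero hβ w
  rw [this]
  simp

theorem BB_prod (hd : 2 ≤ d) (hβ : IsBeta d β) (i : ℕ) (x : ℂ) :
    BB d β i x = ((PP d (i + 1)).roots.map (fun w => hh β w x)).prod := by
  by_cases hx : x = 0
  · subst hx
    rw [BB_zero_val hd hβ, prod_hh_zero hβ]
  · have h := prod_roots (PP d (i + 1)) β hx
    rw [natDegree_PP hd, (monic_PP hd i).leadingCoeff, one_mul, eval_PP] at h
    rw [BB_eq hd β i x hx, h]

/-- the critical points of `P_{k+1}` -/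
noncomputable def crit (d k : ℕ) : Multiset ℂ := (Polynomial.derivative (PP d (k + 1))).roots

theorem natDegree_dPP (hd : 2 ≤ d) (k : ℕ) :
    (Polynomial.derivative (PP d (k + 1))).natDegree = d ^ k - 1 := by
  rw [Polynomial.natDegree_derivative, natDegree_PP hd]

theorem leadingCoeff_dPP (hd : 2 ≤ d) (k : ℕ) :
    (Polynomial.derivative (PP d (k + 1))).leadingCoeff = (d : ℂ) ^ k := by
  have hdk : 1 ≤ d ^ k := Nat.one_le_pow _ _ (by omega)
  rw [Polynomial.leadingCoeff, natDegree_dPP hd, Polynomial.coeff_derivative,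
    Nat.sub_add_cancel hdk]
  have h1 : (PP d (k + 1)).coeff (d ^ k) = 1 := by
    have := (monic_PP hd k).coeff_natDegree
    rwa [natDegree_PP hd] at this
  rw [h1, one_mul]
  push_cast [Nat.cast_sub hdk]
  ring

theorem card_crit (hd : 2 ≤ d) (k : ℕ) : Multiset.card (crit d k) = d ^ k - 1 := by
  unfold crit
  rw [← (IsAlgClosed.splits (Polynomial.derivative (PP d (k + 1)))).natDegree_eq_card_roots,
    natDegree_dPP hd]

theorem YY_eq (hd : 2 ≤ d) (β : ℂ → ℂ) (k : ℕ) {x : ℂ} (hx : x ≠ 0) :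
    (d : ℂ) ^ k * YY d β k x =
      x ^ (d ^ k - 1) * (Polynomial.derivative (PP d (k + 1))).eval (x⁻¹ * β x) := by
  induction k with
  | zero =>
    have : PP d 1 = Polynomial.X := by simp [PP, zero_pow (show d ≠ 0 by omega)]
    rw [zero_add, this]
    simp [YY]
  | succ k ih =>
    have hdk : 1 ≤ d ^ k := Nat.one_le_pow _ _ (by omega)
    have hdC : (d : ℂ) ≠ 0 := by
      have : d ≠ 0 := by omega
      exact_mod_cast this
    have h1 : PP d (k + 1 + 1) = (PP d (k + 1)) ^ d + Polynomial.X := rfl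
    rw [h1, Polynomial.derivative_add, Polynomial.derivative_pow, Polynomial.derivative_X,
      Polynomial.eval_add, Polynomial.eval_mul, Polynomial.eval_mul, Polynomial.eval_pow,
      eval_PP, Polynomial.eval_C, Polynomial.eval_one, YY_succ, BB_eq hd β k x hx, mul_add, mul_add]
    have h2 : (d : ℂ) ^ (k + 1) * (x ^ (d ^ (k + 1) - 1) / (d : ℂ) ^ (k + 1)) =
        x ^ (d ^ (k + 1) - 1) * 1 := by field_simp
    rw [h2]
    congr 1
    have h3 : d ^ (k + 1) - 1 = d ^ k * (d - 1) + (d ^ k - 1) := by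
      obtain ⟨f, hf⟩ : ∃ f, d = f + 1 := Nat.exists_eq_add_of_le' (by omega : 1 ≤ d)
      have h4 : d ^ (k + 1) = d ^ k * (d - 1) + d ^ k := by
        rw [pow_succ]
        conv_lhs => rw [show d ^ k * d = d ^ k * ((d - 1) + 1) by congr 1; omega]
        ring
      omega
    rw [h3, pow_add x, pow_mul x, mul_pow]
    have h5 : (d : ℂ) ^ (k + 1) * ((x ^ d ^ k) ^ (d - 1) * P d (k + 1) (x⁻¹ * β x) ^ (d - 1) *
        YY d β k x) = (x ^ d ^ k) ^ (d - 1) * (d * P d (k + 1) (x⁻¹ * β x) ^ (d - 1)) *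
        ((d : ℂ) ^ k * YY d β k x) := by ring
    rw [h5, ih]
    ring

theorem YY_prod (hd : 2 ≤ d) (hβ : IsBeta d β) (k : ℕ) (x : ℂ) :
    YY d β k x = ((crit d k).map (fun w => hh β w x)).prod := by
  by_cases hx : x = 0
  · subst hx
    rw [YY_zero_val hd hβ, prod_hh_zero hβ]
  · have hdC : (d : ℂ) ≠ 0 := by
      have : d ≠ 0 := by omega
      exact_mod_cast this
    have h := prod_roots (Polynomial.derivative (PP d (k + 1))) β hx
    rw [natDegree_dPP hd, leadingCoeff_dPP hd, ← YY_eq hd β k hx] at h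
    exact mul_left_cancel₀ (pow_ne_zero k hdC) h

theorem BB_analyticAt (hβ : IsBeta d β) (i : ℕ) : AnalyticAt ℂ (BB d β i) 0 :=
  (BB_diff hβ.diff i).analyticAt (isOpen_ball.mem_nhds (mem_ball_self one_pos))

theorem tc_BB (hd : 2 ≤ d) (hβ : IsBeta d β) (i k : ℕ) :
    tc (logDeriv (BB d β i)) k = ((PP d (i + 1)).roots.map (fun w => tc (LL β w) k)).sum := by
  have h1 : BB d β i = fun x => ((PP d (i + 1)).roots.map (fun w => hh β w x)).prod := by
    funext x
    exact BB_prod hd hβ i x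
  rw [h1, (tc_logDeriv_prod _ (fun w _ => hh_analyticAt hβ w)
    (fun w _ => by rw [hh_zero hβ]; exact one_ne_zero) k).2.2]
  simp only [LL_eq]

theorem tc_BB_low (hd : 2 ≤ d) (hβ : IsBeta d β) {i k : ℕ} (hk : k + 1 < d ^ (i + 1) - 1) :
    tc (logDeriv (BB d β i)) k = 0 := by
  obtain ⟨Q, hQ1, -, hQ3⟩ := BB_div hd hβ i
  exact tc_logDeriv_order one_pos hQ1 (fun x hx => by rw [← hQ3 x hx]; ring) hk

theorem roots_P {i : ℕ} {c : ℂ} (hc : c ∈ (PP d (i + 1)).roots) : P d (i + 1) c = 0 := by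
  rw [← eval_PP]
  exact Polynomial.isRoot_of_mem_roots hc

theorem card_roots_PP (hd : 2 ≤ d) (i : ℕ) : Multiset.card (PP d (i + 1)).roots = d ^ i := by
  rw [← (IsAlgClosed.splits (PP d (i + 1))).natDegree_eq_card_roots, natDegree_PP hd]

/-- the power sums of the orbit over the centres vanish -/
theorem sum_roots_zero (hd : 2 ≤ d) (hβ : IsBeta d β) {i s : ℕ} (hs : 1 ≤ s) (hsi : s ≤ i) :
    ((PP d (i + 1)).roots.map (fun c => (P d (s + 1) c) ^ (d - 1))).sum = 0 := by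
  have h1 : (d - 1) * d ^ s - 1 + 1 < d ^ (i + 1) - 1 := by
    have h2 : d ^ (s + 1) ≤ d ^ (i + 1) := Nat.pow_le_pow_right (by omega) (by omega)
    have h3 : d ^ (s + 1) = (d - 1) * d ^ s + d ^ s := by
      have : d = (d - 1) + 1 := by omega
      conv_lhs => rw [pow_succ, mul_comm, this, add_mul, one_mul]
      rw [← this]
    have h4 : 2 ≤ d ^ s := by
      calc 2 ≤ d := hd
        _ = d ^ 1 := (pow_one d).symm
        _ ≤ d ^ s := Nat.pow_le_pow_right (by omega) hs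
    have h5 : 1 ≤ (d - 1) * d ^ s := Nat.mul_pos (by omega) (by omega)
    omega
  have h := tc_BB hd hβ i ((d - 1) * d ^ s - 1)
  rw [tc_BB_low hd hβ h1] at h
  simp only [coef_top hd hβ _ hs] at h
  rw [Multiset.sum_map_neg] at h
  rw [eq_comm, neg_eq_zero] at h
  exact h

theorem sum_roots_base (hd : 2 ≤ d) (hβ : IsBeta d β) {i : ℕ} (hi : 1 ≤ i) :
    ((PP d (i + 1)).roots.map (fun c => c ^ (d - 1))).sum = - (((d - 1 : ℕ) : ℂ) / d * (d : ℂ) ^ i) := by
  have h1 : d - 1 - 1 + 1 < d ^ (i + 1) - 1 := by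
    have h2 : d ^ 2 ≤ d ^ (i + 1) := Nat.pow_le_pow_right (by omega) (by omega)
    have h3 : d + d ≤ d ^ 2 := by nlinarith
    omega
  have h := tc_BB hd hβ i (d - 1 - 1)
  rw [tc_BB_low hd hβ h1] at h
  simp only [coef_base hd hβ] at h
  rw [Multiset.sum_map_neg, Multiset.sum_map_add, Multiset.map_const', Multiset.sum_replicate,
    card_roots_PP hd, nsmul_eq_mul] at h
  push_cast at h ⊢
  linear_combination h

/-- the exact coefficient of `log V_{n-1}` at `(d - 1) d ^ n` -/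
theorem tc_BB_main (hd : 2 ≤ d) (hβ : IsBeta d β) {n : ℕ} (hn : 2 ≤ n) :
    tc (logDeriv (BB d β (n - 1))) ((d - 1) * d ^ n - 1) =
      ((d - 1 : ℕ) : ℂ) / d * (d : ℂ) ^ (n - 1) := by
  obtain ⟨i, rfl⟩ : ∃ i, n = i + 1 := Nat.exists_eq_add_of_le' (by omega)
  rw [Nat.add_sub_cancel, tc_BB hd hβ]
  simp only [coef_top hd hβ _ (show 1 ≤ i + 1 by omega)]
  rw [Multiset.sum_map_neg]
  have h1 : (PP d (i + 1)).roots.map (fun c => (P d (i + 1 + 1) c) ^ (d - 1)) =
      (PP d (i + 1)).roots.map (fun c => c ^ (d - 1)) := by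
    apply Multiset.map_congr rfl
    intro c hc
    rw [P_periodic (roots_P hc) 1, P_one hd]
  rw [h1, sum_roots_base hd hβ (by omega)]
  ring

theorem tc_BB_other (hd : 2 ≤ d) (hβ : IsBeta d β) {n i : ℕ} (hi : i + 1 < n) (hni : n ≤ 2 * i + 1) :
    tc (logDeriv (BB d β i)) ((d - 1) * d ^ n - 1) = 0 := by
  obtain ⟨s, hs⟩ : ∃ s, n = i + 1 + s := ⟨n - i - 1, by omega⟩
  rw [tc_BB hd hβ]
  simp only [coef_top hd hβ _ (show 1 ≤ n by omega)]
  rw [Multiset.sum_map_neg]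
  have h1 : (PP d (i + 1)).roots.map (fun c => (P d (n + 1) c) ^ (d - 1)) =
      (PP d (i + 1)).roots.map (fun c => (P d (s + 1) c) ^ (d - 1)) := by
    apply Multiset.map_congr rfl
    intro c hc
    rw [show n + 1 = i + 1 + (s + 1) by omega, P_periodic (roots_P hc) (s + 1)]
  rw [h1, sum_roots_zero hd hβ (by omega) (by omega), neg_zero]

end Pool.Agent.TH653.MB
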