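import Mathlib
import Pool.Agent.TH653.MB.A3
import Pool.Agent.TH653.MB.A4
import Pool.Agent.H792R2.SS.KB

set_option autoImplicit false

/-! # Removing the zeros inside a circle -/

namespace Pool.Agent.TH653.MB

open Complex Set Topology Filter Metric MeasureTheory N62a1eb23 Pool.Agent.H712R2 Pool.Agent.H713R2
open Real (circleAverage)

variable {d : ℕ} {β : ℂ → ℂ}

theorem psi_deriv (hβ : IsBeta d β) {x : ℂ} (hx : x ∈ ball (0 : ℂ) 1) (hx0 : x ≠ 0) :
    HasDerivAt (fun y => y⁻¹ * β y) (-(qq β x / x ^ 2)) x := by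
  have h1 : HasDerivAt β (deriv β x) x :=
    (hβ.diff.differentiableAt (isOpen_ball.mem_nhds hx)).hasDerivAt
  have h2 := (hasDerivAt_inv hx0).mul h1
  have h3 : -(qq β x / x ^ 2) = -(x ^ 2)⁻¹ * β x + x⁻¹ * deriv β x := by
    unfold qq
    field_simp
    ring
  rw [h3]
  exact h2

theorem qq_ne (hβ : IsBeta d β) {x : ℂ} (hx : x ∈ ball (0 : ℂ) 1) : qq β x ≠ 0 := by
  by_cases hx0 : x = 0
  · rw [hx0, qq_zero hβ]
    exact one_ne_zero
  · have hmem : x ∈ ball (0 : ℂ) 1 ∩ {0}ᶜ := ⟨hx, hx0⟩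
    have hop : IsOpen (ball (0 : ℂ) 1 ∩ {0}ᶜ) := isOpen_ball.inter isOpen_compl_singleton
    obtain ⟨r, hr, hsub⟩ := Metric.isOpen_iff.1 hop x hmem
    have h1 := (Pool.Agent.H792R2.SS.t_KB (fun y => y⁻¹ * β y) x r hr
      (fun y hy => (psi_deriv hβ (hsub hy).1 (hsub hy).2).differentiableAt.differentiableWithinAt)
      (fun y hy w hw h => hβ.inj y (hsub hy).1 w (hsub hw).1 (hsub hy).2 (hsub hw).2 h)).1
    rw [(psi_deriv hβ hx hx0).deriv] at h1
    intro h
    apply h1
    rw [h]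
    simp

theorem tc_inv_linear (b : ℂ) (k : ℕ) : tc (logDeriv (fun x => 1 - b * x)) k = - b ^ (k + 1) := by
  by_cases hb : b = 0
  · subst hb
    have : (fun x : ℂ => 1 - 0 * x) = fun _ => 1 := by funext x; ring
    rw [this, tc_logDeriv_const]
    simp
  · have hbn : 0 < ‖b‖ := norm_pos_iff.2 hb
    have hne : ∀ x ∈ ball (0 : ℂ) ‖b‖⁻¹, 1 - b * x ≠ 0 := by
      intro x hx h
      rw [mem_ball_zero_iff] at hx
      have h1 : b * x = 1 := by linear_combination -h
      have h2 : ‖b‖ * ‖x‖ = 1 := by rw [← norm_mul, h1, norm_one]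
      have h3 : ‖b‖ * ‖x‖ < ‖b‖ * ‖b‖⁻¹ := mul_lt_mul_of_pos_left hx hbn
      rw [mul_inv_cancel₀ hbn.ne', h2] at h3
      exact lt_irrefl _ h3
    have hd : DifferentiableOn ℂ (fun x : ℂ => -b / (1 - b * x)) (ball 0 ‖b‖⁻¹) :=
      DifferentiableOn.div (by fun_prop) (by fun_prop) hne
    have h1 : logDeriv (fun x : ℂ => 1 - b * x) = fun x => -b / (1 - b * x) := by
      funext x
      rw [logDeriv_apply]
      congr 1
      have : HasDerivAt (fun x : ℂ => 1 - b * x) (-(b * 1)) x :=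
        ((hasDerivAt_id x).const_mul b).const_sub 1
      rw [this.deriv, mul_one]
    rw [h1]
    have h2 := tc_unique (a := fun k => - b ^ (k + 1)) (inv_pos.2 hbn) hd (by
      filter_upwards [isOpen_ball.mem_nhds (mem_ball_self (inv_pos.2 hbn))] with x hx
      have h3 : ‖b * x‖ < 1 := by
        rw [mem_ball_zero_iff] at hx
        rw [norm_mul]
        have h3 : ‖b‖ * ‖x‖ < ‖b‖ * ‖b‖⁻¹ := mul_lt_mul_of_pos_left hx hbn
        rwa [mul_inv_cancel₀ hbn.ne'] at h3
      have h4 := (hasSum_geometric_of_norm_lt_one h3).mul_left (-b)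
      have h5 : (fun k => -b * (b * x) ^ k) = fun k => - b ^ (k + 1) * x ^ k := by
        funext k
        rw [mul_pow]
        ring
      rw [h5] at h4
      rw [div_eq_mul_inv]
      exact h4)
    rw [← h2]

/-- the zero of `β - w x` is simple and unique -/
theorem blaschke (hd : 2 ≤ d) (hβ : IsBeta d β) (w : ℂ) {ρ σ R : ℝ} (hρ : 0 < ρ) (hρσ : ρ < σ)
    (hσ1 : σ < 1) {n : ℕ} (hn : 1 ≤ n) (hR : ρ ^ (d ^ n) = R⁻¹) (hR1 : 1 ≤ R)
    (hw : (∀ x ∈ ball (0 : ℂ) σ, hh β w x ≠ 0) ∨ ∃ a, ‖a‖ < ρ ^ 2 / σ ∧ hh β w a = 0) :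
    ∃ h : ℂ → ℂ, DifferentiableOn ℂ h (ball 0 1) ∧ (∀ x ∈ ball (0 : ℂ) σ, h x ≠ 0) ∧
      (∀ x, ‖x‖ = ρ → ‖h x‖ = ‖hh β w x‖) ∧ 1 ≤ ‖h 0‖ ∧
      ‖tc (logDeriv h) ((d - 1) * d ^ n - 1)‖ ≤ (2 * R) ^ (d - 1) + 3 * (d - 1 : ℕ) * 2 ^ (d - 1) := by
  have hσ0 : 0 < σ := hρ.trans hρσ
  have hR0 : 0 < R := by linarith
  obtain ⟨m, hm⟩ : ∃ m, m = (d - 1) * d ^ n := ⟨_, rfl⟩
  have hdn1 : 1 ≤ d ^ n := Nat.one_le_pow _ _ (by omega)
  have hm1 : 1 ≤ m := by rw [hm]; exact Nat.mul_pos (by omega) (by omega)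
  have hc := coef_top hd hβ w hn
  rw [← hm] at hc ⊢
  rcases hw with hw | ⟨a, ha, hza⟩
  · refine ⟨hh β w, hh_diff hβ w, hw, fun x _ => rfl, by rw [hh_zero hβ, norm_one], ?_⟩
    rw [← LL_eq, hc, norm_neg, norm_pow]
    have h1 : ‖P d (n + 1) w‖ ≤ 2 * R := by
      by_cases hwM : w ∈ multibrotSet d
      · have := (mem_multibrot_iff hd w).1 hwM (n + 1)
        linarith
      · obtain ⟨x, hx, hx0, hxw⟩ := hβ.surj w hwM
        have h2 : hh β w x = 0 := by
          unfold hh
          rw [← hxw]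
          field_simp
          ring
        have h3 : ρ ≤ ‖x‖ := by
          by_contra hlt
          push Not at hlt
          exact hw x (by rw [mem_ball_zero_iff]; linarith) h2
        have h4 := BB_eq hd β n x hx0
        rw [hxw] at h4
        have h5 := AR.BB_le_two hd hβ n hx
        rw [h4, norm_mul, norm_pow] at h5
        have h6 : R⁻¹ ≤ ‖x‖ ^ d ^ n := by
          rw [← hR]
          exact pow_le_pow_left₀ hρ.le h3 _
        have h7 : R⁻¹ * ‖P d (n + 1) w‖ ≤ 2 := (mul_le_mul_of_nonneg_right h6 (norm_nonneg _)).trans h5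
        rw [inv_mul_le_iff₀ hR0] at h7
        linarith
    have h2 : (0 : ℝ) ≤ 3 * (d - 1 : ℕ) * 2 ^ (d - 1) := by positivity
    have h3 := pow_le_pow_left₀ (norm_nonneg _) h1 (d - 1)
    linarith
  · -- the zero is inside
    have haρ : ‖a‖ < ρ := by
      refine ha.trans ?_
      rw [div_lt_iff₀ hσ0]
      nlinarith
    have ha1 : a ∈ ball (0 : ℂ) 1 := by rw [mem_ball_zero_iff]; linarith
    have ha0 : a ≠ 0 := by
      rintro rfl
      rw [hh_zero hβ] at hza
      exact one_ne_zero hza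
    have han : 0 < ‖a‖ := norm_pos_iff.2 ha0
    have hwa : a⁻¹ * β a = w := by
      unfold hh at hza
      have : β a = w * a := by linear_combination hza
      rw [this]
      field_simp
    obtain ⟨u, hu⟩ : ∃ u, u = dslope (hh β w) a := ⟨_, rfl⟩
    have hud : DifferentiableOn ℂ u (ball 0 1) := by
      rw [hu]
      exact (Complex.differentiableOn_dslope (isOpen_ball.mem_nhds ha1)).mpr (hh_diff hβ w)
    have huh : ∀ x, hh β w x = (x - a) * u x := by
      intro x
      have := sub_smul_dslope (hh β w) a x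
      rw [hza, sub_zero, smul_eq_mul] at this
      rw [hu, this]
    have hune : ∀ x ∈ ball (0 : ℂ) 1, u x ≠ 0 := by
      intro x hx hux
      by_cases hxa : x = a
      · subst hxa
        rw [hu, dslope_same] at hux
        have h1 : HasDerivAt β (deriv β x) x :=
          (hβ.diff.differentiableAt (isOpen_ball.mem_nhds ha1)).hasDerivAt
        have h2 : HasDerivAt (hh β w) (deriv β x - w * 1) x := h1.sub ((hasDerivAt_id x).const_mul w)
        rw [h2.deriv, mul_one] at hux
        apply qq_ne hβ ha1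
        unfold qq
        have h3 : deriv β x = w := by linear_combination hux
        have h4 : β x = w * x := by
          unfold hh at hza
          linear_combination hza
        rw [h3, h4]
        ring
      · have h1 : hh β w x = 0 := by rw [huh, hux, mul_zero]
        have hx0 : x ≠ 0 := by
          rintro rfl
          rw [hh_zero hβ] at h1
          exact one_ne_zero h1
        apply hxa
        apply hβ.inj x hx a ha1 hx0 ha0
        rw [hwa]
        unfold hh at h1
        have : β x = w * x := by linear_combination h1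
        rw [this]
        field_simp
    have hρC : (ρ : ℂ) ≠ 0 := by exact_mod_cast hρ.ne'
    obtain ⟨b, hb⟩ : ∃ b : ℂ, b = (starRingEnd ℂ) a / (ρ : ℂ) ^ 2 := ⟨_, rfl⟩
    have hbn : ‖b‖ = ‖a‖ / ρ ^ 2 := by
      rw [hb, norm_div, norm_pow, Complex.norm_conj, Complex.norm_real, Real.norm_eq_abs,
        abs_of_pos hρ]
    have hbne : ∀ x ∈ ball (0 : ℂ) σ, 1 - b * x ≠ 0 := by
      intro x hx h
      rw [mem_ball_zero_iff] at hx
      have h1 : b * x = 1 := by linear_combination -h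
      have h2 : ‖b‖ * ‖x‖ = 1 := by rw [← norm_mul, h1, norm_one]
      have h3 : ‖b‖ * ‖x‖ ≤ ‖b‖ * σ := mul_le_mul_of_nonneg_left hx.le (norm_nonneg _)
      have h4 : ‖b‖ * σ < 1 := by
        rw [hbn, div_mul_eq_mul_div, div_lt_one (by positivity)]
        rwa [lt_div_iff₀ hσ0] at ha
      linarith
    refine ⟨fun x => u x * ((ρ : ℂ) * (1 - b * x)), hud.mul (by fun_prop), ?_, ?_, ?_, ?_⟩
    · intro x hx
      exact mul_ne_zero (hune x (ball_subset_ball hσ1.le hx)) (mul_ne_zero hρC (hbne x hx))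
    · intro x hx
      rw [huh, norm_mul, norm_mul (x - a), mul_comm ‖x - a‖]
      congr 1
      have hx0 : x ≠ 0 := by
        rintro rfl
        rw [norm_zero] at hx
        linarith
      have h1 : (starRingEnd ℂ) x * x = (ρ : ℂ) ^ 2 := by
        rw [mul_comm, Complex.mul_conj, Complex.normSq_eq_norm_sq, hx]
        push_cast
        rfl
      have h2 : (ρ : ℂ) * (1 - b * x) = ((starRingEnd ℂ) (x - a)) * (x / ρ) := by
        rw [hb, map_sub]
        field_simp
        rw [← h1]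
        ring
      rw [h2, norm_mul, Complex.norm_conj, norm_div, hx, Complex.norm_real, Real.norm_eq_abs,
        abs_of_pos hρ, div_self hρ.ne', mul_one]
    · simp only [mul_zero, sub_zero, mul_one]
      have h1 : u 0 = -a⁻¹ := by
        have := huh 0
        rw [hh_zero hβ, zero_sub] at this
        field_simp
        linear_combination this
      rw [h1, norm_mul, norm_neg, norm_inv, Complex.norm_real, Real.norm_eq_abs, abs_of_pos hρ]
      rw [← div_eq_inv_mul, le_div_iff₀ han]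
      linarith
    · have h0m : (0 : ℂ) ∈ ball (0 : ℂ) 1 := mem_ball_self one_pos
      have hnb : ball (0 : ℂ) 1 ∈ 𝓝 (0 : ℂ) := isOpen_ball.mem_nhds h0m
      have hua : AnalyticAt ℂ u 0 := hud.analyticAt hnb
      have hu0 : u 0 ≠ 0 := hune 0 h0m
      -- the coefficient of `u' / u`
      have h1 : tc (LL β w) (m - 1) = tc (logDeriv u) (m - 1) - a⁻¹ ^ (m - 1 + 1) := by
        rw [LL_eq]
        have h2 : hh β w = fun x => (-a * (1 - a⁻¹ * x)) * u x := by
          funext x
          rw [huh]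
          field_simp
          ring
        rw [h2, tc_logDeriv_mul (f := fun x => -a * (1 - a⁻¹ * x)) (by fun_prop) hua (by simpa using ha0) hu0]
        have h3 : logDeriv (fun x => -a * (1 - a⁻¹ * x)) = logDeriv (fun x => 1 - a⁻¹ * x) := by
          funext x
          exact logDeriv_const_mul x (-a) (neg_ne_zero.2 ha0)
        rw [h3, tc_inv_linear]
        ring
      have h2 : tc (logDeriv (fun x => u x * ((ρ : ℂ) * (1 - b * x)))) (m - 1) =
          tc (logDeriv u) (m - 1) - b ^ (m - 1 + 1) := by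
        rw [tc_logDeriv_mul hua (g := fun x => (ρ : ℂ) * (1 - b * x)) (by fun_prop) hu0 (by simpa using hρ.ne')]
        have h3 : logDeriv (fun x => (ρ : ℂ) * (1 - b * x)) = logDeriv (fun x => 1 - b * x) := by
          funext x
          exact logDeriv_const_mul x (ρ : ℂ) hρC
        rw [h3, tc_inv_linear]
        ring
      rw [h2]
      rw [Nat.sub_add_cancel hm1] at h1 ⊢
      have h3 : tc (logDeriv u) (m - 1) = a⁻¹ ^ m - (P d (n + 1) w) ^ (d - 1) := by
        linear_combination hc - h1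
      have h4 : (P d (n + 1) w) ^ (d - 1) = a⁻¹ ^ m * (BB d β n a) ^ (d - 1) := by
        have h5 := BB_eq hd β n a ha0
        rw [hwa] at h5
        rw [h5, mul_pow, ← pow_mul, mul_comm (d ^ n), ← hm, ← mul_assoc, ← mul_pow,
          inv_mul_cancel₀ ha0, one_pow, one_mul]
      rw [h3, h4]
      have h5 : a⁻¹ ^ m - a⁻¹ ^ m * BB d β n a ^ (d - 1) - b ^ m =
          -(a⁻¹ ^ m * (BB d β n a ^ (d - 1) - 1)) - b ^ m := by ring
      rw [h5]
      refine (norm_sub_le _ _).trans ?_
      rw [norm_neg, norm_mul, norm_pow, norm_inv, norm_pow]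
      have h6 : ‖b‖ ^ m ≤ (2 * R) ^ (d - 1) := by
        have h7 : ‖b‖ ≤ ρ⁻¹ := by
          rw [hbn, div_le_iff₀ (by positivity)]
          have : ρ⁻¹ * ρ ^ 2 = ρ := by field_simp
          rw [this]
          exact haρ.le
        calc ‖b‖ ^ m ≤ ρ⁻¹ ^ m := pow_le_pow_left₀ (norm_nonneg _) h7 m
          _ = R ^ (d - 1) := by
              rw [hm, mul_comm, pow_mul, inv_pow, hR, inv_inv]
          _ ≤ (2 * R) ^ (d - 1) := pow_le_pow_left₀ hR0.le (by linarith) _
      have h7 : ‖a‖⁻¹ ^ m * ‖BB d β n a ^ (d - 1) - 1‖ ≤ 3 * (d - 1 : ℕ) * 2 ^ (d - 1) := by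
        have h8 := pow_sub_one_le (AR.BB_le_two hd hβ n ha1) (d - 1)
        have h9 := BB_sub_one_le hd hβ n ha1
        have hK : m ≤ d ^ (n + 1) - 1 := by
          have h1 : d ^ (n + 1) = (d - 1) * d ^ n + d ^ n := by
            have : d = (d - 1) + 1 := by omega
            conv_lhs => rw [pow_succ, mul_comm, this, add_mul, one_mul]
            rw [← this]
          omega
        have h10 : ‖a‖ ^ (d ^ (n + 1) - 1) ≤ ‖a‖ ^ m :=
          pow_le_pow_of_le_one (norm_nonneg _) (by rw [mem_ball_zero_iff] at ha1; exact ha1.le) hK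
        have h11 : ‖BB d β n a ^ (d - 1) - 1‖ ≤ ((d - 1 : ℕ) : ℝ) * 2 ^ (d - 1) * (3 * ‖a‖ ^ m) := by
          refine h8.trans ?_
          apply mul_le_mul_of_nonneg_left _ (by positivity)
          linarith
        calc ‖a‖⁻¹ ^ m * ‖BB d β n a ^ (d - 1) - 1‖
            ≤ ‖a‖⁻¹ ^ m * (((d - 1 : ℕ) : ℝ) * 2 ^ (d - 1) * (3 * ‖a‖ ^ m)) :=
              mul_le_mul_of_nonneg_left h11 (by positivity)
          _ = 3 * (d - 1 : ℕ) * 2 ^ (d - 1) := by
              rw [inv_pow]
              field_simp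
      linarith

end Pool.Agent.TH653.MB
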