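import Mathlib
import Pool.Agent.TH653.MB.A5
import Pool.Agent.H713R2.Main1

set_option autoImplicit false

/-! # Bounds on the level circles -/

namespace Pool.Agent.TH653.MB

open Complex Set Topology Filter Metric MeasureTheory N62a1eb23 Pool.Agent.H712R2 Pool.Agent.H713R2
open Real (circleAverage)

variable {d : ℕ} {β : ℂ → ℂ}

theorem two_le_pow (hd : 2 ≤ d) {n : ℕ} (hn : 1 ≤ n) : 2 ≤ d ^ n := by
  calc 2 ≤ d := hd
    _ = d ^ 1 := (pow_one d).symm
    _ ≤ d ^ n := Nat.pow_le_pow_right (by omega) hn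

theorem pow_succ_split (hd : 2 ≤ d) (n : ℕ) : d ^ (n + 1) = (d - 1) * d ^ n + d ^ n := by
  have : d = (d - 1) + 1 := by omega
  conv_lhs => rw [pow_succ, mul_comm, this, add_mul, one_mul]
  rw [← this]

/-- inside the level circle the distance to the unit circle is at least `1 / (1 + d ^ n)` -/
theorem one_sub_ge {N : ℕ} (hN : 1 ≤ N) {x : ℝ} (hx : 0 ≤ x) (h : x ^ N ≤ Real.exp (-1)) :
    1 ≤ (1 - x) * (1 + N) := by
  have hN0 : (0 : ℝ) < N := by exact_mod_cast hN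
  have h1 : x ≤ Real.exp (-(1 / N)) := by
    have h2 : Real.exp (-1) = Real.exp (-(1 / N)) ^ N := by
      rw [← Real.exp_nat_mul]
      congr 1
      field_simp
    rw [h2] at h
    exact (pow_le_pow_iff_left₀ hx (Real.exp_pos _).le (by omega)).1 h
  have h3 : Real.exp (-(1 / N)) ≤ N / (1 + N) := by
    rw [Real.exp_neg, inv_le_comm₀ (Real.exp_pos _) (by positivity), inv_div]
    have := Real.add_one_le_exp (1 / (N : ℝ))
    refine le_trans (le_of_eq ?_) this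
    field_simp
  have h4 : x ≤ N / (1 + N) := h1.trans h3
  rw [le_div_iff₀ (by positivity)] at h4
  linarith

theorem inv_le_exp {R : ℝ} (hR : 3 ≤ R) : R⁻¹ ≤ Real.exp (-1) := by
  rw [Real.exp_neg]
  apply inv_anti₀ (Real.exp_pos _)
  have := Real.exp_one_lt_d9
  linarith

/-- `Z_n` as `1 + x ^ K Ψ` -/
theorem ZZ_div (hd : 2 ≤ d) (hβ : IsBeta d β) (n : ℕ) :
    ∃ Ψ : ℂ → ℂ, DifferentiableOn ℂ Ψ (ball 0 1) ∧
      (∀ x ∈ ball (0 : ℂ) 1, YY d β n x * qq β x = 1 + x ^ (d ^ (n + 1) - 1) * Ψ x) ∧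
      ∀ x ∈ ball (0 : ℂ) 1, ‖x‖ ^ (d ^ n) ≤ Real.exp (-1) → ‖Ψ x‖ ≤ 3 * d + 12 := by
  obtain ⟨Q, hQ1, hQ2, hQ3⟩ := BB_div hd hβ n
  obtain ⟨K, hK⟩ : ∃ K, K = d ^ (n + 1) - 1 := ⟨_, rfl⟩
  have hdn : 1 ≤ d ^ n := Nat.one_le_pow _ _ (by omega)
  have hdn' : (0 : ℝ) < (d : ℝ) ^ n := by
    have : (0 : ℝ) < d := by exact_mod_cast (show 0 < d by omega)
    positivity
  have hsp := pow_succ_split hd n
  have hKd : d ^ n ≤ K := by
    have : d ^ n ≤ (d - 1) * d ^ n := Nat.le_mul_of_pos_left _ (by omega)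
    omega
  have hdC : (d : ℂ) ^ n ≠ 0 := pow_ne_zero _ (by
    have : d ≠ 0 := by omega
    exact_mod_cast this)
  rw [← hK] at hQ3 ⊢
  refine ⟨fun x => Q x * (1 - (K : ℂ) / (d : ℂ) ^ n) - x * deriv Q x / (d : ℂ) ^ n, ?_, ?_, ?_⟩
  · have := hQ1.deriv isOpen_ball
    fun_prop
  · intro x hx
    rw [← YY_mul_qq hd hβ n hx]
    have hnb := isOpen_ball.mem_nhds hx
    have h1 : BB d β n =ᶠ[𝓝 x] fun y => y ^ K * Q y + 1 := by
      filter_upwards [hnb] with y hy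
      rw [← hQ3 y hy]
      ring
    have h2 : HasDerivAt (fun y => y ^ K * Q y + 1)
        (((K : ℂ) * x ^ (K - 1)) * Q x + x ^ K * deriv Q x) x :=
      ((hasDerivAt_pow K x).mul (hQ1.differentiableAt hnb).hasDerivAt).add_const 1
    rw [h1.deriv_eq, h2.deriv, h1.eq_of_nhds]
    obtain ⟨L, hL⟩ := Nat.exists_eq_add_of_le' (show 1 ≤ K by omega)
    have hxK : x ^ K = x ^ L * x := by rw [hL, pow_succ]
    rw [show K - 1 = L by omega, hxK]
    field_simp
    ring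
  · intro x hx hxn
    have hx1 : ‖x‖ < 1 := by rwa [mem_ball_zero_iff] at hx
    have h1 := one_sub_ge hdn (norm_nonneg x) hxn
    have h2 : 0 < 1 - ‖x‖ := by linarith
    have hder : ‖deriv Q x‖ ≤ 3 / ((1 - ‖x‖) / 2) := by
      apply Complex.norm_deriv_le_of_forall_mem_sphere_norm_le (by linarith)
      · apply DifferentiableOn.diffContOnCl
        rw [closure_ball x (by linarith)]
        apply hQ1.mono
        intro y hy
        rw [mem_closedBall, dist_eq_norm] at hy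
        rw [mem_ball_zero_iff]
        have := norm_add_le (y - x) x
        rw [sub_add_cancel] at this
        linarith
      · intro y hy
        apply hQ2
        rw [mem_sphere, dist_eq_norm] at hy
        rw [mem_ball_zero_iff]
        have := norm_add_le (y - x) x
        rw [sub_add_cancel] at this
        linarith
    have hQx := hQ2 x hx
    have hN : ((d ^ n : ℕ) : ℝ) = (d : ℝ) ^ n := by push_cast; rfl
    rw [hN] at h1
    refine (norm_sub_le _ _).trans ?_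
    have h3 : ‖Q x * (1 - (K : ℂ) / (d : ℂ) ^ n)‖ ≤ 3 * d := by
      rw [norm_mul]
      have h4 : ‖(1 : ℂ) - (K : ℂ) / (d : ℂ) ^ n‖ ≤ d := by
        have h5 : (1 : ℂ) - (K : ℂ) / (d : ℂ) ^ n = ((1 - (K : ℝ) / (d : ℝ) ^ n : ℝ) : ℂ) := by
          push_cast; rfl
        rw [h5, Complex.norm_real, Real.norm_eq_abs, abs_le]
        have h6 : (K : ℝ) ≤ (d : ℝ) * (d : ℝ) ^ n := by
          have : K ≤ d * d ^ n := by
            rw [hK, pow_succ, mul_comm]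
            omega
          exact_mod_cast this
        have h7 : (K : ℝ) / (d : ℝ) ^ n ≤ d := by
          rw [div_le_iff₀ hdn']
          exact h6
        have h8 : (0 : ℝ) ≤ (K : ℝ) / (d : ℝ) ^ n := by positivity
        have h9 : (2 : ℝ) ≤ d := by exact_mod_cast hd
        constructor <;> linarith
      exact mul_le_mul hQx h4 (norm_nonneg _) (by norm_num)
    have h4 : ‖x * deriv Q x / (d : ℂ) ^ n‖ ≤ 12 := by
      rw [norm_div, norm_mul, norm_pow, Complex.norm_natCast, div_le_iff₀ hdn']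
      have h5 : ‖deriv Q x‖ ≤ 6 * (1 + (d : ℝ) ^ n) := by
        refine hder.trans ?_
        rw [div_le_iff₀ (by linarith)]
        nlinarith
      have h6 : ‖x‖ * ‖deriv Q x‖ ≤ 1 * (6 * (1 + (d : ℝ) ^ n)) :=
        mul_le_mul hx1.le h5 (norm_nonneg _) (by norm_num)
      have h7 : (1 : ℝ) ≤ (d : ℝ) ^ n := by exact_mod_cast hdn
      linarith
    linarith

/-- the constant `R₀` -/
noncomputable def R0 (d : ℕ) : ℝ := 6 * d + 24

theorem R0_ge (d : ℕ) : 24 ≤ R0 d := by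
  unfold R0
  have : (0 : ℝ) ≤ d := Nat.cast_nonneg d
  linarith

theorem half_le_YY (hd : 2 ≤ d) (hβ : IsBeta d β) (n : ℕ) {x : ℂ} (hx : x ∈ ball (0 : ℂ) 1)
    (hxn : ‖x‖ ^ (d ^ n) ≤ (R0 d)⁻¹) : 1 / 2 ≤ ‖YY d β n x‖ * ‖qq β x‖ := by
  obtain ⟨Ψ, -, h2, h3⟩ := ZZ_div hd hβ n
  have hR := R0_ge d
  have h4 := h3 x hx (hxn.trans (inv_le_exp (by linarith)))
  have hx1 : ‖x‖ < 1 := by rwa [mem_ball_zero_iff] at hx
  have hsp := pow_succ_split hd n
  have hdn : 1 ≤ d ^ n := Nat.one_le_pow _ _ (by omega)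
  have hKd : d ^ n ≤ d ^ (n + 1) - 1 := by
    have : d ^ n ≤ (d - 1) * d ^ n := Nat.le_mul_of_pos_left _ (by omega)
    omega
  have h5 : ‖x‖ ^ (d ^ (n + 1) - 1) ≤ (R0 d)⁻¹ :=
    (pow_le_pow_of_le_one (norm_nonneg _) hx1.le hKd).trans hxn
  have h6 : ‖x ^ (d ^ (n + 1) - 1) * Ψ x‖ ≤ 1 / 2 := by
    rw [norm_mul, norm_pow]
    calc ‖x‖ ^ (d ^ (n + 1) - 1) * ‖Ψ x‖ ≤ (R0 d)⁻¹ * (3 * d + 12) :=
          mul_le_mul h5 h4 (norm_nonneg _) (by positivity)
      _ = 1 / 2 := by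
          unfold R0
          have : (0 : ℝ) ≤ d := Nat.cast_nonneg d
          field_simp
          ring
  rw [← norm_mul, h2 x hx]
  have h7 := norm_sub_norm_le (1 : ℂ) (-(x ^ (d ^ (n + 1) - 1) * Ψ x))
  rw [sub_neg_eq_add, norm_neg, norm_one] at h7
  linarith

theorem YY_ne (hd : 2 ≤ d) (hβ : IsBeta d β) (n : ℕ) {x : ℂ} (hx : x ∈ ball (0 : ℂ) 1)
    (hxn : ‖x‖ ^ (d ^ n) ≤ (R0 d)⁻¹) : YY d β n x ≠ 0 := by
  intro h
  have := half_le_YY hd hβ n hx hxn
  rw [h, norm_zero, zero_mul] at this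
  linarith

/-- `log q` and `log Y_n` have opposite coefficients up to order `d ^ (n + 1) - 2` -/
theorem tc_qq (hd : 2 ≤ d) (hβ : IsBeta d β) (n : ℕ) {k : ℕ} (hk : k + 1 < d ^ (n + 1) - 1) :
    tc (logDeriv (qq β)) k = - tc (logDeriv (YY d β n)) k := by
  obtain ⟨Ψ, h1, h2, -⟩ := ZZ_div hd hβ n
  have h0 : (0 : ℂ) ∈ ball (0 : ℂ) 1 := mem_ball_self one_pos
  have hnb := isOpen_ball.mem_nhds h0
  have h3 := tc_logDeriv_order (f := fun x => YY d β n x * qq β x) one_pos h1 h2 hk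
  rw [tc_logDeriv_mul ((YY_diff hβ n).analyticAt hnb) ((qq_diff hβ).analyticAt hnb)
    (by rw [YY_zero_val hd hβ]; exact one_ne_zero) (qq_ne hβ h0)] at h3
  linear_combination h3

/-! ### the mean of `|q|` -/

theorem tc_qq_val (hβ : IsBeta d β) (k : ℕ) : tc (qq β) k = (1 - (k : ℂ)) * tc β k := by
  have hxd : DifferentiableOn ℂ (fun x => x * deriv β x) (ball 0 1) :=
    differentiableOn_id.mul (hβ.diff.deriv isOpen_ball)
  unfold qq
  rw [tc_sub one_pos hβ.diff hxd, tc_id_mul_deriv hβ.diff]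
  ring

/-- the Dirichlet sum -/
noncomputable def EE (β : ℂ → ℂ) : ℝ := ∑' l : ℕ, (l : ℝ) * ‖tc β l‖ ^ 2

theorem EE_nonneg (β : ℂ → ℂ) : 0 ≤ EE β := tsum_nonneg fun l => by positivity

theorem av_qq_sq (hβ : IsBeta d β) {N : ℕ} (hN : 1 ≤ N) {ρ : ℝ} (hρ : 0 < ρ) (hρ1 : ρ < 1)
    (h : ρ ^ N ≤ Real.exp (-1)) :
    circleAverage (fun x => ‖qq β x‖ ^ 2) 0 ρ ≤ (1 + EE β) * N := by
  have hs := hasSum_sq_tc hρ hρ1 (qq_diff hβ)
  have hN0 : (0 : ℝ) < N := by exact_mod_cast hN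
  have hN1 : (1 : ℝ) ≤ N := by exact_mod_cast hN
  have hE := (dirichlet_beta hβ).hasSum
  have hkey : ∀ l : ℕ, (l : ℝ) * ρ ^ (2 * l) ≤ N := by
    intro l
    have h1 : ρ ≤ Real.exp (-(1 / N)) := by
      have h2 : Real.exp (-1) = Real.exp (-(1 / N)) ^ N := by
        rw [← Real.exp_nat_mul]
        congr 1
        field_simp
      rw [h2] at h
      exact (pow_le_pow_iff_left₀ hρ.le (Real.exp_pos _).le (by omega)).1 h
    have h2 : ρ ^ (2 * l) ≤ Real.exp (-(2 * l / N)) := by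
      calc ρ ^ (2 * l) ≤ Real.exp (-(1 / N)) ^ (2 * l) := pow_le_pow_left₀ hρ.le h1 _
        _ = Real.exp (-(2 * l / N)) := by
            rw [← Real.exp_nat_mul]
            congr 1
            push_cast
            ring
    have h3 : (l : ℝ) / N ≤ Real.exp (2 * l / N) := by
      have h4 := Real.add_one_le_exp (2 * (l : ℝ) / N)
      have h5 : (0 : ℝ) ≤ l / N := by positivity
      have h6 : 2 * (l : ℝ) / N = 2 * (l / N) := by ring
      rw [h6] at h4 ⊢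
      linarith
    calc (l : ℝ) * ρ ^ (2 * l) ≤ l * Real.exp (-(2 * l / N)) :=
          mul_le_mul_of_nonneg_left h2 (Nat.cast_nonneg l)
      _ = N * ((l / N) / Real.exp (2 * l / N)) := by
          rw [Real.exp_neg]
          field_simp
      _ ≤ N * 1 := by
          apply mul_le_mul_of_nonneg_left _ hN0.le
          rw [div_le_one (Real.exp_pos _)]
          exact h3
      _ = N := mul_one _
  have hterm : ∀ l : ℕ, ‖tc (qq β) l‖ ^ 2 * ρ ^ (2 * l) ≤
      (if l = 0 then (1 : ℝ) else 0) + (l : ℝ) * ‖tc β l‖ ^ 2 * N := by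
    intro l
    rw [tc_qq_val hβ]
    by_cases hl : l = 0
    · subst hl
      rw [tc_zero, hβ.zero]
      simp
    · rw [if_neg hl, zero_add, norm_mul, mul_pow]
      have hl1 : 1 ≤ l := by omega
      have h1 : ‖(1 : ℂ) - l‖ ^ 2 ≤ (l : ℝ) ^ 2 := by
        apply pow_le_pow_left₀ (norm_nonneg _)
        have h2 : (1 : ℂ) - l = -((((l - 1 : ℕ) : ℝ)) : ℂ) := by
          push_cast [Nat.cast_sub hl1]
          ring
        rw [h2, norm_neg, Complex.norm_real, Real.norm_eq_abs, abs_of_nonneg (Nat.cast_nonneg _)]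
        exact_mod_cast Nat.sub_le l 1
      have h3 : (0 : ℝ) ≤ ‖tc β l‖ ^ 2 := by positivity
      calc ‖(1 : ℂ) - l‖ ^ 2 * ‖tc β l‖ ^ 2 * ρ ^ (2 * l)
          ≤ (l : ℝ) ^ 2 * ‖tc β l‖ ^ 2 * ρ ^ (2 * l) := by gcongr
        _ = (l : ℝ) * ‖tc β l‖ ^ 2 * (l * ρ ^ (2 * l)) := by ring
        _ ≤ (l : ℝ) * ‖tc β l‖ ^ 2 * N := mul_le_mul_of_nonneg_left (hkey l) (by positivity)
  have hsum : HasSum (fun l : ℕ => (if l = 0 then (1 : ℝ) else 0) + (l : ℝ) * ‖tc β l‖ ^ 2 * N)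
      (1 + EE β * N) := (hasSum_ite_eq 0 (1 : ℝ)).add (hE.mul_right (N : ℝ))
  have := hasSum_le hterm hs hsum
  have hE0 := EE_nonneg β
  nlinarith

theorem av_le_sqrt {f : ℂ → ℝ} {ρ B : ℝ} (hB : 0 < B) (hf : CircleIntegrable f 0 ρ)
    (hf2 : CircleIntegrable (fun x => f x ^ 2) 0 ρ)
    (h : circleAverage (fun x => f x ^ 2) 0 ρ ≤ B) : circleAverage f 0 ρ ≤ Real.sqrt B := by
  have hs : 0 < Real.sqrt B := Real.sqrt_pos.2 hB
  have hss : Real.sqrt B * Real.sqrt B = B := Real.mul_self_sqrt hB.le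
  have h1 : circleAverage f 0 ρ ≤
      circleAverage (fun x => (2 * Real.sqrt B)⁻¹ * f x ^ 2 + Real.sqrt B / 2) 0 ρ := by
    apply Real.circleAverage_mono hf ((hf2.const_smul (a := (2 * Real.sqrt B)⁻¹)).add
      (circleIntegrable_const _ _ _))
    intro x _
    change f x ≤ (2 * Real.sqrt B)⁻¹ * f x ^ 2 + Real.sqrt B / 2
    have h2 : 0 ≤ (f x - Real.sqrt B) ^ 2 := sq_nonneg _
    have h3 : (2 * Real.sqrt B)⁻¹ * f x ^ 2 + Real.sqrt B / 2 - f x =
        (2 * Real.sqrt B)⁻¹ * (f x - Real.sqrt B) ^ 2 := by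
      field_simp
      ring
    have h4 : 0 ≤ (2 * Real.sqrt B)⁻¹ * (f x - Real.sqrt B) ^ 2 := by positivity
    linarith
  have h2 : circleAverage (fun x => (2 * Real.sqrt B)⁻¹ * f x ^ 2 + Real.sqrt B / 2) 0 ρ =
      (2 * Real.sqrt B)⁻¹ * circleAverage (fun x => f x ^ 2) 0 ρ + Real.sqrt B / 2 := by
    rw [Real.circleAverage_fun_add (f₁ := fun x => (2 * Real.sqrt B)⁻¹ * f x ^ 2)
      (hf2.const_smul (a := (2 * Real.sqrt B)⁻¹)) (circleIntegrable_const _ _ _),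
      Real.circleAverage_const]
    congr 1
    exact Real.circleAverage_fun_smul (a := (2 * Real.sqrt B)⁻¹)
  rw [h2] at h1
  have h3 : (2 * Real.sqrt B)⁻¹ * circleAverage (fun x => f x ^ 2) 0 ρ ≤
      (2 * Real.sqrt B)⁻¹ * B := mul_le_mul_of_nonneg_left h (by positivity)
  have h4 : (2 * Real.sqrt B)⁻¹ * B = Real.sqrt B / 2 := by
    nth_rw 2 [← hss]
    field_simp
  linarith

theorem av_qq (hβ : IsBeta d β) {N : ℕ} (hN : 1 ≤ N) {ρ : ℝ} (hρ : 0 < ρ) (hρ1 : ρ < 1)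
    (h : ρ ^ N ≤ Real.exp (-1)) :
    circleAverage (fun x => ‖qq β x‖) 0 ρ ≤ Real.sqrt ((1 + EE β) * N) := by
  have hN0 : (0 : ℝ) < N := by exact_mod_cast hN
  have hE0 := EE_nonneg β
  have hc := (qq_diff hβ).continuousOn.norm
  exact av_le_sqrt (by positivity) (ci_of_diff hρ hρ1 hc) (ci_of_diff hρ hρ1 (hc.pow 2))
    (av_qq_sq hβ hN hρ hρ1 h)

/-! ### the error term `S` -/

/-- products of the `V_i` -/
noncomputable def VP (d : ℕ) (β : ℂ → ℂ) (k n : ℕ) : ℂ → ℂ := fun x =>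
  ∏ i ∈ Finset.Ico k n, (BB d β i x) ^ (d - 1)

/-- constants -/
noncomputable def AA' (d : ℕ) : ℕ → ℝ
  | 0 => 0
  | j + 1 => 2 ^ (d - 1) * AA' d j + 1

theorem AA'_nonneg (d j : ℕ) : 0 ≤ AA' d j := by
  induction j with
  | zero => exact le_rfl
  | succ j ih => simp only [AA']; positivity

theorem S_bound (hd : 2 ≤ d) (hβ : IsBeta d β) (k j : ℕ) {x : ℂ} (hx : x ∈ ball (0 : ℂ) 1) :
    ‖YY d β (k + j) x - VP d β k (k + j) x * YY d β k x‖ ≤ AA' d j / (d : ℝ) ^ k := by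
  have hd0 : (0 : ℝ) < d := by exact_mod_cast (show 0 < d by omega)
  have hd1 : (1 : ℝ) ≤ d := by exact_mod_cast (show 1 ≤ d by omega)
  have hx1 : ‖x‖ ≤ 1 := by rw [mem_ball_zero_iff] at hx; exact hx.le
  induction j with
  | zero => simp [VP, AA']
  | succ j ih =>
    have h1 : VP d β k (k + (j + 1)) x = VP d β k (k + j) x * (BB d β (k + j) x) ^ (d - 1) := by
      unfold VP
      rw [← add_assoc, Finset.prod_Ico_succ_top (by omega)]
    have h2 : YY d β (k + (j + 1)) x - VP d β k (k + (j + 1)) x * YY d β k x =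
        (BB d β (k + j) x) ^ (d - 1) * (YY d β (k + j) x - VP d β k (k + j) x * YY d β k x) +
        x ^ (d ^ (k + j + 1) - 1) / (d : ℂ) ^ (k + j + 1) := by
      rw [h1, ← add_assoc, YY_succ]
      ring
    rw [h2]
    refine (norm_add_le _ _).trans ?_
    rw [norm_mul, norm_pow, norm_div, norm_pow, norm_pow, Complex.norm_natCast]
    have h3 : ‖BB d β (k + j) x‖ ^ (d - 1) * ‖YY d β (k + j) x - VP d β k (k + j) x * YY d β k x‖ ≤
        2 ^ (d - 1) * (AA' d j / (d : ℝ) ^ k) :=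
      mul_le_mul (pow_le_pow_left₀ (norm_nonneg _) (AR.BB_le_two hd hβ _ hx) _) ih
        (norm_nonneg _) (by positivity)
    have h4 : ‖x‖ ^ (d ^ (k + j + 1) - 1) / (d : ℝ) ^ (k + j + 1) ≤ 1 / (d : ℝ) ^ k := by
      apply div_le_div₀ (by norm_num) (pow_le_one₀ (norm_nonneg _) hx1) (by positivity)
      exact pow_le_pow_right₀ hd1 (by omega)
    have h5 : AA' d (j + 1) / (d : ℝ) ^ k = 2 ^ (d - 1) * (AA' d j / (d : ℝ) ^ k) + 1 / (d : ℝ) ^ k := by
      simp only [AA']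
      ring
    rw [h5]
    linarith

end Pool.Agent.TH653.MB
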