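import Mathlib
import Pool.Agent.TH653.MB.A6

set_option autoImplicit false

/-! # The coefficients of `log ψ'` at `(d - 1) d ^ n` -/

namespace Pool.Agent.TH653.MB

open Complex Set Topology Filter Metric MeasureTheory N62a1eb23 Pool.Agent.H712R2 Pool.Agent.H713R2
open Real (circleAverage)

variable {d : ℕ} {β : ℂ → ℂ}

/-- room around a circle avoiding a finite set of radii -/
theorem exists_gap {T : Set ℝ} (hT : T.Finite) {a b : ℝ} (ha : 0 < a) (hab : a < b) :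
    ∃ ρ σ : ℝ, a < ρ ∧ ρ < σ ∧ σ < b ∧ ∀ t ∈ T, t < ρ ^ 2 / σ ∨ σ ≤ t := by
  obtain ⟨ρ, hρ1, hρ2⟩ : ∃ ρ ∈ Ioo a b, ρ ∉ T := by
    by_contra h
    push Not at h
    exact (Ioo_infinite hab) (hT.subset h)
  have hopen : Tᶜ ∈ 𝓝 ρ := hT.isClosed.isOpen_compl.mem_nhds hρ2
  obtain ⟨ε, hε, hball⟩ := Metric.mem_nhds_iff.1 hopen
  obtain ⟨σ, hσ⟩ : ∃ σ, σ = ρ + min (ε / 2) ((b - ρ) / 2) := ⟨_, rfl⟩
  have hρ0 : 0 < ρ := ha.trans hρ1.1
  have hm0 : 0 < min (ε / 2) ((b - ρ) / 2) := by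
    apply lt_min (by positivity)
    have := hρ1.2
    linarith
  have hm1 := min_le_left (ε / 2) ((b - ρ) / 2)
  have hm2 := min_le_right (ε / 2) ((b - ρ) / 2)
  have hσρ : ρ < σ := by linarith
  have hσb : σ < b := by
    have := hρ1.2
    linarith
  refine ⟨ρ, σ, hρ1.1, hσρ, hσb, ?_⟩
  intro t ht
  by_contra hcon
  push Not at hcon
  obtain ⟨h1, h2⟩ := hcon
  refine (hball ?_ : t ∈ Tᶜ) ht
  rw [mem_ball, Real.dist_eq, abs_lt]
  have hσ0 : 0 < σ := by linarith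
  rw [div_le_iff₀ hσ0] at h1
  constructor
  · by_contra h3
    push Not at h3
    have h4 : t ≤ ρ - ε := by linarith
    have h5 : σ ≤ ρ + ε / 2 := by linarith
    have ht0 : 0 ≤ t := by
      by_contra ht0
      push Not at ht0
      have := mul_neg_of_neg_of_pos ht0 hσ0
      have h6 : 0 < ρ ^ 2 := by positivity
      linarith
    have h7 : t * σ ≤ (ρ - ε) * (ρ + ε / 2) := by
      apply mul_le_mul h4 h5 hσ0.le
      linarith
    nlinarith
  · linarith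

theorem hh_unique (hβ : IsBeta d β) {w x y : ℂ} (hx : x ∈ ball (0 : ℂ) 1) (hy : y ∈ ball (0 : ℂ) 1)
    (h1 : hh β w x = 0) (h2 : hh β w y = 0) : x = y := by
  have hx0 : x ≠ 0 := by
    rintro rfl
    rw [hh_zero hβ] at h1
    exact one_ne_zero h1
  have hy0 : y ≠ 0 := by
    rintro rfl
    rw [hh_zero hβ] at h2
    exact one_ne_zero h2
  apply hβ.inj x hx y hy hx0 hy0
  unfold hh at h1 h2
  have h3 : β x = w * x := by linear_combination h1
  have h4 : β y = w * y := by linear_combination h2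
  rw [h3, h4]
  field_simp

/-- radii of the zeros of the `β - w x` -/
theorem zeros_finite (hβ : IsBeta d β) (S : Multiset ℂ) :
    {t : ℝ | ∃ w ∈ S, ∃ a ∈ ball (0 : ℂ) 1, hh β w a = 0 ∧ ‖a‖ = t}.Finite := by
  classical
  have h1 : {t : ℝ | ∃ w ∈ S, ∃ a ∈ ball (0 : ℂ) 1, hh β w a = 0 ∧ ‖a‖ = t} ⊆
      ⋃ w ∈ (S.toFinset : Set ℂ), {t : ℝ | ∃ a ∈ ball (0 : ℂ) 1, hh β w a = 0 ∧ ‖a‖ = t} := by
    rintro t ⟨w, hw, a, ha, h2, h3⟩
    simp only [mem_iUnion]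
    exact ⟨w, by simpa using hw, a, ha, h2, h3⟩
  refine (Set.Finite.biUnion S.toFinset.finite_toSet fun w _ => ?_).subset h1
  apply Set.Subsingleton.finite
  rintro t ⟨a, ha, h2, h3⟩ t' ⟨a', ha', h2', h3'⟩
  rw [← h3, ← h3', hh_unique hβ ha ha' h2 h2']

/-- the constant in front of `d ^ k` -/
noncomputable def C0 (d : ℕ) : ℝ := (4 * R0 d) ^ (d - 1) + 3 * (d - 1 : ℕ) * 2 ^ (d - 1)

theorem C0_nonneg (d : ℕ) : 0 ≤ C0 d := by
  have := R0_ge d
  unfold C0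
  have : 0 ≤ 4 * R0 d := by linarith
  positivity

/-- **the main estimate** -/
theorem main_est (hd : 2 ≤ d) (hβ : IsBeta d β) {k j : ℕ} (hj : 1 ≤ j) (hk : 1 ≤ k)
    (hkj : k + j ≤ 2 * k + 1) :
    ‖tc (logDeriv (qq β)) ((d - 1) * d ^ (k + j) - 1) +
      ((d - 1 : ℕ) : ℂ) * (((d - 1 : ℕ) : ℂ) / d * (d : ℂ) ^ (k + j - 1))‖ ≤
    C0 d * d ^ k + (2 * R0 d) ^ (d - 1) * (8 * ((d - 1) * d ^ (k + j) : ℕ) * (AA' d j / (d : ℝ) ^ k) *
      Real.sqrt ((1 + EE β) * (d ^ (k + j) : ℕ))) := by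
  obtain ⟨n, hn⟩ : ∃ n, n = k + j := ⟨_, rfl⟩
  have hn2 : 2 ≤ n := by omega
  have hdn : 2 ≤ d ^ n := two_le_pow hd (by omega)
  have hsp := pow_succ_split hd n
  obtain ⟨m, hm⟩ : ∃ m, m = (d - 1) * d ^ n := ⟨_, rfl⟩
  have hm1 : 1 ≤ m := by rw [hm]; exact Nat.mul_pos (by omega) (by omega)
  have hR := R0_ge d
  have hR0 : 0 < R0 d := by linarith
  -- the radii
  obtain ⟨N, hN⟩ : ∃ N, N = d ^ n := ⟨_, rfl⟩
  have hN0 : N ≠ 0 := by omega
  have hN0' : (0 : ℝ) < N := by exact_mod_cast (show 0 < N by omega)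
  have hpw : ∀ R : ℝ, 0 < R → Real.exp (-(Real.log R / N)) ^ N = R⁻¹ := by
    intro R hR
    rw [← Real.exp_nat_mul]
    have : (N : ℝ) * (-(Real.log R / N)) = -Real.log R := by field_simp
    rw [this, Real.exp_neg, Real.exp_log hR]
  have hlt : Real.exp (-(Real.log (2 * R0 d) / N)) < Real.exp (-(Real.log (R0 d) / N)) := by
    apply Real.exp_lt_exp.2
    apply neg_lt_neg
    apply div_lt_div_of_pos_right _ hN0'
    exact Real.log_lt_log hR0 (by linarith)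
  obtain ⟨ρ, σ, h1, h2, h3, h4⟩ := exists_gap (zeros_finite hβ (crit d k)) (Real.exp_pos _) hlt
  have hρ : 0 < ρ := (Real.exp_pos _).trans h1
  have hσ0 : 0 < σ := hρ.trans h2
  have hb1 : Real.exp (-(Real.log (R0 d) / N)) < 1 := by
    rw [Real.exp_lt_one_iff]
    have : 0 < Real.log (R0 d) / N := div_pos (Real.log_pos (by linarith)) hN0'
    linarith
  have hσ1 : σ < 1 := h3.trans hb1
  have hρ1 : ρ < 1 := h2.trans hσ1
  have hσN : σ ^ N ≤ (R0 d)⁻¹ := by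
    rw [← hpw (R0 d) hR0]
    exact pow_le_pow_left₀ hσ0.le h3.le N
  have hρN : (2 * R0 d)⁻¹ ≤ ρ ^ N := by
    rw [← hpw (2 * R0 d) (by linarith)]
    exact pow_le_pow_left₀ (Real.exp_pos _).le h1.le N
  obtain ⟨R, hRdef⟩ : ∃ R, R = (ρ ^ N)⁻¹ := ⟨_, rfl⟩
  have hρNpos : 0 < ρ ^ N := pow_pos hρ N
  have hR2 : R ≤ 2 * R0 d := by
    rw [hRdef]
    have := inv_anti₀ (by positivity) hρN
    rwa [inv_inv] at this
  have hρσN : ρ ^ N ≤ σ ^ N := pow_le_pow_left₀ hρ.le h2.le N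
  have hR1 : 1 ≤ R := by
    rw [hRdef]
    exact (one_le_inv₀ hρNpos).2 (pow_le_one₀ hρ.le hρ1.le)
  have hRinv : ρ ^ (d ^ n) = R⁻¹ := by rw [hRdef, inv_inv, ← hN]
  have hsubσ : ball (0 : ℂ) σ ⊆ ball 0 1 := ball_subset_ball hσ1.le
  -- the zero free factors
  have hex : ∀ w, w ∈ crit d k → ∃ h : ℂ → ℂ, DifferentiableOn ℂ h (ball 0 1) ∧
      (∀ x ∈ ball (0 : ℂ) σ, h x ≠ 0) ∧ (∀ x, ‖x‖ = ρ → ‖h x‖ = ‖hh β w x‖) ∧ 1 ≤ ‖h 0‖ ∧
      ‖tc (logDeriv h) (m - 1)‖ ≤ C0 d := by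
    intro w hw
    obtain ⟨h, e1, e2, e3, e4, e5⟩ := blaschke hd hβ w hρ h2 hσ1 (n := n) (by omega) hRinv hR1 (by
      by_cases hz : ∃ a ∈ ball (0 : ℂ) 1, hh β w a = 0
      · obtain ⟨a, ha1, ha2⟩ := hz
        rcases h4 ‖a‖ ⟨w, hw, a, ha1, ha2, rfl⟩ with h5 | h5
        · exact Or.inr ⟨a, h5, ha2⟩
        · left
          intro x hx hx0
          have h6 := hh_unique hβ (hsubσ hx) ha1 hx0 ha2
          rw [h6, mem_ball_zero_iff] at hx
          linarith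
      · left
        push Not at hz
        exact fun x hx => hz x (hsubσ hx))
    refine ⟨h, e1, e2, e3, e4, ?_⟩
    rw [hm]
    refine e5.trans ?_
    unfold C0
    have : (2 * R) ^ (d - 1) ≤ (4 * R0 d) ^ (d - 1) := pow_le_pow_left₀ (by linarith) (by linarith) _
    linarith
  choose! H hH1 hH2 hH3 hH4 hH5 using hex
  -- the product
  obtain ⟨Yh, hYh⟩ : ∃ Yh : ℂ → ℂ, Yh = fun x => ((crit d k).map (fun w => H w x)).prod := ⟨_, rfl⟩
  have h0m : (0 : ℂ) ∈ ball (0 : ℂ) 1 := mem_ball_self one_pos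
  have h0σ : (0 : ℂ) ∈ ball (0 : ℂ) σ := mem_ball_self hσ0
  have hnb1 := isOpen_ball.mem_nhds h0m
  have hprod : ∀ S : Multiset ℂ, (∀ w ∈ S, w ∈ crit d k) →
      DifferentiableOn ℂ (fun x => (S.map (fun w => H w x)).prod) (ball 0 1) ∧
      (∀ x ∈ ball (0 : ℂ) σ, (S.map (fun w => H w x)).prod ≠ 0) ∧
      (∀ x, ‖x‖ = ρ → ‖(S.map (fun w => H w x)).prod‖ = ‖(S.map (fun w => hh β w x)).prod‖) ∧
      1 ≤ ‖(S.map (fun w => H w 0)).prod‖ ∧
      ‖(S.map (fun w => tc (logDeriv (H w)) (m - 1))).sum‖ ≤ C0 d * Multiset.card S := by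
    intro S
    induction S using Multiset.induction with
    | empty => intro _; simp
    | cons w S ih =>
      intro hS
      obtain ⟨i1, i2, i3, i4, i5⟩ := ih (fun v hv => hS v (Multiset.mem_cons_of_mem hv))
      have hw := hS w (Multiset.mem_cons_self w S)
      simp only [Multiset.map_cons, Multiset.prod_cons, Multiset.sum_cons, Multiset.card_cons]
      refine ⟨(hH1 w hw).mul i1, fun x hx => mul_ne_zero (hH2 w hw x hx) (i2 x hx), ?_, ?_, ?_⟩
      · intro x hx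
        rw [norm_mul, norm_mul, hH3 w hw x hx, i3 x hx]
      · rw [norm_mul]
        exact one_le_mul_of_one_le_of_one_le (hH4 w hw) i4
      · refine (norm_add_le _ _).trans ?_
        have := hH5 w hw
        push_cast
        linarith
  obtain ⟨p1, p2, p3, p4, p5⟩ := hprod (crit d k) (fun w hw => hw)
  have hYhd : DifferentiableOn ℂ Yh (ball 0 1) := by rw [hYh]; exact p1
  have hYhne : ∀ x ∈ ball (0 : ℂ) σ, Yh x ≠ 0 := by rw [hYh]; exact p2
  have hYhn : ∀ x, ‖x‖ = ρ → ‖Yh x‖ = ‖YY d β k x‖ := by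
    intro x hx
    rw [hYh, YY_prod hd hβ k x]
    exact p3 x hx
  have hYh0 : 1 ≤ ‖Yh 0‖ := by rw [hYh]; exact p4
  have hYhtc : tc (logDeriv Yh) (m - 1) =
      ((crit d k).map (fun w => tc (logDeriv (H w)) (m - 1))).sum := by
    rw [hYh]
    exact (tc_logDeriv_prod _ (fun w hw => (hH1 w hw).analyticAt hnb1)
      (fun w hw => hH2 w hw 0 h0σ) _).2.2
  -- the products `VP`
  have hVPd : DifferentiableOn ℂ (VP d β k n) (ball 0 1) := by
    unfold VP
    exact DifferentiableOn.fun_finsetProd fun i _ => (BB_diff hβ.diff i).pow _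
  have hVPne : ∀ x ∈ ball (0 : ℂ) 1, VP d β k n x ≠ 0 := by
    intro x hx
    unfold VP
    exact Finset.prod_ne_zero_iff.2 fun i _ => pow_ne_zero _ (Pool.Agent.W677.MB.BB_ne hd hβ i hx)
  have hVP0 : VP d β k n 0 = 1 := by
    unfold VP
    exact Finset.prod_eq_one fun i _ => by rw [BB_zero_val hd hβ, one_pow]
  have hVPtc : tc (logDeriv (VP d β k n)) (m - 1) =
      ((d - 1 : ℕ) : ℂ) * (((d - 1 : ℕ) : ℂ) / d * (d : ℂ) ^ (n - 1)) := by
    unfold VP
    rw [tc_logDeriv_finset_prod (Finset.Ico k n) (f := fun i x => BB d β i x ^ (d - 1))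
      (fun i _ => by have := BB_analyticAt (d := d) hβ i; fun_prop)
      (fun i _ => pow_ne_zero _ (by rw [BB_zero_val hd hβ]; exact one_ne_zero))]
    have h5 : ∀ i ∈ Finset.Ico k n, tc (logDeriv (fun x => BB d β i x ^ (d - 1))) (m - 1) =
        if i = n - 1 then ((d - 1 : ℕ) : ℂ) * (((d - 1 : ℕ) : ℂ) / d * (d : ℂ) ^ (n - 1)) else 0 := by
      intro i hi
      rw [Finset.mem_Ico] at hi
      rw [tc_logDeriv_pow (BB_analyticAt hβ i) (by rw [BB_zero_val hd hβ]; exact one_ne_zero)]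
      by_cases hin : i = n - 1
      · rw [if_pos hin, hin, hm, tc_BB_main hd hβ hn2]
      · rw [if_neg hin, hm, tc_BB_other hd hβ (by omega) (by omega), mul_zero]
    rw [Finset.sum_congr rfl h5, Finset.sum_ite_eq' (Finset.Ico k n) (n - 1), if_pos]
    rw [Finset.mem_Ico]
    omega
  -- the quotient
  have hden : DifferentiableOn ℂ (fun x => VP d β k n x * Yh x) (ball 0 σ) :=
    (hVPd.mono hsubσ).mul (hYhd.mono hsubσ)
  have hdenne : ∀ x ∈ ball (0 : ℂ) σ, VP d β k n x * Yh x ≠ 0 := fun x hx =>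
    mul_ne_zero (hVPne x (hsubσ hx)) (hYhne x hx)
  obtain ⟨f, hf⟩ : ∃ f : ℂ → ℂ, f = fun x => YY d β n x / (VP d β k n x * Yh x) := ⟨_, rfl⟩
  have hYσ : ∀ x ∈ ball (0 : ℂ) σ, YY d β n x ≠ 0 := by
    intro x hx
    apply YY_ne hd hβ n (hsubσ hx)
    rw [mem_ball_zero_iff] at hx
    rw [← hN]
    exact (pow_le_pow_left₀ (norm_nonneg _) hx.le N).trans hσN
  have hfd : DifferentiableOn ℂ f (ball 0 σ) := by
    rw [hf]
    exact ((YY_diff hβ n).mono hsubσ).div hden hdenne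
  have hfne : ∀ x ∈ ball (0 : ℂ) σ, f x ≠ 0 := by
    intro x hx
    rw [hf]
    exact div_ne_zero (hYσ x hx) (hdenne x hx)
  have hf0 : ‖f 0‖ ≤ 1 := by
    rw [hf]
    simp only
    rw [YY_zero_val hd hβ, hVP0, one_mul, norm_div, norm_one]
    rw [div_le_one (by linarith)]
    exact hYh0
  -- the coefficients
  have hnbσ := isOpen_ball.mem_nhds h0σ
  have hYtc : tc (logDeriv (YY d β n)) (m - 1) = tc (logDeriv f) (m - 1) +
      (tc (logDeriv (VP d β k n)) (m - 1) + tc (logDeriv Yh) (m - 1)) := by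
    rw [← tc_logDeriv_mul (hVPd.analyticAt hnb1) (hYhd.analyticAt hnb1) (hVPne 0 h0m) (hYhne 0 h0σ),
      ← tc_logDeriv_mul (hfd.analyticAt hnbσ) (hden.analyticAt hnbσ) (hfne 0 h0σ) (hdenne 0 h0σ)]
    apply tc_congr
    filter_upwards [hnbσ] with x hx
    refine (logDeriv_congr_nhds ?_).eq_of_nhds
    filter_upwards [isOpen_ball.mem_nhds hx] with y hy
    rw [hf]
    exact (div_mul_cancel₀ _ (hdenne y hy)).symm
  have hqtc : tc (logDeriv (qq β)) (m - 1) = - tc (logDeriv (YY d β n)) (m - 1) := by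
    apply tc_qq hd hβ n
    omega
  -- the error
  obtain ⟨A, hA⟩ : ∃ A, A = AA' d j / (d : ℝ) ^ k := ⟨_, rfl⟩
  have hA0 : 0 ≤ A := by
    rw [hA]
    exact div_nonneg (AA'_nonneg d j) (by positivity)
  have hqc := (qq_diff hβ).continuousOn.norm
  have hqci : CircleIntegrable (fun x => ‖qq β x‖) 0 ρ := ci_of_diff hρ hρ1 hqc
  have hbound := tc_logDeriv_bound hρ h2 hfd hfne hf0 (e := fun x => 2 * A * ‖qq β x‖)
    (hqci.const_smul (a := 2 * A)) (fun x _ => by positivity) (by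
      intro x hx
      rw [mem_sphere_zero_iff_norm] at hx
      have hx1 : x ∈ ball (0 : ℂ) 1 := by rw [mem_ball_zero_iff, hx]; exact hρ1
      have hxσ : x ∈ ball (0 : ℂ) σ := by rw [mem_ball_zero_iff, hx]; exact h2
      have hY := half_le_YY hd hβ n hx1 (by
        rw [hx, ← hN]
        exact hρσN.trans hσN)
      have hS := S_bound hd hβ k j hx1
      rw [← hn, ← hA] at hS
      have hYpos : 0 < ‖YY d β n x‖ := norm_pos_iff.2 (hYσ x hxσ)
      have hDpos : 0 < ‖VP d β k n x * Yh x‖ := norm_pos_iff.2 (hdenne x hxσ)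
      have hD : ‖VP d β k n x * Yh x‖ ≤ ‖YY d β n x‖ + A := by
        have e1 : ‖VP d β k n x * Yh x‖ = ‖VP d β k n x * YY d β k x‖ := by
          rw [norm_mul, norm_mul, hYhn x hx]
        rw [e1]
        have e2 := norm_sub_norm_le (VP d β k n x * YY d β k x) (YY d β n x)
        rw [norm_sub_rev] at e2
        linarith
      have hfx : ‖f x‖ = ‖YY d β n x‖ / ‖VP d β k n x * Yh x‖ := by
        rw [hf]
        simp only
        rw [norm_div]
      rw [hfx, neg_le, ← Real.log_inv, inv_div]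
      have e3 : ‖VP d β k n x * Yh x‖ / ‖YY d β n x‖ ≤ 1 + 2 * A * ‖qq β x‖ := by
        rw [div_le_iff₀ hYpos]
        nlinarith
      refine (Real.log_le_sub_one_of_pos (by positivity)).trans ?_
      linarith) hm1
  have hav : circleAverage (fun x => 2 * A * ‖qq β x‖) 0 ρ ≤
      2 * A * Real.sqrt ((1 + EE β) * (d ^ n : ℕ)) := by
    have e1 : circleAverage (fun x => 2 * A * ‖qq β x‖) 0 ρ =
        2 * A * circleAverage (fun x => ‖qq β x‖) 0 ρ :=
      Real.circleAverage_fun_smul (a := 2 * A) (f := fun x => ‖qq β x‖)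
    rw [e1]
    apply mul_le_mul_of_nonneg_left _ (by positivity)
    rw [← hN]
    apply av_qq hβ (by omega) hρ hρ1
    exact (hρσN.trans hσN).trans (inv_le_exp (by linarith))
  have hρm : ρ ^ m = (R ^ (d - 1))⁻¹ := by
    rw [hm, mul_comm, pow_mul, hRinv, inv_pow]
  have hRd : 0 < R ^ (d - 1) := by positivity
  have hfb : ‖tc (logDeriv f) (m - 1)‖ ≤ (2 * R0 d) ^ (d - 1) * (8 * m * A *
      Real.sqrt ((1 + EE β) * (d ^ n : ℕ))) := by
    rw [hρm] at hbound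
    have e1 : ‖tc (logDeriv f) (m - 1)‖ =
        R ^ (d - 1) * (‖tc (logDeriv f) (m - 1)‖ * (R ^ (d - 1))⁻¹) := by field_simp
    rw [e1]
    have e2 : R ^ (d - 1) ≤ (2 * R0 d) ^ (d - 1) := pow_le_pow_left₀ (by linarith) hR2 _
    have e3 : 4 * (m : ℝ) * circleAverage (fun x => 2 * A * ‖qq β x‖) 0 ρ ≤
        4 * m * (2 * A * Real.sqrt ((1 + EE β) * (d ^ n : ℕ))) :=
      mul_le_mul_of_nonneg_left hav (by positivity)
    apply mul_le_mul e2 _ (by positivity) (by positivity)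
    refine hbound.trans (e3.trans (le_of_eq ?_))
    ring
  have hcard : ((Multiset.card (crit d k) : ℕ) : ℝ) ≤ (d : ℝ) ^ k := by
    rw [card_crit hd]
    have : d ^ k - 1 ≤ d ^ k := Nat.sub_le _ _
    exact_mod_cast this
  have hYhb : ‖tc (logDeriv Yh) (m - 1)‖ ≤ C0 d * (d : ℝ) ^ k := by
    rw [hYhtc]
    exact p5.trans (mul_le_mul_of_nonneg_left hcard (C0_nonneg d))
  rw [← hn, ← hm, ← hA, hqtc, hYtc, hVPtc]
  have hfin : -(tc (logDeriv f) (m - 1) + (((d - 1 : ℕ) : ℂ) * (((d - 1 : ℕ) : ℂ) / d * (d : ℂ) ^ (n - 1)) +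
      tc (logDeriv Yh) (m - 1))) + ((d - 1 : ℕ) : ℂ) * (((d - 1 : ℕ) : ℂ) / d * (d : ℂ) ^ (n - 1)) =
      -(tc (logDeriv Yh) (m - 1) + tc (logDeriv f) (m - 1)) := by ring
  rw [hfin, norm_neg]
  refine (norm_add_le _ _).trans ?_
  linarith

end Pool.Agent.TH653.MB
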