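import Mathlib
import Pool.Agent.TH653.MB.A7

set_option autoImplicit false

/-! # The limit of the coefficients -/

namespace Pool.Agent.TH653.MB

open Complex Set Topology Filter Metric MeasureTheory N62a1eb23 Pool.Agent.H712R2 Pool.Agent.H713R2
open Real (circleAverage)

variable {d : ℕ} {β : ℂ → ℂ}

/-- normalised form of the main estimate -/
theorem main_est' (hd : 2 ≤ d) (hβ : IsBeta d β) {k j : ℕ} (hj : 1 ≤ j) (hk : 1 ≤ k)
    (hkj : k + j ≤ 2 * k + 1) :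
    ‖tc (logDeriv (qq β)) ((d - 1) * d ^ (k + j) - 1) / (((d - 1) * d ^ (k + j) : ℕ) : ℂ) +
      ((d - 1 : ℕ) : ℂ) / (d : ℂ) ^ 2‖ ≤
    C0 d / (d : ℝ) ^ j + (2 * R0 d) ^ (d - 1) * (8 * AA' d j * Real.sqrt (1 + EE β) *
      Real.sqrt ((d : ℝ) ^ j)) / Real.sqrt ((d : ℝ) ^ k) := by
  have h := main_est hd hβ hj hk hkj
  have hd0 : (0 : ℝ) < d := by exact_mod_cast (show 0 < d by omega)
  have hdC : (d : ℂ) ≠ 0 := by exact_mod_cast hd0.ne'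
  obtain ⟨m, hm⟩ : ∃ m, m = (d - 1) * d ^ (k + j) := ⟨_, rfl⟩
  have hm1 : 1 ≤ m := by
    rw [hm]
    exact Nat.mul_pos (by omega) (pow_pos (by omega) _)
  have hm0 : (0 : ℝ) < m := by exact_mod_cast hm1
  have hmC : (m : ℂ) ≠ 0 := by exact_mod_cast hm0.ne'
  have hd1 : ((d - 1 : ℕ) : ℂ) ≠ 0 := by
    have : d - 1 ≠ 0 := by omega
    exact_mod_cast this
  rw [← hm] at h ⊢
  have e1 : tc (logDeriv (qq β)) (m - 1) / (m : ℂ) + ((d - 1 : ℕ) : ℂ) / (d : ℂ) ^ 2 =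
      (tc (logDeriv (qq β)) (m - 1) +
        ((d - 1 : ℕ) : ℂ) * (((d - 1 : ℕ) : ℂ) / d * (d : ℂ) ^ (k + j - 1))) / m := by
    have e2 : (m : ℂ) = ((d - 1 : ℕ) : ℂ) * (d : ℂ) ^ (k + j - 1) * d := by
      rw [hm]
      have : d ^ (k + j) = d ^ (k + j - 1) * d := by
        rw [← pow_succ]
        congr 1
        omega
      rw [this]
      push_cast
      ring
    rw [add_div]
    congr 1
    rw [e2]
    field_simp
  rw [e1, norm_div, Complex.norm_natCast, div_le_iff₀ hm0]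
  refine h.trans ?_
  have hC := C0_nonneg d
  have hA := AA'_nonneg d j
  have hR := R0_ge d
  have hdj : (0 : ℝ) < (d : ℝ) ^ j := by positivity
  have hdk : (0 : ℝ) < (d : ℝ) ^ k := by positivity
  have hmr : (m : ℝ) = ((d - 1 : ℕ) : ℝ) * ((d : ℝ) ^ k * (d : ℝ) ^ j) := by
    rw [hm]
    push_cast
    ring
  have hd11 : (1 : ℝ) ≤ ((d - 1 : ℕ) : ℝ) := by
    have : 1 ≤ d - 1 := by omega
    exact_mod_cast this
  have f1 : C0 d * (d : ℝ) ^ k ≤ C0 d / (d : ℝ) ^ j * m := by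
    rw [hmr]
    have : C0 d / (d : ℝ) ^ j * (((d - 1 : ℕ) : ℝ) * ((d : ℝ) ^ k * (d : ℝ) ^ j)) =
        C0 d * (d : ℝ) ^ k * ((d - 1 : ℕ) : ℝ) := by field_simp
    rw [this]
    exact le_mul_of_one_le_right (by positivity) hd11
  have hs : Real.sqrt ((1 + EE β) * ((d ^ (k + j) : ℕ) : ℝ)) =
      Real.sqrt (1 + EE β) * (Real.sqrt ((d : ℝ) ^ k) * Real.sqrt ((d : ℝ) ^ j)) := by
    have hE := EE_nonneg β
    rw [Real.sqrt_mul (by linarith)]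
    congr 1
    rw [← Real.sqrt_mul hdk.le, ← pow_add]
    push_cast
    rfl
  have hsk : 0 < Real.sqrt ((d : ℝ) ^ k) := Real.sqrt_pos.2 hdk
  have hskk : (d : ℝ) ^ k = Real.sqrt ((d : ℝ) ^ k) * Real.sqrt ((d : ℝ) ^ k) :=
    (Real.mul_self_sqrt hdk.le).symm
  have f2 : (2 * R0 d) ^ (d - 1) * (8 * (m : ℝ) * (AA' d j / (d : ℝ) ^ k) *
      Real.sqrt ((1 + EE β) * ((d ^ (k + j) : ℕ) : ℝ))) =
      (2 * R0 d) ^ (d - 1) * (8 * AA' d j * Real.sqrt (1 + EE β) *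
      Real.sqrt ((d : ℝ) ^ j)) / Real.sqrt ((d : ℝ) ^ k) * m := by
    rw [hs]
    obtain ⟨s, hsdef⟩ : ∃ s, s = Real.sqrt ((d : ℝ) ^ k) := ⟨_, rfl⟩
    rw [← hsdef] at hskk hsk ⊢
    rw [hskk]
    field_simp
  rw [f2, add_mul]
  linarith

/-- **the coefficients of the logarithm of the derivative of the exterior map** -/
theorem coef_limit (hd : 2 ≤ d) (hβ : IsBeta d β) :
    Tendsto (fun n : ℕ => tc (logDeriv (qq β)) ((d - 1) * d ^ n - 1) / (((d - 1) * d ^ n : ℕ) : ℂ))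
      atTop (𝓝 (-(((d - 1 : ℕ) : ℂ) / (d : ℂ) ^ 2))) := by
  rw [Metric.tendsto_atTop]
  intro ε hε
  have hd1 : (1 : ℝ) < d := by exact_mod_cast (show 1 < d by omega)
  have hd0 : (0 : ℝ) < d := by linarith
  -- choose `j`
  obtain ⟨j, hj1, hj2⟩ : ∃ j : ℕ, 1 ≤ j ∧ C0 d / (d : ℝ) ^ j < ε / 2 := by
    have h1 : Tendsto (fun j : ℕ => C0 d / (d : ℝ) ^ j) atTop (𝓝 0) :=
      tendsto_const_nhds.div_atTop (tendsto_pow_atTop_atTop_of_one_lt hd1)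
    have h2 := (h1.eventually (gt_mem_nhds (half_pos hε))).and (eventually_ge_atTop 1)
    obtain ⟨j, hj⟩ := h2.exists
    exact ⟨j, hj.2, hj.1⟩
  obtain ⟨K, hK⟩ : ∃ K : ℝ, K = (2 * R0 d) ^ (d - 1) * (8 * AA' d j * Real.sqrt (1 + EE β) *
      Real.sqrt ((d : ℝ) ^ j)) := ⟨_, rfl⟩
  have h3 : Tendsto (fun k : ℕ => K / Real.sqrt ((d : ℝ) ^ k)) atTop (𝓝 0) :=
    tendsto_const_nhds.div_atTop
      (Real.tendsto_sqrt_atTop.comp (tendsto_pow_atTop_atTop_of_one_lt hd1))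
  obtain ⟨k0, hk0⟩ := eventually_atTop.1 (h3.eventually (gt_mem_nhds (half_pos hε)))
  refine ⟨k0 + 2 * j + 1, fun n hn => ?_⟩
  obtain ⟨k, rfl⟩ : ∃ k, n = k + j := ⟨n - j, by omega⟩
  have h4 := main_est' hd hβ hj1 (show 1 ≤ k by omega) (by omega)
  have h5 := hk0 k (by omega)
  rw [← hK] at h4
  rw [dist_eq_norm, sub_neg_eq_add]
  linarith

end Pool.Agent.TH653.MB
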