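import Mathlib
import Pool.Agent.TH653.MB.A8
import Pool.Agent.TH653.MB.A11

set_option autoImplicit false

/-! # Transfer to the exterior map -/

namespace Pool.Agent.TH653.MB

open Complex Set Topology Filter Metric MeasureTheory N62a1eb23 Pool.Agent.H712R2 Pool.Agent.H713R2
open Real (circleAverage)

variable {d : ℕ} {β : ℂ → ℂ}

theorem hasDerivAt_beta_inv (hβ : IsBeta d β) {z : ℂ} (hz : 1 < ‖z‖) :
    HasDerivAt (fun w => w * β w⁻¹) (qq β z⁻¹) z := by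
  obtain ⟨h1, h2⟩ := inv_mem_ball hz
  have hz0 : z ≠ 0 := fun h => h2 (by rw [h, inv_zero])
  have h3 : HasDerivAt β (deriv β z⁻¹) z⁻¹ :=
    (hβ.diff.differentiableAt (isOpen_ball.mem_nhds h1)).hasDerivAt
  have h4 := (hasDerivAt_id z).mul (h3.comp z (hasDerivAt_inv hz0))
  have h5 : qq β z⁻¹ = 1 * (β ∘ Inv.inv) z + id z * (deriv β z⁻¹ * -(z ^ 2)⁻¹) := by
    unfold qq
    simp only [Function.comp_apply, id_eq]
    field_simp
    ring
  rw [h5]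
  exact h4

theorem hasDerivAt_psi (hβ : IsBeta d β) {ψ : ℂ → ℂ} (hψ : IsExteriorMap (multibrotSet d) ψ)
    {z : ℂ} (hz : 1 < ‖z‖) : HasDerivAt ψ (qq β z⁻¹) z := by
  refine (hasDerivAt_beta_inv hβ hz).congr_of_eventuallyEq ?_
  have hext : IsOpen {z : ℂ | 1 < ‖z‖} := isOpen_lt continuous_const continuous_norm
  filter_upwards [hext.mem_nhds hz] with w hw
  exact exteriorMap_unique hβ hψ hw

theorem hasDerivAt_deriv_psi (hβ : IsBeta d β) {ψ : ℂ → ℂ}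
    (hψ : IsExteriorMap (multibrotSet d) ψ) {z : ℂ} (hz : 1 < ‖z‖) :
    HasDerivAt (deriv ψ) (deriv (qq β) z⁻¹ * -(z ^ 2)⁻¹) z := by
  obtain ⟨h1, h2⟩ := inv_mem_ball hz
  have hz0 : z ≠ 0 := fun h => h2 (by rw [h, inv_zero])
  have h3 : HasDerivAt (qq β) (deriv (qq β) z⁻¹) z⁻¹ :=
    ((qq_diff hβ).differentiableAt (isOpen_ball.mem_nhds h1)).hasDerivAt
  refine (h3.comp z (hasDerivAt_inv hz0)).congr_of_eventuallyEq ?_
  have hext : IsOpen {z : ℂ | 1 < ‖z‖} := isOpen_lt continuous_const continuous_norm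
  filter_upwards [hext.mem_nhds hz] with w hw
  exact (hasDerivAt_psi hβ hψ hw).deriv

/-- `log ψ'` is a Bloch function -/
theorem qq_bloch (hβ : IsBeta d β) {x : ℂ} (hx : x ∈ ball (0 : ℂ) 1) :
    ‖x * logDeriv (qq β) x‖ ≤ 4 / (1 - ‖x‖) := by
  by_cases hx0 : x = 0
  · subst hx0
    simp
  · have hxn := mem_ball_zero_iff.1 hx
    have hxp : 0 < ‖x‖ := norm_pos_iff.2 hx0
    have hψ := exteriorMap_of_beta hβ
    have hz := one_lt_norm_inv hx hx0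
    have hsub : ball x⁻¹ (‖x⁻¹‖ - 1) ⊆ {z : ℂ | 1 < ‖z‖} := by
      intro w hw
      rw [mem_ball, dist_eq_norm] at hw
      have h1 : ‖x⁻¹‖ ≤ ‖w‖ + ‖w - x⁻¹‖ := by
        have := norm_sub_norm_le w (w - x⁻¹)
        have h2 := norm_sub_le w (w - x⁻¹)
        rwa [sub_sub_cancel] at h2
      rw [mem_setOf_eq]
      linarith
    have h1 := (Pool.Agent.H792R2.SS.t_KB (fun z => z * β z⁻¹) x⁻¹ (‖x⁻¹‖ - 1) (by linarith)
      (hψ.diff.mono hsub) (hψ.inj.mono hsub)).2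
    rw [(hasDerivAt_deriv_psi hβ hψ hz).deriv, (hasDerivAt_psi hβ hψ hz).deriv, inv_inv] at h1
    have hq := qq_ne hβ hx
    have hqp : 0 < ‖qq β x‖ := norm_pos_iff.2 hq
    have h2 : ‖deriv (qq β) x * -((x⁻¹) ^ 2)⁻¹‖ = ‖deriv (qq β) x‖ * ‖x‖ ^ 2 := by
      rw [norm_mul, norm_neg, norm_inv, norm_pow, norm_inv]
      congr 1
      field_simp
    rw [h2, norm_inv] at h1
    rw [logDeriv_apply, norm_mul, norm_div, le_div_iff₀ (by linarith), ← mul_div_assoc,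
      div_mul_eq_mul_div, div_le_iff₀ hqp]
    calc ‖x‖ * ‖deriv (qq β) x‖ * (1 - ‖x‖) = (‖x‖⁻¹ - 1) * (‖deriv (qq β) x‖ * ‖x‖ ^ 2) := by
          field_simp
      _ ≤ 4 * ‖qq β x‖ := h1

/-- the normalised logarithm of `ψ'` in the coordinate `x = 1 / z` -/
theorem exists_log (hβ : IsBeta d β) : ∃ B : ℂ → ℂ, DifferentiableOn ℂ B (ball 0 1) ∧ B 0 = 0 ∧
    (∀ x ∈ ball (0 : ℂ) 1, exp (B x) = qq β x) ∧
    ∀ x ∈ ball (0 : ℂ) 1, deriv B x = logDeriv (qq β) x := by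
  obtain ⟨g, hg, hge, hgd⟩ := exists_log_ball one_pos (qq_diff hβ) (fun x hx => qq_ne hβ hx)
  have h0 : exp (g 0) = 1 := by rw [hge 0 (mem_ball_self one_pos), qq_zero hβ]
  refine ⟨fun x => g x - g 0, hg.sub_const _, sub_self _, ?_, ?_⟩
  · intro x hx
    simp only
    rw [exp_sub, hge x hx, h0, div_one]
  · intro x hx
    rw [deriv_sub_const]
    exact hgd x hx

theorem tc_log (hβ : IsBeta d β) {B : ℂ → ℂ}
    (hBd : ∀ x ∈ ball (0 : ℂ) 1, deriv B x = logDeriv (qq β) x) (k : ℕ) :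
    tc (logDeriv (qq β)) k = (k + 1) * tc B (k + 1) := by
  rw [← tc_deriv]
  apply tc_congr
  filter_upwards [isOpen_ball.mem_nhds (mem_ball_self (x := (0 : ℂ)) one_pos)] with x hx
  exact (hBd x hx).symm

theorem log_coef_limit (hd : 2 ≤ d) (hβ : IsBeta d β) {B : ℂ → ℂ}
    (hBd : ∀ x ∈ ball (0 : ℂ) 1, deriv B x = logDeriv (qq β) x) :
    Tendsto (fun n => tc B ((d - 1) * d ^ n)) atTop (𝓝 (-(((d - 1 : ℕ) : ℂ) / (d : ℂ) ^ 2))) := by
  refine (coef_limit hd hβ).congr fun n => ?_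
  have h1 : 1 ≤ (d - 1) * d ^ n := Nat.one_le_iff_ne_zero.2
    (mul_ne_zero (by omega) (pow_ne_zero _ (by omega)))
  have h2 : ((d - 1) * d ^ n - 1 : ℕ) + 1 = (d - 1) * d ^ n := Nat.sub_add_cancel h1
  have h3 : (((d - 1) * d ^ n : ℕ) : ℂ) ≠ 0 := by exact_mod_cast (by omega : (d - 1) * d ^ n ≠ 0)
  have h4 := tc_log hβ hBd ((d - 1) * d ^ n - 1)
  rw [h2] at h4
  have h5 : ((((d - 1) * d ^ n - 1 : ℕ) : ℂ) + 1) = (((d - 1) * d ^ n : ℕ) : ℂ) := by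
    rw [← Nat.cast_add_one, h2]
  rw [h4, h5, mul_div_cancel_left₀ _ h3]

/-- circle averages in the coordinate `1 / z` -/
theorem av_inv {E : Type*} [NormedAddCommGroup E] [NormedSpace ℝ E] (F : ℂ → E) (r : ℝ) :
    circleAverage (fun z => F z⁻¹) 0 r = circleAverage F 0 r⁻¹ := by
  rw [Real.circleAverage_eq_circleAverage_zero_one (R := r),
    Real.circleAverage_eq_circleAverage_zero_one (R := r⁻¹)]
  rw [← Real.circleAverage_zero_one_congr_inv]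
  simp only [add_zero, mul_inv_rev, inv_inv, ofReal_inv]
  congr 1
  funext z
  rw [mul_comm]

end Pool.Agent.TH653.MB
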