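import Mathlib
import Pool.Agent.TH653.MB.A12

set_option autoImplicit false

/-! # Mean nonlinearity and the main theorem -/

namespace Pool.Agent.TH653.MB

open Complex Set Topology Filter Metric MeasureTheory N62a1eb23 Pool.Agent.H712R2 Pool.Agent.H713R2
open Real (circleAverage)

theorem coef_le_av {F : ℂ → ℂ} {ρ : ℝ} (hρ : 0 < ρ) (hσ : ρ < 1)
    (hF : DifferentiableOn ℂ F (ball (0 : ℂ) 1)) (m : ℕ) :
    ‖tc F m‖ * ρ ^ m ≤ circleAverage (fun x => ‖F x‖) 0 ρ := by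
  have h1 := av_div_pow hρ hσ hF m
  have h2 : ‖tc F m‖ ≤ circleAverage (fun x => ‖F x / x ^ m‖) 0 ρ := by
    rw [← h1]
    exact norm_av_le
  have h3 : circleAverage (fun x => ‖F x / x ^ m‖) 0 ρ =
      circleAverage (fun x => (ρ ^ m)⁻¹ * ‖F x‖) 0 ρ := by
    apply Real.circleAverage_congr_sphere
    intro x hx
    rw [mem_sphere_zero_iff_norm, abs_of_pos hρ] at hx
    simp only [norm_div, norm_pow, hx]
    rw [div_eq_inv_mul]
  rw [h3, av_smul] at h2
  have h4 : 0 < ρ ^ m := by positivity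
  calc ‖tc F m‖ * ρ ^ m ≤ ((ρ ^ m)⁻¹ * circleAverage (fun x => ‖F x‖) 0 ρ) * ρ ^ m :=
        mul_le_mul_of_nonneg_right h2 h4.le
    _ = _ := by field_simp

/-- a lower bound for the mean of `|x B'|` on every circle -/
theorem nonlin_mean {d : ℕ} (hd : 2 ≤ d) {B : ℂ → ℂ} (hB : DifferentiableOn ℂ B (ball 0 1))
    {c0 : ℝ} (hc0 : 0 < c0) {n0 : ℕ} (hc : ∀ n, n0 ≤ n → c0 ≤ ‖tc B ((d - 1) * d ^ n)‖) :
    ∃ κ ρ0 : ℝ, 0 < κ ∧ 1 / 2 ≤ ρ0 ∧ ρ0 < 1 ∧ ∀ ρ, ρ0 < ρ → ρ < 1 →
      κ / (1 - ρ) ≤ circleAverage (fun x => ‖x * deriv B x‖) 0 ρ := by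
  have hdp : (0 : ℝ) < d := by exact_mod_cast (show 0 < d by omega)
  obtain ⟨K, hK⟩ : ∃ K : ℕ, K = (d - 1) * d ^ n0 := ⟨_, rfl⟩
  have hK1 : 1 ≤ K := by
    rw [hK]
    exact Nat.one_le_iff_ne_zero.2 (mul_ne_zero (by omega) (pow_ne_zero _ (by omega)))
  have hKr : (1 : ℝ) ≤ K := by exact_mod_cast hK1
  refine ⟨c0 * Real.exp (-2) / d, 1 - 1 / (2 * K), by positivity, ?_, ?_, ?_⟩
  · have : 1 / (2 * (K : ℝ)) ≤ 1 / 2 := by
      apply one_div_le_one_div_of_le (by norm_num)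
      linarith
    linarith
  · have : 0 < 1 / (2 * (K : ℝ)) := by positivity
    linarith
  · intro ρ hρ0 hρ1
    have hy0 : 0 < 1 - ρ := by linarith
    have hyK : 1 - ρ < 1 / (2 * K) := by linarith
    have hy2 : 1 - ρ ≤ 1 / 2 := by
      have : 1 / (2 * (K : ℝ)) ≤ 1 / 2 := by
        apply one_div_le_one_div_of_le (by norm_num)
        linarith
      linarith
    have hρp : 0 < ρ := by linarith
    have hKy : (K : ℝ) ≤ 1 / (1 - ρ) := by
      rw [le_div_iff₀ hy0]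
      rw [lt_div_iff₀ (by positivity)] at hyK
      nlinarith
    obtain ⟨N, hN⟩ : ∃ N : ℕ, N = ⌊1 / (1 - ρ)⌋₊ := ⟨_, rfl⟩
    have hN1 : (N : ℝ) ≤ 1 / (1 - ρ) := by rw [hN]; exact Nat.floor_le (by positivity)
    have hN2 : 1 / (1 - ρ) < (N : ℝ) + 1 := by rw [hN]; exact Nat.lt_floor_add_one _
    have hKN : K ≤ N := by rw [hN]; exact Nat.le_floor hKy
    have hd1 : 0 < d - 1 := by omega
    have hq : d ^ n0 ≤ N / (d - 1) := by
      rw [Nat.le_div_iff_mul_le hd1, mul_comm, ← hK]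
      exact hKN
    have hq0 : N / (d - 1) ≠ 0 := by
      have : 1 ≤ d ^ n0 := Nat.one_le_pow _ _ (by omega)
      omega
    obtain ⟨n, hn⟩ : ∃ n : ℕ, n = Nat.log d (N / (d - 1)) := ⟨_, rfl⟩
    have hn0 : n0 ≤ n := by rw [hn]; exact Nat.le_log_of_pow_le (by omega) hq
    have hn1 : d ^ n ≤ N / (d - 1) := by rw [hn]; exact Nat.pow_log_le_self d hq0
    have hn2 : N / (d - 1) < d ^ (n + 1) := by rw [hn]; exact Nat.lt_pow_succ_log_self (by omega) _
    rw [Nat.le_div_iff_mul_le hd1] at hn1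
    rw [Nat.div_lt_iff_lt_mul hd1] at hn2
    obtain ⟨m, hm⟩ : ∃ m : ℕ, m = (d - 1) * d ^ n := ⟨_, rfl⟩
    have hm1 : m ≤ N := by rw [hm, mul_comm]; exact hn1
    have hm2 : N + 1 ≤ d * m := by
      rw [hm]
      calc N + 1 ≤ d ^ (n + 1) * (d - 1) := hn2
        _ = d * ((d - 1) * d ^ n) := by ring
    have hm1' : (m : ℝ) * (1 - ρ) ≤ 1 := by
      have : (m : ℝ) ≤ 1 / (1 - ρ) := le_trans (by exact_mod_cast hm1) hN1
      rwa [le_div_iff₀ hy0] at this
    have hm2' : 1 / (1 - ρ) ≤ d * m := by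
      refine hN2.le.trans ?_
      exact_mod_cast hm2
    have hpow : Real.exp (-2) ≤ ρ ^ m := by
      have h1 := one_sub_ge_exp hy0.le hy2
      rw [sub_sub_cancel] at h1
      calc Real.exp (-2) ≤ Real.exp (-(2 * (1 - ρ)) * m) := by
            apply Real.exp_le_exp.2
            nlinarith
        _ = Real.exp (-(2 * (1 - ρ))) ^ m := by rw [mul_comm, Real.exp_nat_mul]
        _ ≤ ρ ^ m := pow_le_pow_left₀ (Real.exp_pos _).le h1 m
    have hG : DifferentiableOn ℂ (fun x => x * deriv B x) (ball 0 1) :=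
      differentiableOn_id.mul (hB.deriv isOpen_ball)
    have h1 := coef_le_av hρp hρ1 hG m
    rw [tc_id_mul_deriv hB, norm_mul, Complex.norm_natCast] at h1
    refine le_trans ?_ h1
    have h2 := hc n hn0
    rw [← hm] at h2
    have h3 : 1 / (1 - ρ) / d ≤ m := by
      rw [div_le_iff₀ hdp]
      linarith
    calc c0 * Real.exp (-2) / d / (1 - ρ) = (1 / (1 - ρ) / d) * c0 * Real.exp (-2) := by
          field_simp
      _ ≤ m * ‖tc B m‖ * ρ ^ m := by
          gcongr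

/-- a definite proportion of angles, from the mean -/
theorem measure_of_mean {f : ℝ → ℝ} (hf : Continuous f) {κ : ℝ} (hκ : 0 < κ)
    (h4 : ∀ θ, f θ ≤ 4) (hmean : κ ≤ (2 * Real.pi)⁻¹ * ∫ θ in (0 : ℝ)..2 * Real.pi, f θ) :
    ENNReal.ofReal (κ / 4) ≤ volume {θ : ℝ | θ ∈ Ioc 0 (2 * Real.pi) ∧ κ / 2 ≤ f θ} := by
  have hpi := Real.pi_pos
  have hpi3 := Real.pi_gt_three
  set S : Set ℝ := {θ : ℝ | θ ∈ Ioc 0 (2 * Real.pi) ∧ κ / 2 ≤ f θ} with hS
  have hSm : MeasurableSet S := measurableSet_Ioc.inter (measurableSet_le measurable_const hf.measurable)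
  have hSfin : volume S ≠ ⊤ := by
    apply ne_top_of_le_ne_top (b := volume (Ioc (0 : ℝ) (2 * Real.pi)))
    · rw [Real.volume_Ioc]
      exact ENNReal.ofReal_ne_top
    · exact measure_mono fun x hx => hx.1
  have h1 : ∫ θ in (0 : ℝ)..2 * Real.pi, f θ ≤
      ∫ θ in (0 : ℝ)..2 * Real.pi, (S.indicator (fun _ => (4 : ℝ)) θ + κ / 2) := by
    rw [intervalIntegral.integral_of_le (by positivity), intervalIntegral.integral_of_le (by positivity)]
    apply setIntegral_mono_on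
    · exact (hf.integrableOn_Icc (a := 0) (b := 2 * Real.pi)).mono_set Ioc_subset_Icc_self
    · apply Integrable.add
      · apply Integrable.indicator _ hSm
        exact (continuous_const.integrableOn_Icc (a := 0) (b := 2 * Real.pi)).mono_set Ioc_subset_Icc_self
      · exact (continuous_const.integrableOn_Icc (a := 0) (b := 2 * Real.pi)).mono_set Ioc_subset_Icc_self
    · exact measurableSet_Ioc
    · intro θ hθ
      by_cases h : θ ∈ S
      · rw [indicator_of_mem h]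
        linarith [h4 θ]
      · rw [indicator_of_notMem h, zero_add]
        by_contra h5
        exact h ⟨hθ, (not_le.1 h5).le⟩
  have h2 : ∫ θ in (0 : ℝ)..2 * Real.pi, (S.indicator (fun _ => (4 : ℝ)) θ + κ / 2) =
      4 * volume.real S + κ / 2 * (2 * Real.pi) := by
    rw [intervalIntegral.integral_of_le (by positivity), integral_add]
    · rw [integral_indicator hSm, Measure.restrict_restrict hSm,
        inter_eq_self_of_subset_left (fun x hx => hx.1 : S ⊆ Ioc 0 (2 * Real.pi)), setIntegral_const,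
        setIntegral_const, smul_eq_mul, smul_eq_mul, Real.volume_real_Ioc_of_le (by positivity)]
      ring
    · apply Integrable.indicator _ hSm
      exact (continuous_const.integrableOn_Icc (a := 0) (b := 2 * Real.pi)).mono_set Ioc_subset_Icc_self
    · exact (continuous_const.integrableOn_Icc (a := 0) (b := 2 * Real.pi)).mono_set Ioc_subset_Icc_self
  rw [h2] at h1
  have h3 : κ * (2 * Real.pi) ≤ ∫ θ in (0 : ℝ)..2 * Real.pi, f θ := by
    rw [inv_mul_eq_div, le_div_iff₀ (by positivity)] at hmean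
    exact hmean
  have h5 : κ / 4 ≤ volume.real S := by nlinarith
  rw [← ENNReal.ofReal_toReal hSfin]
  exact ENNReal.ofReal_le_ofReal h5

end Pool.Agent.TH653.MB
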