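import Mathlib
import Pool.Agent.TH653.MB.A13

set_option autoImplicit false

/-! # The main theorem on the derivative of the exterior map -/

namespace Pool.Agent.TH653.MB

open Complex Set Topology Filter Metric MeasureTheory N62a1eb23 Pool.Agent.H712R2 Pool.Agent.H713R2
open Real (circleAverage)

theorem av_eq (F : ℂ → ℝ) (r : ℝ) : circleAverage F 0 r =
    (2 * Real.pi)⁻¹ * ∫ θ in (0 : ℝ)..2 * Real.pi, F (r * exp (θ * I)) := by
  unfold circleAverage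
  rw [smul_eq_mul]
  congr 1
  apply intervalIntegral.integral_congr
  intro θ _
  simp [circleMap]

theorem tc_const_mul (u : ℂ) (B : ℂ → ℂ) (k : ℕ) : tc (fun x => u * B x) k = u * tc B k := by
  unfold tc
  rw [iteratedDeriv_const_mul_field]
  ring

theorem main {d : ℕ} (hd : 2 ≤ d) {ψ : ℂ → ℂ} (hψ : IsExteriorMap (multibrotSet d) ψ) :
    ∃ a : ℕ → ℂ, a 0 = 0 ∧
      (∀ z : ℂ, 1 < ‖z‖ →
        Summable (fun m : ℕ => a m / z ^ m) ∧ exp (∑' m : ℕ, a m / z ^ m) = deriv ψ z) ∧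
      Tendsto (fun n : ℕ => a ((d - 1) * d ^ n)) atTop (𝓝 (-(((d - 1 : ℕ) : ℂ) / (d : ℂ) ^ 2))) ∧
      ∃ c r₀ : ℝ, 0 < c ∧ 1 < r₀ ∧ ∀ r : ℝ, 1 < r → r < r₀ →
        ENNReal.ofReal c ≤ volume {θ : ℝ | θ ∈ Ioc 0 (2 * Real.pi) ∧
          c ≤ (r - 1) * ‖deriv (deriv ψ) (r * exp (θ * I)) / deriv ψ (r * exp (θ * I))‖} ∧
        c * Real.log (1 / (r - 1)) ≤ (2 * Real.pi)⁻¹ *
          ∫ θ in (0 : ℝ)..2 * Real.pi, ‖∑' m : ℕ, a m / (r * exp (θ * I)) ^ m‖ ^ 2 ∧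
        (∀ p : ℂ, 1 / 2 * Real.exp (c * ‖p‖ * Real.sqrt (Real.log (1 / (r - 1)))) ≤
          (2 * Real.pi)⁻¹ *
            ∫ θ in (0 : ℝ)..2 * Real.pi, ‖exp (p * ∑' m : ℕ, a m / (r * exp (θ * I)) ^ m)‖) ∧
        ∀ p : ℝ, 1 / 2 * Real.exp (c * |p| * Real.sqrt (Real.log (1 / (r - 1)))) ≤
          (2 * Real.pi)⁻¹ * ∫ θ in (0 : ℝ)..2 * Real.pi, ‖deriv ψ (r * exp (θ * I))‖ ^ p := by
  obtain ⟨β, hβ⟩ := exists_beta hd
  obtain ⟨B, hB, hB0, hBe, hBd⟩ := exists_log hβ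
  have hd1 : 0 < d - 1 := by omega
  have hdr : (0 : ℝ) < d := by exact_mod_cast (show 0 < d by omega)
  have hd1r : (0 : ℝ) < ((d - 1 : ℕ) : ℝ) := by exact_mod_cast hd1
  -- the series
  have hsum : ∀ z : ℂ, 1 < ‖z‖ → HasSum (fun m : ℕ => tc B m / z ^ m) (B z⁻¹) := by
    intro z hz
    have h1 := hasSum_tc hB (inv_mem_ball hz).1
    refine h1.congr_fun ?_ |> id
    intro m
    rw [inv_pow, div_eq_mul_inv]
  have hts : ∀ z : ℂ, 1 < ‖z‖ → ∑' m : ℕ, tc B m / z ^ m = B z⁻¹ := fun z hz => (hsum z hz).tsum_eq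
  have hlim := log_coef_limit hd hβ hBd
  -- lower bound of the coefficients
  obtain ⟨c0, hc0def⟩ : ∃ c0 : ℝ, c0 = ((d - 1 : ℕ) : ℝ) / (d : ℝ) ^ 2 / 2 := ⟨_, rfl⟩
  have hc0 : 0 < c0 := by rw [hc0def]; positivity
  obtain ⟨n0, hn0⟩ : ∃ n0 : ℕ, ∀ n, n0 ≤ n → c0 ≤ ‖tc B ((d - 1) * d ^ n)‖ := by
    have h1 := hlim.norm
    have h2 : ‖-(((d - 1 : ℕ) : ℂ) / (d : ℂ) ^ 2)‖ = ((d - 1 : ℕ) : ℝ) / (d : ℝ) ^ 2 := by
      rw [norm_neg, norm_div, norm_pow, Complex.norm_natCast, Complex.norm_natCast]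
    rw [h2] at h1
    have h3 : c0 < ((d - 1 : ℕ) : ℝ) / (d : ℝ) ^ 2 := by
      rw [hc0def]
      exact half_lt_self (by positivity)
    obtain ⟨n0, h4⟩ := eventually_atTop.1 (h1.eventually_const_le h3)
    exact ⟨n0, h4⟩
  have hBl : ∀ x ∈ ball (0 : ℂ) 1, ‖x * deriv B x‖ ≤ 4 / (1 - ‖x‖) := by
    intro x hx
    rw [hBd x hx]
    exact qq_bloch hβ hx
  obtain ⟨c1, ρ1, hc1, hρ1h, hρ1, hgrow⟩ := bloch_growth 4 hd (m := fun n => (d - 1) * d ^ n)
    (fun n k h => by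
      have h1 : d ^ n = d ^ k := Nat.eq_of_mul_eq_mul_left hd1 h
      exact Nat.pow_right_injective hd h1)
    (fun n => by
      rw [pow_succ_split hd]
      exact Nat.le_add_right _ _) hc0 n0
  obtain ⟨κ, ρ2, hκ, hρ2h, hρ2, hmean⟩ := nonlin_mean hd hB hc0 hn0
  obtain ⟨ρ0, hρ0⟩ : ∃ ρ0, ρ0 = max ρ1 ρ2 := ⟨_, rfl⟩
  have hρ0h : 1 / 2 ≤ ρ0 := by rw [hρ0]; exact le_trans hρ1h (le_max_left _ _)
  have hρ01 : ρ0 < 1 := by rw [hρ0]; exact max_lt hρ1 hρ2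
  have hρ0p : 0 < ρ0 := by linarith
  refine ⟨tc B, ?_, fun z hz => ⟨(hsum z hz).summable, ?_⟩, hlim, min c1 (κ / 4), ρ0⁻¹,
    lt_min hc1 (by positivity), (one_lt_inv₀ hρ0p).2 hρ01, ?_⟩
  · rw [tc_zero, hB0]
  · rw [hts z hz, hBe _ (inv_mem_ball hz).1, (hasDerivAt_psi hβ hψ hz).deriv]
  intro r hr1 hr2
  have hrp : 0 < r := by linarith
  have hr22 : r < 2 := by
    refine hr2.trans_le ?_
    rw [inv_le_comm₀ hρ0p (by norm_num)]
    linarith
  obtain ⟨ρ, hρ⟩ : ∃ ρ, ρ = r⁻¹ := ⟨_, rfl⟩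
  have hρp : 0 < ρ := by rw [hρ]; positivity
  have hρlt : ρ < 1 := by rw [hρ]; exact inv_lt_one_of_one_lt₀ hr1
  have hρgt : ρ0 < ρ := by
    rw [hρ]
    rwa [lt_inv_comm₀ hρ0p hrp]
  have hρg1 : ρ1 < ρ := lt_of_le_of_lt (by rw [hρ0]; exact le_max_left _ _) hρgt
  have hρg2 : ρ2 < ρ := lt_of_le_of_lt (by rw [hρ0]; exact le_max_right _ _) hρgt
  have hy : 0 < 1 - ρ := by linarith
  have hy1 : 1 - ρ = (r - 1) / r := by rw [hρ]; field_simp
  have hz : ∀ θ : ℝ, ‖(r : ℂ) * exp (θ * I)‖ = r := by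
    intro θ
    rw [norm_mul, Complex.norm_exp_ofReal_mul_I, mul_one, Complex.norm_real, Real.norm_of_nonneg hrp.le]
  have hz1 : ∀ θ : ℝ, 1 < ‖(r : ℂ) * exp (θ * I)‖ := fun θ => by rw [hz]; exact hr1
  have hlog : Real.log (1 / (r - 1)) ≤ Real.log (1 / (1 - ρ)) := by
    apply Real.log_le_log (by have : 0 < r - 1 := by linarith
                              positivity)
    apply one_div_le_one_div_of_le hy
    rw [hy1, div_le_iff₀ hrp]
    nlinarith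
  have hlog0 : 0 ≤ Real.log (1 / (r - 1)) := by
    apply Real.log_nonneg
    rw [le_div_iff₀ (by linarith)]
    linarith
  have hsq : Real.sqrt (Real.log (1 / (r - 1))) ≤ Real.sqrt (Real.log (1 / (1 - ρ))) :=
    Real.sqrt_le_sqrt hlog
  have hcle : min c1 (κ / 4) ≤ c1 := min_le_left _ _
  have hcp : 0 < min c1 (κ / 4) := lt_min hc1 (by positivity)
  have hexpc : ∀ p : ℂ, 1 / 2 * Real.exp (min c1 (κ / 4) * ‖p‖ *
      Real.sqrt (Real.log (1 / (r - 1)))) ≤ (2 * Real.pi)⁻¹ *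
      ∫ θ in (0 : ℝ)..2 * Real.pi, ‖exp (p * ∑' m : ℕ, tc B m / (r * exp (θ * I)) ^ m)‖ := by
    intro p
    obtain ⟨u, hu, hup⟩ : ∃ u : ℂ, ‖u‖ = 1 ∧ (‖p‖ : ℂ) * u = p := by
      by_cases hp : p = 0
      · exact ⟨1, norm_one, by rw [hp]; simp⟩
      · refine ⟨p / ‖p‖, ?_, ?_⟩
        · rw [norm_div, Complex.norm_real, norm_norm, div_self (norm_ne_zero_iff.2 hp)]
        · rw [mul_div_cancel₀]
          exact_mod_cast norm_ne_zero_iff.2 hp
    have h1 := (hgrow (fun x => u * B x) (hB.const_mul u) (by rw [hB0, mul_zero]) (by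
      intro x hx
      have h2 : deriv (fun x => u * B x) x = u * deriv B x := deriv_const_mul_field u
      rw [h2, mul_left_comm, norm_mul, hu, one_mul]
      exact hBl x hx) (by
      intro n hn
      rw [tc_const_mul, norm_mul, hu, one_mul]
      exact hn0 n hn) ρ hρg1 hρlt).2 ‖p‖
    rw [abs_of_nonneg (norm_nonneg p)] at h1
    have h3 : (2 * Real.pi)⁻¹ *
        ∫ θ in (0 : ℝ)..2 * Real.pi, ‖exp (p * ∑' m : ℕ, tc B m / (r * exp (θ * I)) ^ m)‖ =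
        circleAverage (fun x => Real.exp (‖p‖ * (u * B x).re)) 0 ρ := by
      rw [hρ, ← av_inv, av_eq]
      congr 1
      apply intervalIntegral.integral_congr
      intro θ _
      simp only
      rw [hts _ (hz1 θ), Complex.norm_exp]
      congr 1
      conv_lhs => rw [← hup]
      rw [mul_assoc, Complex.re_ofReal_mul]
    rw [h3]
    refine le_trans ?_ h1
    gcongr
  refine ⟨?_, ?_, hexpc, ?_⟩
  · -- definite proportion
    have hFc : Continuous fun θ : ℝ =>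
        (r - 1) * ‖deriv (deriv ψ) (r * exp (θ * I)) / deriv ψ (r * exp (θ * I))‖ := by
      have h1 : (fun θ : ℝ =>
        (r - 1) * ‖deriv (deriv ψ) (r * exp (θ * I)) / deriv ψ (r * exp (θ * I))‖) =
        fun θ : ℝ => (1 - ρ) * ‖(r * exp (θ * I))⁻¹ * deriv B (r * exp (θ * I))⁻¹‖ := by
        funext θ
        obtain ⟨hm, _⟩ := inv_mem_ball (hz1 θ)
        rw [(hasDerivAt_psi hβ hψ (hz1 θ)).deriv, (hasDerivAt_deriv_psi hβ hψ (hz1 θ)).deriv,
          hBd _ hm, logDeriv_apply]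
        generalize hw : deriv (qq β) (↑r * exp (↑θ * I))⁻¹ = w
        generalize hv : qq β (↑r * exp (↑θ * I))⁻¹ = v
        rw [norm_div, norm_mul, norm_neg, norm_inv, norm_pow, hz, norm_mul, norm_div, norm_inv, hz, hy1]
        field_simp
      rw [h1]
      have h2 : Continuous fun θ : ℝ => ((r : ℂ) * exp (θ * I))⁻¹ := by
        apply Continuous.inv₀ (by fun_prop)
        intro θ h
        have := hz θ
        rw [h, norm_zero] at this
        linarith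
      have h3 : Continuous fun θ : ℝ => deriv B ((r : ℂ) * exp (θ * I))⁻¹ :=
        (hB.deriv isOpen_ball).continuousOn.comp_continuous h2 (fun θ => (inv_mem_ball (hz1 θ)).1)
      exact continuous_const.mul (h2.mul h3).norm
    have hval : ∀ θ : ℝ, (r - 1) * ‖deriv (deriv ψ) (r * exp (θ * I)) / deriv ψ (r * exp (θ * I))‖ =
        (1 - ρ) * ‖(r * exp (θ * I))⁻¹ * deriv B (r * exp (θ * I))⁻¹‖ := by
      intro θ
      obtain ⟨hm, _⟩ := inv_mem_ball (hz1 θ)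
      rw [(hasDerivAt_psi hβ hψ (hz1 θ)).deriv, (hasDerivAt_deriv_psi hβ hψ (hz1 θ)).deriv,
        hBd _ hm, logDeriv_apply]
      generalize hw : deriv (qq β) (↑r * exp (↑θ * I))⁻¹ = w
      generalize hv : qq β (↑r * exp (↑θ * I))⁻¹ = v
      rw [norm_div, norm_mul, norm_neg, norm_inv, norm_pow, hz, norm_mul, norm_div, norm_inv, hz, hy1]
      field_simp
    have h4 : ∀ θ : ℝ,
        (r - 1) * ‖deriv (deriv ψ) (r * exp (θ * I)) / deriv ψ (r * exp (θ * I))‖ ≤ 4 := by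
      intro θ
      rw [hval]
      have h5 := hBl _ (inv_mem_ball (hz1 θ)).1
      rw [norm_inv ((r : ℂ) * exp (θ * I)), hz, ← hρ, le_div_iff₀ hy, mul_comm] at h5
      exact h5
    have h6 : κ ≤ (2 * Real.pi)⁻¹ * ∫ θ in (0 : ℝ)..2 * Real.pi,
        (r - 1) * ‖deriv (deriv ψ) (r * exp (θ * I)) / deriv ψ (r * exp (θ * I))‖ := by
      have h7 := hmean ρ hρg2 hρlt
      rw [hρ, ← av_inv, av_eq, ← hρ, div_le_iff₀ hy] at h7
      refine h7.trans (le_of_eq ?_)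
      have h8 : ∫ θ in (0 : ℝ)..2 * Real.pi,
          (r - 1) * ‖deriv (deriv ψ) (r * exp (θ * I)) / deriv ψ (r * exp (θ * I))‖ =
          ∫ θ in (0 : ℝ)..2 * Real.pi,
          (1 - ρ) * ‖(r * exp (θ * I))⁻¹ * deriv B (r * exp (θ * I))⁻¹‖ := by
        apply intervalIntegral.integral_congr
        intro θ _
        exact hval θ
      rw [h8, intervalIntegral.integral_const_mul]
      ring
    have h9 := measure_of_mean hFc hκ h4 h6
    refine le_trans (ENNReal.ofReal_le_ofReal (min_le_right _ _)) (h9.trans (measure_mono ?_))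
    rintro θ ⟨h10, h11⟩
    refine ⟨h10, le_trans ?_ h11⟩
    refine (min_le_right _ _).trans ?_
    linarith
  · -- mean square
    have h1 := (hgrow B hB hB0 hBl hn0 ρ hρg1 hρlt).1
    have h3 : (2 * Real.pi)⁻¹ *
        ∫ θ in (0 : ℝ)..2 * Real.pi, ‖∑' m : ℕ, tc B m / (r * exp (θ * I)) ^ m‖ ^ 2 =
        circleAverage (fun x => ‖B x‖ ^ 2) 0 ρ := by
      rw [hρ, ← av_inv, av_eq]
      congr 1
      apply intervalIntegral.integral_congr
      intro θ _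
      simp only
      rw [hts _ (hz1 θ)]
    rw [h3]
    refine le_trans ?_ h1
    gcongr
  · intro p
    have h1 := hexpc (p : ℂ)
    rw [Complex.norm_real, Real.norm_eq_abs] at h1
    refine h1.trans (le_of_eq ?_)
    congr 1
    apply intervalIntegral.integral_congr
    intro θ _
    simp only
    rw [hts _ (hz1 θ), Complex.norm_exp, Complex.re_ofReal_mul,
      (hasDerivAt_psi hβ hψ (hz1 θ)).deriv, ← hBe _ (inv_mem_ball (hz1 θ)).1, Complex.norm_exp,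
      ← Real.exp_mul]
    congr 1
    ring

end Pool.Agent.TH653.MB
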